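import Pool.Agent.H110R2.NB3

/-!
# Two-reservoir book theorem: definitions

Potential of a triple `(X, Y1, Y2)`: for weights `m1` on `Y1`, `m2` on `Y2` and centres `u, w ≥ 0`,
`SS = ∑_{z ∈ X} ((2 u e1(z) - u^2)_+)^n ((2 w e2(z) - w^2)_+)^n`, where
`e1(z) = ∑_{y ∈ Y1} m1(y) (1[zy red] - p1)` and `e2(z) = ∑_{y ∈ Y2} m2(y) (1[zy blue] - p2)`.
It is compared with `(∑ m1^(1+b1/N))^N (∑ m1)^(2 N^2 - N - b1)` (and the same for `m2`), `n = N^2`.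
-/

open Finset

namespace W478R

open H110R2

open Classical in
/-- adjacency indicator -/
noncomputable def ri {V : Type} (G : SimpleGraph V) (z y : V) : ℝ := if G.Adj z y then 1 else 0

/-- centred weighted degree -/
noncomputable def ex {V : Type} (r : V → V → ℝ) (p : ℝ) (Y : Finset V) (m : V → ℝ) (z : V) : ℝ :=
  ∑ y ∈ Y, m y * (r z y - p)

/-- `(2 u s - u^2)_+` -/
noncomputable def ph (u s : ℝ) : ℝ := max (2 * u * s - u ^ 2) 0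

/-- the Rényi sum `∑ m^(1+β/N)` -/
noncomputable def ren {V : Type} (β : ℝ) (N : ℕ) (Y : Finset V) (m : V → ℝ) : ℝ :=
  ∑ y ∈ Y, m y ^ (1 + β / N)

/-- the cost functional -/
noncomputable def CC {V : Type} (β : ℝ) (N : ℕ) (Y : Finset V) (m : V → ℝ) : ℝ :=
  ren β N Y m ^ N * (∑ y ∈ Y, m y) ^ (2 * (N : ℝ) ^ 2 - N - β)

/-- the two-reservoir functional -/
noncomputable def SS {V : Type} (r1 r2 : V → V → ℝ) (p1 p2 : ℝ) (N : ℕ) (X Y1 Y2 : Finset V)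
    (m1 m2 : V → ℝ) (u w : ℝ) : ℝ :=
  ∑ z ∈ X, ph u (ex r1 p1 Y1 m1 z) ^ (N ^ 2) * ph w (ex r2 p2 Y2 m2 z) ^ (N ^ 2)

/-- One side of an optimal configuration (`ρ` is the probability distribution on `X` proportional
to the summands of `SS`). -/
structure Side {V : Type} (X Y : Finset V) (r : V → V → ℝ) (p β : ℝ) (N : ℕ) (ρ m : V → ℝ)
    (u : ℝ) : Prop where
  hr : ∀ z y, r z y = 0 ∨ r z y = 1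
  hρ0 : ∀ z ∈ X, 0 ≤ ρ z
  hρ1 : ∑ z ∈ X, ρ z = 1
  hm0 : ∀ y ∈ Y, 0 ≤ m y
  hm1 : ∑ y ∈ Y, m y = 1
  hu : 0 < u
  hq : ∀ z ∈ X, 0 < ρ z → 0 < 2 * u * ex r p Y m z - u ^ 2
  hopt : ∀ (m' : V → ℝ) (u' : ℝ), (∀ y ∈ Y, 0 ≤ m' y) → 0 ≤ u' →
    (∑ z ∈ X, ρ z * (ph u' (ex r p Y m' z) / (2 * u * ex r p Y m z - u ^ 2)) ^ (N ^ 2))
      * ren β N Y m ^ N ≤ CC β N Y m'

/-- Output of the one-sided analysis. `Xg`: good vertices, `ξ v z`: linearised log-gain of `z` under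
the tilt given by `v`, `K`: the exact Gram kernel close to it, `mH v, uH v`: hard (restricting) tilt,
`mS v, uS v`: soft tilt. -/
structure SideOut {V : Type} (X Y : Finset V) (r : V → V → ℝ) (p β T : ℝ) (N : ℕ) (ρ m : V → ℝ)
    (u L ε C8 : ℝ) (Xg : Finset V) (ξ K : V → V → ℝ) (mH mS : V → V → ℝ) (uH uS : V → ℝ) :
    Prop where
  hXg : Xg ⊆ X
  hbad : ∑ z ∈ X, ρ z - ∑ z ∈ Xg, ρ z ≤ ε
  hmean : ∀ v ∈ Xg, ∑ z ∈ X, ρ z * ξ v z = 0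
  hmom : ∀ v ∈ Xg, ∑ z ∈ X, ρ z * ξ v z ^ 8 ≤ C8
  hgram : ∃ (wt : V → ℝ) (g : V → V → ℝ), (∀ y ∈ Y, 0 ≤ wt y) ∧
    ∀ v ∈ Xg, ∀ z ∈ Xg, K v z = ∑ y ∈ Y, wt y * g v y * g z y
  hclose : ∀ v ∈ Xg, ∀ z ∈ Xg, |K v z - ξ v z| ≤ ε * (1 + |ξ v z|)
  hH0 : ∀ v ∈ Xg, ∀ y ∈ Y, 0 ≤ mH v y
  hH1 : ∀ v ∈ Xg, ∑ y ∈ Y, mH v y = 1
  hHr : ∀ v ∈ Xg, ∀ y ∈ Y, r v y = 0 → mH v y = 0
  hHu : ∀ v ∈ Xg, 0 ≤ uH v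
  hHard : ∀ v ∈ Xg, ∀ z ∈ Xg, 0 < ρ z → |ξ v z| ≤ L →
    (1 - ε) * Real.exp (ξ v z) * p ^ β * (2 * u * ex r p Y m z - u ^ 2) ^ (N ^ 2)
        * ren β N Y (mH v) ^ N
      ≤ ph (uH v) (ex r p Y (mH v) z) ^ (N ^ 2) * ren β N Y m ^ N
  hS0 : ∀ v ∈ Xg, ∀ y ∈ Y, 0 ≤ mS v y
  hS1 : ∀ v ∈ Xg, ∑ y ∈ Y, mS v y = 1
  hSu : ∀ v ∈ Xg, 0 ≤ uS v
  hSoft : ∀ v ∈ Xg, ∀ z ∈ Xg, 0 < ρ z → |ξ v z| ≤ L →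
    (1 - ε) * Real.exp (T * ξ v z) * Real.exp (-(β * KK p T))
        * (2 * u * ex r p Y m z - u ^ 2) ^ (N ^ 2) * ren β N Y (mS v) ^ N
      ≤ ph (uS v) (ex r p Y (mS v) z) ^ (N ^ 2) * ren β N Y m ^ N

/-- eighth moment constant -/
noncomputable def C8c (B0 : ℝ) : ℝ := 31500000000 * (Real.exp (B0 / 25) - 1)

/-- **Task A (one-sided analysis).** -/
def SideMain : Prop :=
  ∀ (p β T B0 : ℝ), 1 / 5 < p → p < 1 → 0 < β → 0 < T → T < 1 → β * (1 - p) ≤ B0 * p →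
  ∀ L ε : ℝ, 0 < L → 0 < ε → ∃ N0 : ℕ, ∀ N : ℕ, N0 ≤ N →
  ∀ (V : Type) [DecidableEq V] (X Y : Finset V) (r : V → V → ℝ) (ρ m : V → ℝ) (u : ℝ),
    Side X Y r p β N ρ m u →
    ∃ (Xg : Finset V) (ξ K : V → V → ℝ) (mH mS : V → V → ℝ) (uH uS : V → ℝ),
      SideOut X Y r p β T N ρ m u L ε (C8c B0 + ε) Xg ξ K mH mS uH uS

/-- the certificate polynomial -/
noncomputable def Gc (g0 a b d e dl x y : ℝ) : ℝ :=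
  g0 + a * (x + y) + b * (x * y) + d * (x ^ 3 + y ^ 3) + e * (x * y * (x + y))
    - dl * (x ^ 8 + y ^ 8)

/-- validity of the certificate -/
structure CertOK (T g0 a b d e dl : ℝ) : Prop where
  hT0 : 0 < T
  hT1 : T < 1
  hg : 0 < g0
  ha : 0 ≤ a
  hb : 0 ≤ b
  hd : 0 ≤ d
  he : 0 ≤ e
  hdl : 0 ≤ dl
  hc : ∀ x y : ℝ, Gc g0 a b d e dl x y ≤ Real.exp (x + T * y) / 2

/-- **Task B (combination).** If all red and all blue continuations fail, contradiction. -/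
def Combine : Prop :=
  ∀ (T g0 a b d e dl C8 αR αB : ℝ), CertOK T g0 a b d e dl → 0 ≤ C8 → 0 ≤ αR → 0 ≤ αB →
    αR / 2 + αB / 2 + 2 * dl * C8 < g0 →
  ∃ L ε : ℝ, 0 < L ∧ 0 < ε ∧ ε < 1 ∧
  ∀ (V : Type) [DecidableEq V] (X Xg Y1 Y2 : Finset V) (ρ : V → ℝ) (ξ1 ξ2 K1 K2 : V → V → ℝ)
    (Rd Bl : V → V → Prop),
    Xg ⊆ X → (∀ z ∈ X, 0 ≤ ρ z) → ∑ z ∈ X, ρ z = 1 → ∑ z ∈ X, ρ z - ∑ z ∈ Xg, ρ z ≤ 2 * ε →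
    (∀ z ∈ X, ρ z ≤ ε) →
    (∀ v ∈ Xg, ∑ z ∈ X, ρ z * ξ1 v z = 0) → (∀ v ∈ Xg, ∑ z ∈ X, ρ z * ξ2 v z = 0) →
    (∀ v ∈ Xg, ∑ z ∈ X, ρ z * ξ1 v z ^ 8 ≤ C8 + ε) →
    (∀ v ∈ Xg, ∑ z ∈ X, ρ z * ξ2 v z ^ 8 ≤ C8 + ε) →
    (∃ (wt : V → ℝ) (g : V → V → ℝ), (∀ y ∈ Y1, 0 ≤ wt y) ∧
      ∀ v ∈ Xg, ∀ z ∈ Xg, K1 v z = ∑ y ∈ Y1, wt y * g v y * g z y) →
    (∃ (wt : V → ℝ) (g : V → V → ℝ), (∀ y ∈ Y2, 0 ≤ wt y) ∧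
      ∀ v ∈ Xg, ∀ z ∈ Xg, K2 v z = ∑ y ∈ Y2, wt y * g v y * g z y) →
    (∀ v ∈ Xg, ∀ z ∈ Xg, |K1 v z - ξ1 v z| ≤ ε * (1 + |ξ1 v z|)) →
    (∀ v ∈ Xg, ∀ z ∈ Xg, |K2 v z - ξ2 v z| ≤ ε * (1 + |ξ2 v z|)) →
    (∀ v ∈ Xg, ∀ z ∈ Xg, v ≠ z → Rd v z ∨ Bl v z) →
    (∀ v ∈ Xg, ∀ Q ⊆ Xg, (∀ z ∈ Q, Rd v z ∧ |ξ1 v z| ≤ L ∧ |ξ2 v z| ≤ L) →
      (1 - ε) ^ 2 * ∑ z ∈ Q, ρ z * Real.exp (ξ1 v z + T * ξ2 v z) ≤ αR) →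
    (∀ v ∈ Xg, ∀ Q ⊆ Xg, (∀ z ∈ Q, Bl v z ∧ |ξ1 v z| ≤ L ∧ |ξ2 v z| ≤ L) →
      (1 - ε) ^ 2 * ∑ z ∈ Q, ρ z * Real.exp (T * ξ1 v z + ξ2 v z) ≤ αB) →
    False

/-- conclusion of the two-reservoir book theorem -/
def TBook (p1 p2 b1 b2 A W : ℝ) : Prop :=
  ∀ δ0 : ℝ, 0 < δ0 → ∃ c : ℝ, ∀ (V : Type) [DecidableEq V] (G : SimpleGraph V) (k l : ℕ)
    (LM1 LM2 : ℝ) (X Y1 Y2 : Finset V), X.Nonempty → Y1.Nonempty → Y2.Nonempty →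
    NoCl G k (X ∪ Y1) → NoCl Gᶜ l (X ∪ Y2) →
    (∀ a ≤ k, ∀ Z ⊆ Y1, Z.Nonempty → NoCl G a Z → b1 * Real.log Z.card ≤ LM1 + A * a) →
    (∀ t ≤ l, ∀ Z ⊆ Y2, Z.Nonempty → NoCl Gᶜ t Z → b2 * Real.log Z.card ≤ LM2 + W * t) →
    (∀ x ∈ X, (p1 + δ0) * Y1.card ≤ ((nb G x Y1).card : ℝ)) →
    (∀ x ∈ X, (p2 + δ0) * Y2.card ≤ ((nb Gᶜ x Y2).card : ℝ)) →
    Real.log X.card + b1 * Real.log Y1.card + b2 * Real.log Y2.card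
      ≤ c + LM1 + LM2 + A * k + W * l

/-- parameters for which the local game is won, certificate `(T, g0, a, b, d, e, dl)` -/
structure PK (T g0 dl B0 p1 p2 b1 b2 A W : ℝ) : Prop where
  hp1 : 1 / 5 < p1
  hp1' : p1 < 1
  hp2 : 1 / 5 < p2
  hp2' : p2 < 1
  hb1 : 0 < b1
  hb2 : 0 < b2
  hA : 0 ≤ A
  hW : 0 ≤ W
  hB1 : b1 * (1 - p1) ≤ B0 * p1
  hB2 : b2 * (1 - p2) ≤ B0 * p2
  hwin : Real.exp (-A + b1 * Real.log (1 / p1) + b2 * KK p2 T) / 2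
    + Real.exp (-W + b2 * Real.log (1 / p2) + b1 * KK p1 T) / 2 + 2 * dl * C8c B0 < g0

/-- **The two-reservoir book theorem** (Task C proves it from `SideMain` and `Combine`). -/
def TBookThm : Prop :=
  ∀ (T g0 a b d e dl B0 p1 p2 b1 b2 A W : ℝ), CertOK T g0 a b d e dl →
    PK T g0 dl B0 p1 p2 b1 b2 A W → TBook p1 p2 b1 b2 A W

end W478R
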