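import Pool.Agent.W478R.Global2
import Pool.Agent.H110R2.Check2

/-!
# Natural number checker for the global induction step
-/

open Finset

namespace W478R

open H110R2

/-- global constants of the checker: `N` scale, `T / N`, `l1T / N ≤ - log (1 - T)`,
`G / N ≤ 2 (g0 - 2 dl C8c B0)` -/
structure GC where
  N : ℕ
  T : ℕ
  l1T : ℕ
  G : ℕ
  B0 : ℕ

/-- membership test -/
def hasL (Ls : List (ℕ × ℕ)) (L : ℕ × ℕ) : Bool :=
  Ls.any (fun L' => decide (L'.1 = L.1) && decide (L'.2 = L.2))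

lemma hasL_sound {Ls : List (ℕ × ℕ)} {L : ℕ × ℕ} (h : hasL Ls L = true) : L ∈ Ls := by
  unfold hasL at h
  obtain ⟨L', hL', h2⟩ := List.any_eq_true.mp h
  simp only [Bool.and_eq_true, decide_eq_true_eq] at h2
  have : L' = L := Prod.ext h2.1 h2.2
  rw [← this]; exact hL'

/-- upper bound for `KK` -/
lemma KK_le {N p T lth l1T : ℕ} (hN : 0 < N) (hp0 : 0 < p) (hp : p < N) (_hT0 : 0 < T) (hT : T < N)
    (h1 : expL N lth (p * N + (N - p) * T) (p * N) = true) (h2 : expU N l1T N (N - T) = true) :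
    KK ((p : ℝ) / N) ((T : ℝ) / N)
      ≤ ((p * N + (N - p : ℕ) * T : ℝ) * lth - (N - p : ℕ) * (N - T : ℕ) * l1T) / (N * N * N) := by
  have hN' : (0 : ℝ) < N := by exact_mod_cast hN
  have hp0' : (0 : ℝ) < p := by exact_mod_cast hp0
  have hpN : (p : ℝ) < N := by exact_mod_cast hp
  have hTN : (T : ℝ) < N := by exact_mod_cast hT
  have hT0' : (0 : ℝ) ≤ T := Nat.cast_nonneg _
  have hcp : ((N - p : ℕ) : ℝ) = N - p := Nat.cast_sub hp.le
  have hcT : ((N - T : ℕ) : ℝ) = N - T := Nat.cast_sub hT.le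
  have l4 : Real.log (((p : ℝ) / N + (1 - (p : ℝ) / N) * ((T : ℝ) / N)) / ((p : ℝ) / N))
      ≤ (lth : ℝ) / N := by
    have e : ((p : ℝ) / N + (1 - (p : ℝ) / N) * ((T : ℝ) / N)) / ((p : ℝ) / N)
        = ((p * N + (N - p) * T : ℕ) : ℝ) / ((p * N : ℕ) : ℝ) := by
      push_cast
      rw [hcp]
      field_simp
    rw [e]
    have h16' := expL_sound hN (Nat.mul_pos hp0 hN) h1
    refine log_le_of_le_exp ?_ h16'
    have : (0 : ℝ) < ((p * N + (N - p) * T : ℕ) : ℝ) := by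
      have : 0 < p * N := Nat.mul_pos hp0 hN
      exact_mod_cast (by omega : 0 < p * N + (N - p) * T)
    have : (0 : ℝ) < ((p * N : ℕ) : ℝ) := by exact_mod_cast Nat.mul_pos hp0 hN
    positivity
  have l5 : Real.log (1 - (T : ℝ) / N) ≤ -((l1T : ℝ) / N) := by
    have h17' := expU_sound hN h2
    have hNT : (0 : ℝ) < ((N - T : ℕ) : ℝ) := by rw [hcT]; linarith
    have h18' : (l1T : ℝ) / N ≤ Real.log ((N : ℝ) / ((N - T : ℕ) : ℝ)) := by
      rw [Real.le_log_iff_exp_le (by positivity)]; exact h17'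
    rw [sub_cast_div hN hT]
    have e : Real.log (((N - T : ℕ) : ℝ) / N) = -Real.log ((N : ℝ) / ((N - T : ℕ) : ℝ)) := by
      rw [← Real.log_inv, inv_div]
    rw [e]; linarith
  have h1p : 0 ≤ 1 - (p : ℝ) / N := by rw [sub_nonneg, div_le_one hN']; exact hpN.le
  have h1T : 0 ≤ 1 - (T : ℝ) / N := by rw [sub_nonneg, div_le_one hN']; exact hTN.le
  have hθ : 0 ≤ (p : ℝ) / N + (1 - (p : ℝ) / N) * ((T : ℝ) / N) := by positivity
  have e2 := mul_le_mul_of_nonneg_left l4 hθ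
  have e3 := mul_le_mul_of_nonneg_left l5 (mul_nonneg h1p h1T)
  unfold KK
  refine (add_le_add e2 e3).trans (le_of_eq ?_)
  rw [hcp, hcT]
  field_simp
  ring

/-- check of the local game -/
def pkchk (c : GC) (p1 p2 b1 b2 A W lp1 lth1 lp2 lth2 e1 v1 e2 v2 : ℕ) : Bool :=
  decide (c.N < 5 * p1) && decide (p1 < c.N) && decide (c.N < 5 * p2) && decide (p2 < c.N) &&
  decide (0 < b1) && decide (0 < b2) &&
  decide (b1 * (c.N - p1) ≤ c.B0 * p1 * c.N) && decide (b2 * (c.N - p2) ≤ c.B0 * p2 * c.N) &&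
  expL c.N lp1 c.N p1 && expL c.N lp2 c.N p2 &&
  expL c.N lth1 (p1 * c.N + (c.N - p1) * c.T) (p1 * c.N) &&
  expL c.N lth2 (p2 * c.N + (c.N - p2) * c.T) (p2 * c.N) &&
  decide (0 < v1) && decide (0 < v2) && expL c.N e1 c.N v1 && expL c.N e2 c.N v2 &&
  decide (e1 * (c.N * c.N * c.N) + b1 * lp1 * (c.N * c.N) + b2 * ((p2 * c.N + (c.N - p2) * c.T) * lth2)
    ≤ A * (c.N * c.N * c.N) + b2 * ((c.N - p2) * (c.N - c.T) * c.l1T)) &&
  decide (e2 * (c.N * c.N * c.N) + b2 * lp2 * (c.N * c.N) + b1 * ((p1 * c.N + (c.N - p1) * c.T) * lth1)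
    ≤ W * (c.N * c.N * c.N) + b1 * ((c.N - p1) * (c.N - c.T) * c.l1T)) &&
  decide (v1 + v2 < c.G)

/-- validity of the global constants -/
structure GCOK (c : GC) (g0 dl : ℝ) : Prop where
  hN : 0 < c.N
  hT0 : 0 < c.T
  hTN : c.T < c.N
  hl : expU c.N c.l1T c.N (c.N - c.T) = true
  hG : (c.G : ℝ) / c.N ≤ 2 * (g0 - 2 * dl * C8c (c.B0 : ℝ))

lemma exp_neg_le {N e v : ℕ} (hN : 0 < N) (hv : 0 < v) (h : expL N e N v = true) :
    Real.exp (-((e : ℝ) / N)) ≤ (v : ℝ) / N := by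
  have hN' : (0 : ℝ) < N := by exact_mod_cast hN
  have hv' : (0 : ℝ) < v := by exact_mod_cast hv
  have h1 := expL_sound hN hv h
  rw [Real.exp_neg, inv_le_comm₀ (Real.exp_pos _) (by positivity), inv_div]
  exact h1

theorem pkchk_sound {c : GC} {g0 dl : ℝ} (hc : GCOK c g0 dl)
    {p1 p2 b1 b2 A W lp1 lth1 lp2 lth2 e1 v1 e2 v2 : ℕ}
    (h : pkchk c p1 p2 b1 b2 A W lp1 lth1 lp2 lth2 e1 v1 e2 v2 = true) :
    PK ((c.T : ℝ) / c.N) g0 dl (c.B0 : ℝ) ((p1 : ℝ) / c.N) ((p2 : ℝ) / c.N) ((b1 : ℝ) / c.N)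
      ((b2 : ℝ) / c.N) ((A : ℝ) / c.N) ((W : ℝ) / c.N) := by
  obtain ⟨hN, hT0, hTN, hl, hG⟩ := hc
  unfold pkchk at h
  simp only [Bool.and_eq_true, decide_eq_true_eq] at h
  obtain ⟨⟨⟨⟨⟨⟨⟨⟨⟨⟨⟨⟨⟨⟨⟨⟨⟨⟨h1, h2⟩, h3⟩, h4⟩, h5⟩, h6⟩, h7⟩, h8⟩, h9⟩, h10⟩, h11⟩, h12⟩, h13⟩, h14⟩,
    h15⟩, h16⟩, h17⟩, h18⟩, h19⟩ := h
  obtain ⟨N, T, l1T, G, B0⟩ := c
  simp only at *
  have hN' : (0 : ℝ) < N := by exact_mod_cast hN
  have hp1 : 0 < p1 := by omega
  have hp2 : 0 < p2 := by omega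
  have hp1' : (0 : ℝ) < p1 := by exact_mod_cast hp1
  have hp2' : (0 : ℝ) < p2 := by exact_mod_cast hp2
  have hb1' : (0 : ℝ) < b1 := by exact_mod_cast h5
  have hb2' : (0 : ℝ) < b2 := by exact_mod_cast h6
  have h1' : (N : ℝ) < 5 * p1 := by exact_mod_cast h1
  have h3' : (N : ℝ) < 5 * p2 := by exact_mod_cast h3
  have h2' : (p1 : ℝ) < N := by exact_mod_cast h2
  have h4' : (p2 : ℝ) < N := by exact_mod_cast h4
  have k1 := KK_le hN hp1 h2 hT0 hTN h11 hl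
  have k2 := KK_le hN hp2 h4 hT0 hTN h12 hl
  have l1 : Real.log (1 / ((p1 : ℝ) / N)) ≤ (lp1 : ℝ) / N := by
    rw [one_div_div]
    exact log_le_of_le_exp (by positivity) (expL_sound hN hp1 h9)
  have l2 : Real.log (1 / ((p2 : ℝ) / N)) ≤ (lp2 : ℝ) / N := by
    rw [one_div_div]
    exact log_le_of_le_exp (by positivity) (expL_sound hN hp2 h10)
  have x1 := exp_neg_le hN h13 h15
  have x2 := exp_neg_le hN h14 h16
  have h7' : (b1 : ℝ) * ((N - p1 : ℕ) : ℝ) ≤ B0 * p1 * N := by exact_mod_cast h7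
  have h8' : (b2 : ℝ) * ((N - p2 : ℕ) : ℝ) ≤ B0 * p2 * N := by exact_mod_cast h8
  have h17' : (e1 : ℝ) * (N * N * N) + b1 * lp1 * (N * N)
      + b2 * ((p2 * N + ((N - p2 : ℕ) : ℝ) * T) * lth2)
      ≤ A * (N * N * N) + b2 * (((N - p2 : ℕ) : ℝ) * ((N - T : ℕ) : ℝ) * l1T) := by
    exact_mod_cast h17
  have h18' : (e2 : ℝ) * (N * N * N) + b2 * lp2 * (N * N)
      + b1 * ((p1 * N + ((N - p1 : ℕ) : ℝ) * T) * lth1)
      ≤ W * (N * N * N) + b1 * (((N - p1 : ℕ) : ℝ) * ((N - T : ℕ) : ℝ) * l1T) := by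
    exact_mod_cast h18
  have h19' : (v1 : ℝ) + v2 < G := by exact_mod_cast h19
  have y1 : -((A : ℝ) / N) + (b1 : ℝ) / N * Real.log (1 / ((p1 : ℝ) / N))
      + (b2 : ℝ) / N * KK ((p2 : ℝ) / N) ((T : ℝ) / N) ≤ -((e1 : ℝ) / N) := by
    have a1 := mul_le_mul_of_nonneg_left l1 (by positivity : (0 : ℝ) ≤ (b1 : ℝ) / N)
    have a2 := mul_le_mul_of_nonneg_left k2 (by positivity : (0 : ℝ) ≤ (b2 : ℝ) / N)
    refine (add_le_add (add_le_add le_rfl a1) a2).trans ?_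
    have e : -((e1 : ℝ) / N) - (-((A : ℝ) / N) + (b1 : ℝ) / N * ((lp1 : ℝ) / N)
        + (b2 : ℝ) / N * (((p2 * N + ((N - p2 : ℕ) : ℝ) * T) * lth2
          - ((N - p2 : ℕ) : ℝ) * ((N - T : ℕ) : ℝ) * l1T) / (N * N * N)))
        = ((A * (N * N * N) + b2 * (((N - p2 : ℕ) : ℝ) * ((N - T : ℕ) : ℝ) * l1T))
          - (e1 * (N * N * N) + b1 * lp1 * (N * N)
            + b2 * ((p2 * N + ((N - p2 : ℕ) : ℝ) * T) * lth2))) / (N * N * N * N) := by
      field_simp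
      ring
    have e' : 0 ≤ ((A * (N * N * N) + b2 * (((N - p2 : ℕ) : ℝ) * ((N - T : ℕ) : ℝ) * l1T))
          - (e1 * (N * N * N) + b1 * lp1 * (N * N)
            + b2 * ((p2 * N + ((N - p2 : ℕ) : ℝ) * T) * lth2))) / ((N : ℝ) * N * N * N) :=
      div_nonneg (by linarith) (by positivity)
    linarith
  have y2 : -((W : ℝ) / N) + (b2 : ℝ) / N * Real.log (1 / ((p2 : ℝ) / N))
      + (b1 : ℝ) / N * KK ((p1 : ℝ) / N) ((T : ℝ) / N) ≤ -((e2 : ℝ) / N) := by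
    have a1 := mul_le_mul_of_nonneg_left l2 (by positivity : (0 : ℝ) ≤ (b2 : ℝ) / N)
    have a2 := mul_le_mul_of_nonneg_left k1 (by positivity : (0 : ℝ) ≤ (b1 : ℝ) / N)
    refine (add_le_add (add_le_add le_rfl a1) a2).trans ?_
    have e : -((e2 : ℝ) / N) - (-((W : ℝ) / N) + (b2 : ℝ) / N * ((lp2 : ℝ) / N)
        + (b1 : ℝ) / N * (((p1 * N + ((N - p1 : ℕ) : ℝ) * T) * lth1
          - ((N - p1 : ℕ) : ℝ) * ((N - T : ℕ) : ℝ) * l1T) / (N * N * N)))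
        = ((W * (N * N * N) + b1 * (((N - p1 : ℕ) : ℝ) * ((N - T : ℕ) : ℝ) * l1T))
          - (e2 * (N * N * N) + b2 * lp2 * (N * N)
            + b1 * ((p1 * N + ((N - p1 : ℕ) : ℝ) * T) * lth1))) / (N * N * N * N) := by
      field_simp
      ring
    have e' : 0 ≤ ((W * (N * N * N) + b1 * (((N - p1 : ℕ) : ℝ) * ((N - T : ℕ) : ℝ) * l1T))
          - (e2 * (N * N * N) + b2 * lp2 * (N * N)
            + b1 * ((p1 * N + ((N - p1 : ℕ) : ℝ) * T) * lth1))) / ((N : ℝ) * N * N * N) :=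
      div_nonneg (by linarith) (by positivity)
    linarith
  have z1 := (Real.exp_le_exp.mpr y1).trans x1
  have z2 := (Real.exp_le_exp.mpr y2).trans x2
  have hcp1 : ((N - p1 : ℕ) : ℝ) = N - p1 := Nat.cast_sub h2.le
  have hcp2 : ((N - p2 : ℕ) : ℝ) = N - p2 := Nat.cast_sub h4.le
  refine ⟨?_, ?_, ?_, ?_, by positivity, by positivity, by positivity, by positivity, ?_, ?_, ?_⟩
  · rw [lt_div_iff₀ hN']; linarith
  · rw [div_lt_one hN']; exact h2'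
  · rw [lt_div_iff₀ hN']; linarith
  · rw [div_lt_one hN']; exact h4'
  · have e1 : (b1 : ℝ) / N * (1 - (p1 : ℝ) / N) = b1 * ((N - p1 : ℕ) : ℝ) / (N * N) := by
      rw [hcp1]; field_simp
    have e2 : (B0 : ℝ) * ((p1 : ℝ) / N) = (B0 * p1 * N) / (N * N) := by field_simp
    rw [e1, e2]
    exact div_le_div_of_nonneg_right h7' (by positivity)
  · have e1 : (b2 : ℝ) / N * (1 - (p2 : ℝ) / N) = b2 * ((N - p2 : ℕ) : ℝ) / (N * N) := by
      rw [hcp2]; field_simp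
    have e2 : (B0 : ℝ) * ((p2 : ℝ) / N) = (B0 * p2 * N) / (N * N) := by field_simp
    rw [e1, e2]
    exact div_le_div_of_nonneg_right h8' (by positivity)
  · have h20 : (v1 : ℝ) / N + (v2 : ℝ) / N < (G : ℝ) / N := by
      rw [← add_div]; exact div_lt_div_of_pos_right h19' hN'
    linarith

/-- a density cell -/
structure GCell where
  ph : ℕ
  b1 : ℕ
  b2 : ℕ
  A : ℕ
  B : ℕ
  W : ℕ
  A2 : ℕ
  L1 : ℕ × ℕ
  s1 : Bool
  L2 : ℕ × ℕ
  s2 : Bool
  t : ℕ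
  M1 : ℕ × ℕ
  c1 : Bool
  M2 : ℕ × ℕ
  c2 : Bool
  t2 : ℕ
  lp1 : ℕ
  lth1 : ℕ
  lp2 : ℕ
  lth2 : ℕ
  e1 : ℕ
  v1 : ℕ
  e2 : ℕ
  v2 : ℕ

/-- domination check -/
def domchk (N : ℕ) (Ls : List (ℕ × ℕ)) (L1 : ℕ × ℕ) (s1 : Bool) (L2 : ℕ × ℕ) (s2 : Bool)
    (t b A B : ℕ) : Bool :=
  hasL Ls L1 && hasL Ls L2 && decide (t ≤ N) &&
  decide (b * (t * (nsw s1 L1).1 + (N - t) * (nsw s2 L2).1) ≤ A * (N * N)) &&
  decide (b * (t * (nsw s1 L1).2 + (N - t) * (nsw s2 L2).2) ≤ B * (N * N))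

lemma domchk_sound {N : ℕ} {Ls : List (ℕ × ℕ)} {L1 : ℕ × ℕ} {s1 : Bool} {L2 : ℕ × ℕ} {s2 : Bool}
    {t b A B : ℕ} (hN : 0 < N) (h : domchk N Ls L1 s1 L2 s2 t b A B = true) :
    Dom (Ls.map (rl N)) ((b : ℝ) / N) ((A : ℝ) / N) ((B : ℝ) / N) := by
  have hN' : (0 : ℝ) < N := by exact_mod_cast hN
  unfold domchk at h
  simp only [Bool.and_eq_true, decide_eq_true_eq] at h
  obtain ⟨⟨⟨⟨h1, h2⟩, h3⟩, h4⟩, h5⟩ := h
  have hcastt : ((N - t : ℕ) : ℝ) = N - t := Nat.cast_sub h3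
  have htN : (t : ℝ) ≤ N := by exact_mod_cast h3
  refine ⟨rl N L1, List.mem_map_of_mem (hasL_sound h1), rl N L2,
    List.mem_map_of_mem (hasL_sound h2), s1, s2, (t : ℝ) / N, by positivity, ?_, ?_, ?_⟩
  · rw [div_le_one hN']; exact htN
  · rw [← nsw_rl, ← nsw_rl]; unfold rl; simp only
    have h8' : (b : ℝ) * ((t : ℝ) * (nsw s1 L1).1 + ((N - t : ℕ) : ℝ) * (nsw s2 L2).1)
        ≤ A * (N * N) := by exact_mod_cast h4
    rw [hcastt] at h8'
    have e : (b : ℝ) / N * ((t : ℝ) / N * ((nsw s1 L1).1 / N) + (1 - (t : ℝ) / N) * ((nsw s2 L2).1 / N))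
        = (b * ((t : ℝ) * (nsw s1 L1).1 + (N - t) * (nsw s2 L2).1)) / (N * N * N) := by
      field_simp
    have e' : (A : ℝ) / N = (A * (N * N)) / (N * N * N) := by field_simp
    rw [e, e']
    exact div_le_div_of_nonneg_right h8' (by positivity)
  · rw [← nsw_rl, ← nsw_rl]; unfold rl; simp only
    have h8' : (b : ℝ) * ((t : ℝ) * (nsw s1 L1).2 + ((N - t : ℕ) : ℝ) * (nsw s2 L2).2)
        ≤ B * (N * N) := by exact_mod_cast h5
    rw [hcastt] at h8'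
    have e : (b : ℝ) / N * ((t : ℝ) / N * ((nsw s1 L1).2 / N) + (1 - (t : ℝ) / N) * ((nsw s2 L2).2 / N))
        = (b * ((t : ℝ) * (nsw s1 L1).2 + (N - t) * (nsw s2 L2).2)) / (N * N * N) := by
      field_simp
    have e' : (B : ℝ) / N = (B * (N * N)) / (N * N * N) := by field_simp
    rw [e, e']
    exact div_le_div_of_nonneg_right h8' (by positivity)

/-- check of one density cell `[pl, r.ph]` for the line `L` with active cone given by `lo, hi, top` -/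
def cellchk (c : GC) (Ls : List (ℕ × ℕ)) (L lo hi : ℕ × ℕ) (top : Bool) (pl : ℕ) (r : GCell) :
    Bool :=
  decide (0 < pl) && decide (r.ph + 1 < c.N) &&
  pkchk c (pl - 1) (c.N - r.ph - 1) r.b1 r.b2 r.A r.W r.lp1 r.lth1 r.lp2 r.lth2 r.e1 r.v1 r.e2 r.v2 &&
  domchk c.N Ls r.L1 r.s1 r.L2 r.s2 r.t r.b1 r.A r.B &&
  domchk c.N Ls r.M1 r.c1 r.M2 r.c2 r.t2 r.b2 r.A2 r.W &&
  slackChk c.N L lo hi top (((c.N : ℤ) + r.b1 + r.b2) * L.1 - ((r.A : ℤ) + r.A2 + 1) * c.N)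
    (((c.N : ℤ) + r.b1 + r.b2) * L.2 - ((r.W : ℤ) + r.B) * c.N)

theorem cellchk_sound {c : GC} {T g0 a b d e dl : ℝ} (hT : TBookThm) (hcert : CertOK T g0 a b d e dl)
    (hcT : (c.T : ℝ) / c.N = T) (hc : GCOK c g0 dl) {Ls : List (ℕ × ℕ)} {L lo hi : ℕ × ℕ}
    {top : Bool} (hlo : lo ∈ Ls) (hhi : top = false → hi ∈ Ls) {pl : ℕ} {r : GCell}
    (h : cellchk c Ls L lo hi top pl r = true) :
    CellOK (Ls.map (rl c.N)) (rl c.N L) (1 / c.N) ((pl : ℝ) / c.N) ((r.ph : ℝ) / c.N) := by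
  have hN := hc.hN
  have hN' : (0 : ℝ) < c.N := by exact_mod_cast hN
  unfold cellchk at h
  simp only [Bool.and_eq_true, decide_eq_true_eq] at h
  obtain ⟨⟨⟨⟨⟨h1, h2⟩, h3⟩, h4⟩, h5⟩, h6⟩ := h
  have hPK := pkchk_sound hc h3
  rw [hcT] at hPK
  have hTB := hT _ _ _ _ _ _ _ _ _ _ _ _ _ _ hcert hPK
  refine ⟨_, _, _, _, (r.A : ℝ) / c.N, (r.B : ℝ) / c.N, (r.W : ℝ) / c.N, (r.A2 : ℝ) / c.N,
    hPK.hb1, hPK.hb2, ?_, ?_, hTB, domchk_sound hN h4, domchk_sound hN h5, ?_⟩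
  · apply div_lt_div_of_pos_right _ hN'
    exact_mod_cast (by omega : pl - 1 < pl)
  · have e : ((c.N - r.ph - 1 : ℕ) : ℝ) = c.N - r.ph - 1 := by
      rw [Nat.cast_sub (by omega), Nat.cast_sub (by omega)]; simp
    rw [e, div_lt_iff₀ hN', sub_mul, div_mul_cancel₀ _ hN'.ne']
    linarith
  · intro k l hlk hact
    have hs := slackChk_sound hN h6 k l hlk (hact _ (List.mem_map_of_mem hlo))
      (fun ht => hact _ (List.mem_map_of_mem (hhi ht)))
    push_cast at hs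
    unfold rl lv
    simp only
    have e3 : (1 + (r.b1 : ℝ) / c.N + (r.b2 : ℝ) / c.N) * ((L.1 : ℝ) / c.N * k + (L.2 : ℝ) / c.N * l)
        - (((r.A : ℝ) / c.N + (r.A2 : ℝ) / c.N) * k + ((r.W : ℝ) / c.N + (r.B : ℝ) / c.N) * l
          + 1 / c.N * k)
        = ((((c.N : ℝ) + r.b1 + r.b2) * L.1 - (r.A + r.A2 + 1) * c.N) * k
          + (((c.N : ℝ) + r.b1 + r.b2) * L.2 - (r.W + r.B) * c.N) * l) / (c.N * c.N) := by
      field_simp
      ring
    have e4 : 0 ≤ ((((c.N : ℝ) + r.b1 + r.b2) * L.1 - (r.A + r.A2 + 1) * c.N) * k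
          + (((c.N : ℝ) + r.b1 + r.b2) * L.2 - (r.W + r.B) * c.N) * l) / (c.N * c.N) :=
      div_nonneg hs (by positivity)
    linarith

/-- check of a list of consecutive cells; `X` is the first coordinate of the line -/
def cellschk (c : GC) (Ls : List (ℕ × ℕ)) (L lo hi : ℕ × ℕ) (top : Bool) :
    ℕ → List GCell → Bool
  | pl, [] => decide (1 < pl) && expL c.N L.1 c.N (pl - 1)
  | pl, r :: rs => cellchk c Ls L lo hi top pl r && cellschk c Ls L lo hi top r.ph rs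

lemma cellschk_sound {c : GC} {T g0 a b d e dl : ℝ} (hT : TBookThm)
    (hcert : CertOK T g0 a b d e dl) (hcT : (c.T : ℝ) / c.N = T) (hc : GCOK c g0 dl)
    {Ls : List (ℕ × ℕ)} {L lo hi : ℕ × ℕ} {top : Bool} (hlo : lo ∈ Ls)
    (hhi : top = false → hi ∈ Ls) : ∀ (rs : List GCell) (pl : ℕ),
    cellschk c Ls L lo hi top pl rs = true →
    ∃ (J : ℕ) (p : ℕ → ℝ), p 0 = (pl : ℝ) / c.N ∧ Real.exp (-(rl c.N L).1) < p J ∧
      ∀ j < J, CellOK (Ls.map (rl c.N)) (rl c.N L) (1 / c.N) (p j) (p (j + 1)) := by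
  have hN := hc.hN
  have hN' : (0 : ℝ) < c.N := by exact_mod_cast hN
  intro rs
  induction rs with
  | nil =>
    intro pl h
    unfold cellschk at h
    simp only [Bool.and_eq_true, decide_eq_true_eq] at h
    refine ⟨0, fun _ => (pl : ℝ) / c.N, rfl, ?_, fun j hj => absurd hj (by omega)⟩
    have h2 := exp_neg_le hN (by omega : 0 < pl - 1) h.2
    refine lt_of_le_of_lt h2 ?_
    apply div_lt_div_of_pos_right _ hN'
    exact_mod_cast (by omega : pl - 1 < pl)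
  | cons r rs ih =>
    intro pl h
    unfold cellschk at h
    simp only [Bool.and_eq_true] at h
    obtain ⟨h1, h2⟩ := h
    obtain ⟨J, p, hp0, hpJ, hp⟩ := ih r.ph h2
    refine ⟨J + 1, fun j => Nat.casesOn j ((pl : ℝ) / c.N) p, rfl, hpJ, ?_⟩
    intro j hj
    cases j with
    | zero =>
      have := cellchk_sound hT hcert hcT hc hlo hhi h1
      show CellOK (Ls.map (rl c.N)) (rl c.N L) (1 / c.N) ((pl : ℝ) / c.N) (p 0)
      rw [hp0]
      exact this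
    | succ i => exact hp i (by omega)

/-- a row: a new line with its data -/
structure GRow where
  L : ℕ × ℕ
  lo : ℕ × ℕ
  hi : ℕ × ℕ
  top : Bool
  p0 : ℕ
  cells : List GCell

def growchk (c : GC) (Ls : List (ℕ × ℕ)) (r : GRow) : Bool :=
  decide (0 < r.L.1) && decide (r.L.1 ≤ r.L.2) && hasL Ls r.lo && (r.top || hasL Ls r.hi) &&
  decide (r.p0 + 1 < c.N) && expL c.N r.L.2 c.N (c.N - r.p0 - 1) &&
  cellschk c Ls r.L r.lo r.hi r.top r.p0 r.cells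

theorem growchk_sound {c : GC} {T g0 a b d e dl : ℝ} (hT : TBookThm)
    (hcert : CertOK T g0 a b d e dl) (hcT : (c.T : ℝ) / c.N = T) (hc : GCOK c g0 dl)
    {Ls : List (ℕ × ℕ)} (hLs : ∀ L ∈ Ls, L.1 ≤ L.2) {r : GRow} (hr : r.L ∈ Ls)
    (h : growchk c Ls r = true) : StepOK (Ls.map (rl c.N)) (rl c.N r.L) := by
  have hN := hc.hN
  have hN' : (0 : ℝ) < c.N := by exact_mod_cast hN
  unfold growchk at h
  simp only [Bool.and_eq_true, decide_eq_true_eq] at h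
  obtain ⟨⟨⟨⟨⟨⟨h1, h2⟩, h3⟩, h4⟩, h5⟩, h6⟩, h7⟩ := h
  have hle : ∀ L' ∈ Ls.map (rl c.N), L'.1 ≤ L'.2 := by
    intro L' hL'
    obtain ⟨L, hL, rfl⟩ := List.mem_map.mp hL'
    unfold rl
    simp only
    rw [div_le_div_iff_of_pos_right hN']
    exact_mod_cast hLs L hL
  have hL1 : 0 < (rl c.N r.L).1 := by
    unfold rl; simp only
    have : (0 : ℝ) < r.L.1 := by exact_mod_cast h1
    positivity
  have hL2 : 0 < (rl c.N r.L).2 := by
    unfold rl; simp only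
    have h0 : (0 : ℝ) < r.L.1 := by exact_mod_cast h1
    have : (r.L.1 : ℝ) ≤ r.L.2 := by exact_mod_cast h2
    have : (0 : ℝ) < r.L.2 := by linarith
    positivity
  obtain ⟨J, p, hp0, hpJ, hp⟩ := cellschk_sound hT hcert hcT hc (hasL_sound h3) (by
    intro htop
    rw [htop] at h4
    simp only [Bool.false_or] at h4
    exact hasL_sound h4) r.cells r.p0 h7
  refine step_cells _ hle (rl c.N r.L) (List.mem_map_of_mem hr) hL1 hL2 (1 / c.N) (by positivity)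
    J p ?_ hpJ hp
  rw [hp0]
  have h8 := exp_neg_le hN (by omega : 0 < c.N - r.p0 - 1) h6
  have hcst : ((c.N - r.p0 - 1 : ℕ) : ℝ) = c.N - r.p0 - 1 := by
    rw [Nat.cast_sub (by omega), Nat.cast_sub (by omega)]; simp
  have h9 : Real.exp (-(rl c.N r.L).2) ≤ ((c.N - r.p0 - 1 : ℕ) : ℝ) / c.N := h8
  rw [hcst] at h9
  have h10 : ((c.N : ℝ) - r.p0 - 1) / c.N = 1 - (r.p0 : ℝ) / c.N - 1 / c.N := by
    field_simp
  rw [h10] at h9
  have : 0 < 1 / (c.N : ℝ) := by positivity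
  linarith

/-- **Bound from a certificate on top of a black-box family.** -/
theorem cert_bound3 {c : GC} {T g0 a b d e dl : ℝ} (hT : TBookThm)
    (hcert : CertOK T g0 a b d e dl) (hcT : (c.T : ℝ) / c.N = T) (hc : GCOK c g0 dl)
    (Old : List (ℕ × ℕ)) (rows : List GRow) (C0 : ℝ)
    (hOld : ∀ k l : ℕ, BdAt (Old.map (rl c.N)) C0 k l)
    (hOle : Old.all (fun L => decide (L.1 ≤ L.2)) = true) (hne : rows ≠ [])
    (hrows : rows.all (growchk c (Old ++ rows.map GRow.L)) = true) :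
    ∃ C : ℝ, 1 ≤ C ∧ ∀ k l : ℕ, BdAt ((Old ++ rows.map GRow.L).map (rl c.N)) C k l := by
  have hN := hc.hN
  have hN' : (0 : ℝ) < c.N := by exact_mod_cast hN
  set Ls := Old ++ rows.map GRow.L with hLs
  have hle : ∀ L ∈ Ls, L.1 ≤ L.2 := by
    intro L hL
    rw [hLs, List.mem_append] at hL
    rcases hL with hL | hL
    · have := List.all_eq_true.mp hOle L hL
      simpa using this
    · obtain ⟨r, hr, rfl⟩ := List.mem_map.mp hL
      have h := List.all_eq_true.mp hrows r hr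
      unfold growchk at h
      simp only [Bool.and_eq_true, decide_eq_true_eq] at h
      exact h.1.1.1.1.1.2
  apply main_induction_C C0
  · rw [hLs]
    cases rows with
    | nil => exact absurd rfl hne
    | cons r rows => simp
  · intro L hL
    obtain ⟨L', hL', rfl⟩ := List.mem_map.mp hL
    unfold rl
    simp only
    refine ⟨by positivity, ?_⟩
    rw [div_le_div_iff_of_pos_right hN']
    exact_mod_cast hle L' hL'
  · intro L hL
    obtain ⟨L', hL', rfl⟩ := List.mem_map.mp hL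
    have hL2 := hL'
    rw [hLs, List.mem_append] at hL2
    rcases hL2 with h | h
    · exact StepC.of_bd hOld (List.mem_map_of_mem h)
    · obtain ⟨r, hr, rfl⟩ := List.mem_map.mp h
      exact StepC.of_stepOK C0 (growchk_sound hT hcert hcT hc hle hL' (List.all_eq_true.mp hrows r hr))

end W478R
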