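import Pool.Agent.W478R.Defs
import Pool.Agent.H110R2.StepJ

/-!
# Global induction step from the two-reservoir book theorem

`step_cells`: a line `L` satisfies `StepOK` if the interval `[1 - e^{-L.2}, e^{-L.1}]` of red
densities is covered by finitely many cells, each of which is won by `TBook`.
-/

open Finset

namespace W478R

open H110R2

/-- `(A, B)` dominates `b` times a convex combination of two (possibly swapped) lines of `Ls` -/
def Dom (Ls : List (ℝ × ℝ)) (b A B : ℝ) : Prop :=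
  ∃ L1 ∈ Ls, ∃ L2 ∈ Ls, ∃ (s1 s2 : Bool) (t : ℝ), 0 ≤ t ∧ t ≤ 1 ∧
    b * (t * (sw s1 L1).1 + (1 - t) * (sw s2 L2).1) ≤ A ∧
    b * (t * (sw s1 L1).2 + (1 - t) * (sw s2 L2).2) ≤ B

/-- Data winning the cell `[plo, phi]` for the line `L`. -/
def CellOK (Ls : List (ℝ × ℝ)) (L : ℝ × ℝ) (σ plo phi : ℝ) : Prop :=
  ∃ p1 p2 b1 b2 A B W A2 : ℝ, 0 < b1 ∧ 0 < b2 ∧ p1 < plo ∧ p2 < 1 - phi ∧
    TBook p1 p2 b1 b2 A W ∧ Dom Ls b1 A B ∧ Dom Ls b2 A2 W ∧
    ∀ k l : ℕ, l ≤ k → (∀ L' ∈ Ls, lv L k l ≤ lv L' k l) →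
      (A + A2) * k + (W + B) * l + σ * k ≤ (1 + b1 + b2) * lv L k l

/-- The reservoir bound obtained from the family. -/
lemma res_bound {Ls : List (ℝ × ℝ)} {b A B : ℝ} (hb : 0 < b) (hD : Dom Ls b A B) {C Λ : ℝ}
    (hC : 1 ≤ C) {a l : ℕ} {V : Type} [DecidableEq V] (G : SimpleGraph V) (Z U : Finset V)
    (hZU : Z ⊆ U) (hZ : Z.Nonempty) (hZa : NoCl G a Z) (hZl : NoCl Gᶜ l Z)
    (hU : (U.card : ℝ) ≤ 2 * (C * Real.exp Λ))
    (h : BdAt Ls C a l ∨ ∀ L1 ∈ Ls, ∀ s : Bool, Λ ≤ lv (sw s L1) a l) :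
    b * Real.log Z.card ≤ b * Real.log (2 * C) + A * a + B * l := by
  obtain ⟨L1, h1, L2, h2, s1, s2, t, ht0, ht1, hA, hB⟩ := hD
  have hC0 : 0 < C := by linarith
  have hZpos : (0 : ℝ) < Z.card := by exact_mod_cast hZ.card_pos
  have hA' : t * (sw s1 L1).1 + (1 - t) * (sw s2 L2).1 ≤ A / b := by
    rw [le_div_iff₀ hb]; linarith
  have hB' : t * (sw s1 L1).2 + (1 - t) * (sw s2 L2).2 ≤ B / b := by
    rw [le_div_iff₀ hb]; linarith
  have key : (Z.card : ℝ) ≤ 2 * C * Real.exp (A / b * a + B / b * l) := by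
    rcases h with h | h
    · have := free_bound hC0 h G Z hZa hZl h1 h2 s1 s2 ht0 ht1 hA' hB'
      have h0 : 0 < Real.exp (A / b * a + B / b * l) := Real.exp_pos _
      nlinarith
    · have e1 : (Z.card : ℝ) ≤ U.card := by exact_mod_cast card_le_card hZU
      have key : t * lv (sw s1 L1) a l + (1 - t) * lv (sw s2 L2) a l ≤ A / b * a + B / b * l := by
        unfold lv
        have ha' : (0 : ℝ) ≤ a := Nat.cast_nonneg _
        have hb' : (0 : ℝ) ≤ l := Nat.cast_nonneg _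
        nlinarith [mul_le_mul_of_nonneg_right hA' ha', mul_le_mul_of_nonneg_right hB' hb']
      have e2 : Λ ≤ A / b * a + B / b * l := by
        rcases conv_min ht0 ht1 key with hc | hc
        · exact (h L1 h1 s1).trans hc
        · exact (h L2 h2 s2).trans hc
      have e3 : Real.exp Λ ≤ Real.exp (A / b * a + B / b * l) := Real.exp_le_exp.mpr e2
      have e4 : C * Real.exp Λ ≤ C * Real.exp (A / b * a + B / b * l) :=
        mul_le_mul_of_nonneg_left e3 hC0.le
      linarith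
  have h3 : Real.log Z.card ≤ Real.log (2 * C) + (A / b * a + B / b * l) := by
    have := Real.log_le_log hZpos key
    rwa [Real.log_mul (by positivity) (Real.exp_pos _).ne', Real.log_exp] at this
  have h4 := mul_le_mul_of_nonneg_left h3 hb.le
  have e : b * (Real.log (2 * C) + (A / b * a + B / b * l))
      = b * Real.log (2 * C) + A * a + B * l := by
    field_simp
    ring
  linarith

/-- Win in one cell. -/
theorem win_cell {Ls : List (ℝ × ℝ)} {L : ℝ × ℝ} (hLs : ∀ L' ∈ Ls, L'.1 ≤ L'.2) {σ plo phi : ℝ}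
    (hσ : 0 < σ) (hP : 0 < L.1) (hQ : 0 < L.2) (J : ℕ) (hJ : 0 < J)
    (hcell : CellOK Ls L σ plo phi) :
    ∃ k0 : ℕ, ∀ C : ℝ, 1 ≤ C → ∀ k l : ℕ, k0 ≤ k → l ≤ k →
    (∀ L' ∈ Ls, lv L k l ≤ lv L' k l) →
    (∀ a b : ℕ, a + b < k + l → BdAt Ls C a b) →
    ∀ (V : Type) [DecidableEq V] (G : SimpleGraph V) (U X : Finset V),
      NoCl G k U → NoCl Gᶜ l U → C * Real.exp (lv L k l) < U.card →
      (U.card : ℝ) ≤ 2 * (C * Real.exp (lv L k l)) → X ⊆ U → (U.card : ℝ) ≤ J * X.card →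
      (∀ x ∈ X, plo * U.card - 1 ≤ ((nb G x U).card : ℝ)) →
      (∀ x ∈ X, (1 - phi) * U.card - 1 ≤ ((nb Gᶜ x U).card : ℝ)) → False := by
  obtain ⟨p1, p2, b1, b2, A, B, W, A2, hb1, hb2, hp1, hp2, hTB, hD1, hD2, hslack⟩ := hcell
  set δ : ℝ := min (plo - p1) (1 - phi - p2) / 2 with hδ
  have hδ0 : 0 < δ := by
    rw [hδ]
    have : 0 < min (plo - p1) (1 - phi - p2) := lt_min (by linarith) (by linarith)
    linarith
  have hδ1 : p1 + δ + δ ≤ plo := by
    have := min_le_left (plo - p1) (1 - phi - p2)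
    rw [hδ]; linarith
  have hδ2 : p2 + δ + δ ≤ 1 - phi := by
    have := min_le_right (plo - p1) (1 - phi - p2)
    rw [hδ]; linarith
  obtain ⟨c, hc⟩ := hTB δ hδ0
  obtain ⟨k1, hk1⟩ := eventually_lin σ (c + Real.log J + (b1 + b2) * Real.log 2) 0 hσ
  obtain ⟨k2, hk2⟩ := trunc_big L.1 δ hP hδ0
  refine ⟨max k1 k2, ?_⟩
  intro C hC k l hk hlk hact IH V _ G U X hUk hUl hU1 hU2 hXU hXc hred hblue
  have hkk1 : k1 ≤ k := le_trans (le_max_left _ _) hk
  have hkk2 : k2 ≤ k := le_trans (le_max_right _ _) hk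
  have hC0 : 0 < C := by linarith
  have hE0 : 0 < Real.exp (lv L k l) := Real.exp_pos _
  have hUpos : (0 : ℝ) < U.card := lt_trans (by positivity) hU1
  have hUne : U.Nonempty := by rw [← Finset.card_pos]; exact_mod_cast hUpos
  have hJ' : (0 : ℝ) < J := by exact_mod_cast hJ
  have hXpos : (0 : ℝ) < X.card := by
    by_contra hcon
    have : (X.card : ℝ) ≤ 0 := not_lt.mp hcon
    nlinarith
  have hXne : X.Nonempty := by rw [← Finset.card_pos]; exact_mod_cast hXpos
  have hUbig : 1 ≤ δ * U.card := by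
    have h3 := hk2 k hkk2 (lv L k l) C (by
      unfold lv
      have : 0 ≤ L.2 * (l : ℝ) := by positivity
      linarith) hC
    have h4 : δ * (C * Real.exp (lv L k l)) ≤ δ * U.card := mul_le_mul_of_nonneg_left hU1.le hδ0.le
    linarith
  have hXU' : X ∪ U = U := Finset.union_eq_right.mpr hXU
  have hfin := hc V G k l (b1 * Real.log (2 * C) + B * l) (b2 * Real.log (2 * C) + A2 * k) X U U
    hXne hUne hUne (by rw [hXU']; exact hUk) (by rw [hXU']; exact hUl)
    (by
      intro a ha Z hZU hZ hZa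
      have := res_bound hb1 hD1 hC G Z U hZU hZ hZa (hUl.mono hZU) hU2 (by
        rcases lt_or_eq_of_le ha with hlt | rfl
        · exact Or.inl (IH a l (by omega))
        · exact Or.inr (fun L1 h1 s => lv_sw_le hLs hlk hact h1 s))
      linarith)
    (by
      intro t ht Z hZU hZ hZt
      have := res_bound hb2 hD2 hC G Z U hZU hZ (hUk.mono hZU) hZt hU2 (by
        rcases lt_or_eq_of_le ht with hlt | rfl
        · exact Or.inl (IH k t (by omega))
        · exact Or.inr (fun L1 h1 s => lv_sw_le hLs hlk hact h1 s))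
      linarith)
    (by
      intro x hx
      have h1 := hred x hx
      have h2 : (p1 + δ) * U.card + δ * U.card ≤ plo * U.card := by
        have := mul_le_mul_of_nonneg_right hδ1 hUpos.le
        linarith
      linarith)
    (by
      intro x hx
      have h1 := hblue x hx
      have h2 : (p2 + δ) * U.card + δ * U.card ≤ (1 - phi) * U.card := by
        have := mul_le_mul_of_nonneg_right hδ2 hUpos.le
        linarith
      linarith)
  have hlogU : Real.log C + lv L k l ≤ Real.log U.card := by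
    have : Real.log (C * Real.exp (lv L k l)) = Real.log C + lv L k l := by
      rw [Real.log_mul hC0.ne' hE0.ne', Real.log_exp]
    rw [← this]
    exact Real.log_le_log (by positivity) hU1.le
  have hlogX : Real.log U.card ≤ Real.log J + Real.log X.card := by
    rw [← Real.log_mul hJ'.ne' hXpos.ne']
    exact Real.log_le_log hUpos hXc
  have hlogC : 0 ≤ Real.log C := Real.log_nonneg hC
  have h2C : Real.log (2 * C) = Real.log 2 + Real.log C := Real.log_mul (by norm_num) hC0.ne'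
  have hev := hk1 k hkk1
  have hsl := hslack k l hlk hact
  rw [h2C] at hfin
  have e1 : b1 * (Real.log C + lv L k l) ≤ b1 * Real.log U.card :=
    mul_le_mul_of_nonneg_left hlogU hb1.le
  have e2 : b2 * (Real.log C + lv L k l) ≤ b2 * Real.log U.card :=
    mul_le_mul_of_nonneg_left hlogU hb2.le
  nlinarith

/-- pigeonhole for cells of a partition of an interval -/
lemma exists_cell (J : ℕ) (p : ℕ → ℝ) (r : ℝ) (h0 : p 0 ≤ r) (hJ : r ≤ p J) :
    J = 0 ∨ ∃ j < J, p j ≤ r ∧ r ≤ p (j + 1) := by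
  induction J with
  | zero => exact Or.inl rfl
  | succ J ih =>
    right
    by_cases h : r ≤ p J
    · rcases ih h with rfl | ⟨j, hj, h1, h2⟩
      · exact ⟨0, by omega, h0, by
          have : r = p 0 := le_antisymm h h0
          simpa using hJ⟩
      · exact ⟨j, by omega, h1, h2⟩
    · exact ⟨J, by omega, (not_le.mp h).le, hJ⟩

/-- **Step by cells.** -/
theorem step_cells (Ls : List (ℝ × ℝ)) (hLs : ∀ L' ∈ Ls, L'.1 ≤ L'.2) (L : ℝ × ℝ) (hL : L ∈ Ls)
    (hP : 0 < L.1) (hQ : 0 < L.2) (σ : ℝ) (hσ : 0 < σ) (J : ℕ) (p : ℕ → ℝ)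
    (h0 : p 0 < 1 - Real.exp (-L.2)) (hpJ : Real.exp (-L.1) < p J)
    (hcell : ∀ j < J, CellOK Ls L σ (p j) (p (j + 1))) :
    StepOK Ls L := by
  classical
  -- common threshold
  have hthr : ∃ K : ℕ, ∀ j < J, ∀ C : ℝ, 1 ≤ C → ∀ k l : ℕ, K ≤ k → l ≤ k →
    (∀ L' ∈ Ls, lv L k l ≤ lv L' k l) →
    (∀ a b : ℕ, a + b < k + l → BdAt Ls C a b) →
    ∀ (V : Type) [DecidableEq V] (G : SimpleGraph V) (U X : Finset V),
      NoCl G k U → NoCl Gᶜ l U → C * Real.exp (lv L k l) < U.card →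
      (U.card : ℝ) ≤ 2 * (C * Real.exp (lv L k l)) → X ⊆ U → (U.card : ℝ) ≤ J * X.card →
      (∀ x ∈ X, p j * U.card - 1 ≤ ((nb G x U).card : ℝ)) →
      (∀ x ∈ X, (1 - p (j + 1)) * U.card - 1 ≤ ((nb Gᶜ x U).card : ℝ)) → False := by
    rcases Nat.eq_zero_or_pos J with rfl | hJ
    · exact ⟨0, fun j hj => absurd hj (by omega)⟩
    have hw : ∀ j : ℕ, ∃ k0 : ℕ, j < J → ∀ C : ℝ, 1 ≤ C → ∀ k l : ℕ, k0 ≤ k → l ≤ k →
      (∀ L' ∈ Ls, lv L k l ≤ lv L' k l) →
      (∀ a b : ℕ, a + b < k + l → BdAt Ls C a b) →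
      ∀ (V : Type) [DecidableEq V] (G : SimpleGraph V) (U X : Finset V),
        NoCl G k U → NoCl Gᶜ l U → C * Real.exp (lv L k l) < U.card →
        (U.card : ℝ) ≤ 2 * (C * Real.exp (lv L k l)) → X ⊆ U → (U.card : ℝ) ≤ J * X.card →
        (∀ x ∈ X, p j * U.card - 1 ≤ ((nb G x U).card : ℝ)) →
        (∀ x ∈ X, (1 - p (j + 1)) * U.card - 1 ≤ ((nb Gᶜ x U).card : ℝ)) → False := by
      intro j
      by_cases hj : j < J
      · obtain ⟨k0, hk0⟩ := win_cell hLs hσ hP hQ J hJ (hcell j hj)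
        exact ⟨k0, fun _ => hk0⟩
      · exact ⟨0, fun h => absurd h hj⟩
    choose K hK using hw
    refine ⟨(Finset.range J).sup K, fun j hj C hC k l hk => ?_⟩
    exact hK j hj C hC k l (le_trans (Finset.le_sup (Finset.mem_range.mpr hj)) hk)
  obtain ⟨K, hK⟩ := hthr
  set δ : ℝ := min (1 - Real.exp (-L.2) - p 0) (p J - Real.exp (-L.1)) with hδ
  have hδ0 : 0 < δ := lt_min (by linarith) (by linarith)
  obtain ⟨k2, hk2⟩ := trunc_big L.1 δ hP hδ0
  refine ⟨max K (max k2 1), ?_⟩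
  intro C hC k l hk hlk hact IH V _ G S hSk hSl
  by_contra hcon
  push Not at hcon
  have hkK : K ≤ k := le_trans (le_max_left _ _) hk
  have hkk2 : k2 ≤ k := le_trans (le_trans (le_max_left _ _) (le_max_right _ _)) hk
  have hk1 : 1 ≤ k := le_trans (le_trans (le_max_right _ _) (le_max_right _ _)) hk
  have hC0 : 0 < C := by linarith
  rcases l with _ | l
  · exact not_noCl_zero _ _ hSl
  obtain ⟨k, rfl⟩ : ∃ k', k = k' + 1 := ⟨k - 1, by omega⟩
  set Λ : ℝ := lv L ((k + 1 : ℕ) : ℝ) ((l + 1 : ℕ) : ℝ) with hΛ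
  have hlv : L.1 * ((k + 1 : ℕ) : ℝ) ≤ Λ := by
    rw [hΛ]; unfold lv
    have : 0 ≤ L.2 * ((l + 1 : ℕ) : ℝ) := by positivity
    linarith
  have hk0 : (0 : ℝ) ≤ L.1 * ((k + 1 : ℕ) : ℝ) := by positivity
  have hE1 : 1 ≤ Real.exp Λ := Real.one_le_exp (by linarith)
  have hT : 1 ≤ C * Real.exp Λ := by nlinarith
  obtain ⟨U, hUS, hU1, hU2⟩ := exists_trunc S (C * Real.exp Λ) hT hcon
  have hUpos : (0 : ℝ) < U.card := by linarith
  have hUk : NoCl G (k + 1) U := hSk.mono hUS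
  have hUl : NoCl Gᶜ (l + 1) U := hSl.mono hUS
  have hUbig : 1 ≤ δ * U.card := by
    have h3 := hk2 (k + 1) hkk2 Λ C hlv hC
    have h4 : δ * (C * Real.exp Λ) ≤ δ * U.card := mul_le_mul_of_nonneg_left hU1.le hδ0.le
    linarith
  have hsum : ∀ x ∈ U, ((nb G x U).card : ℝ) + (nb Gᶜ x U).card + 1 = U.card := by
    intro x hx
    exact_mod_cast card_nb_add G hx
  -- blue degrees
  have hblue : ∀ x ∈ U, ((nb Gᶜ x U).card : ℝ) ≤ Real.exp (-L.2) * U.card := by
    intro x hx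
    have hb := (IH (k + 1) l (by omega) V G (nb Gᶜ x U) (hUk.mono (nb_subset _ _ _))
      (hUl.step hx (nb_subset _ _ _) (fun w hw => (mem_nb.mp hw).2)) L hL).1
    have e : Real.exp (lv L ((k + 1 : ℕ) : ℝ) l) = Real.exp (-L.2) * Real.exp Λ := by
      rw [hΛ, ← Real.exp_add]; congr 1; unfold lv; push_cast; ring
    rw [e] at hb
    have : Real.exp (-L.2) * (C * Real.exp Λ) ≤ Real.exp (-L.2) * U.card :=
      mul_le_mul_of_nonneg_left hU1.le (Real.exp_pos _).le
    linarith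
  -- red degrees
  have hred : ∀ x ∈ U, ((nb G x U).card : ℝ) ≤ Real.exp (-L.1) * U.card := by
    intro x hx
    have hb := (IH k (l + 1) (by omega) V G (nb G x U)
      (hUk.step hx (nb_subset _ _ _) (fun w hw => (mem_nb.mp hw).2)) (hUl.mono (nb_subset _ _ _))
      L hL).1
    have e : Real.exp (lv L k ((l + 1 : ℕ) : ℝ)) = Real.exp (-L.1) * Real.exp Λ := by
      rw [hΛ, ← Real.exp_add]; congr 1; unfold lv; push_cast; ring
    rw [e] at hb
    have : Real.exp (-L.1) * (C * Real.exp Λ) ≤ Real.exp (-L.1) * U.card :=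
      mul_le_mul_of_nonneg_left hU1.le (Real.exp_pos _).le
    linarith
  -- cells
  let rd : V → ℝ := fun x => ((nb G x U).card : ℝ) / U.card
  have hrd0 : ∀ x ∈ U, p 0 ≤ rd x := by
    intro x hx
    have h1 := hsum x hx
    have h2 := hblue x hx
    show p 0 ≤ ((nb G x U).card : ℝ) / U.card
    rw [le_div_iff₀ hUpos]
    have h3 : δ * U.card ≤ (1 - Real.exp (-L.2) - p 0) * U.card :=
      mul_le_mul_of_nonneg_right (min_le_left _ _) hUpos.le
    linarith
  have hrdJ : ∀ x ∈ U, rd x ≤ p J := by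
    intro x hx
    have h2 := hred x hx
    show ((nb G x U).card : ℝ) / U.card ≤ p J
    rw [div_le_iff₀ hUpos]
    have h3 : Real.exp (-L.1) * U.card ≤ p J * U.card :=
      mul_le_mul_of_nonneg_right hpJ.le hUpos.le
    linarith
  have hJ0 : J ≠ 0 := by
    rintro rfl
    have hUne : U.Nonempty := by rw [← Finset.card_pos]; exact_mod_cast hUpos
    obtain ⟨x, hx⟩ := hUne
    have h1 := hsum x hx
    have h2 := hblue x hx
    have h3 := hred x hx
    have h4 : δ * U.card ≤ (1 - Real.exp (-L.2) - p 0) * U.card :=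
      mul_le_mul_of_nonneg_right (min_le_left _ _) hUpos.le
    have h5 : Real.exp (-L.1) * U.card < p 0 * U.card := mul_lt_mul_of_pos_right hpJ hUpos
    linarith
  have hcov : ∀ x ∈ U, ∃ j ∈ Finset.range J, p j ≤ rd x ∧ rd x ≤ p (j + 1) := by
    intro x hx
    rcases exists_cell J p (rd x) (hrd0 x hx) (hrdJ x hx) with h | ⟨j, hj, h1, h2⟩
    · exact absurd h hJ0
    · exact ⟨j, Finset.mem_range.mpr hj, h1, h2⟩
  have hU' : U ⊆ (Finset.range J).biUnion (fun j => U.filter (fun x => p j ≤ rd x ∧ rd x ≤ p (j + 1))) := by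
    intro x hx
    obtain ⟨j, hj, h⟩ := hcov x hx
    exact Finset.mem_biUnion.mpr ⟨j, hj, Finset.mem_filter.mpr ⟨hx, h⟩⟩
  have hcard : U.card ≤ ∑ j ∈ Finset.range J,
      (U.filter (fun x => p j ≤ rd x ∧ rd x ≤ p (j + 1))).card :=
    (Finset.card_le_card hU').trans Finset.card_biUnion_le
  obtain ⟨j, hj, hjc⟩ : ∃ j ∈ Finset.range J,
      U.card ≤ J * (U.filter (fun x => p j ≤ rd x ∧ rd x ≤ p (j + 1))).card := by
    by_contra hno
    push Not at hno
    have h1 : J * ∑ j ∈ Finset.range J, (U.filter (fun x => p j ≤ rd x ∧ rd x ≤ p (j + 1))).card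
        < ∑ j ∈ Finset.range J, U.card := by
      rw [Finset.mul_sum]
      exact Finset.sum_lt_sum_of_nonempty (Finset.nonempty_range_iff.mpr hJ0) hno
    rw [Finset.sum_const, Finset.card_range, smul_eq_mul] at h1
    have h2 := Nat.mul_le_mul_left J hcard
    omega
  refine hK j (Finset.mem_range.mp hj) C hC (k + 1) (l + 1) hkK hlk hact IH V G U
    (U.filter (fun x => p j ≤ rd x ∧ rd x ≤ p (j + 1))) hUk hUl hU1 hU2
    (Finset.filter_subset _ _) (by exact_mod_cast hjc) ?_ ?_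
  · intro x hx
    obtain ⟨hxU, h1, _⟩ := Finset.mem_filter.mp hx
    have h1' : p j ≤ ((nb G x U).card : ℝ) / U.card := h1
    rw [le_div_iff₀ hUpos] at h1'
    linarith
  · intro x hx
    obtain ⟨hxU, _, h2⟩ := Finset.mem_filter.mp hx
    have h2' : ((nb G x U).card : ℝ) / U.card ≤ p (j + 1) := h2
    rw [div_le_iff₀ hUpos] at h2'
    have := hsum x hxU
    linarith

end W478R
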