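import Pool.Agent.W478R.Global

/-!
# Main induction with a black-box family

`StepC C0 Ls L`: the induction step for `L`, for constants `C ≥ C0` only. Lines of a family whose
bounds are already known with constant `C0` satisfy it for free.
-/

open Finset

namespace W478R

open H110R2

/-- One induction step for a line `L`, constants at least `C0`. -/
def StepC (C0 : ℝ) (Ls : List (ℝ × ℝ)) (L : ℝ × ℝ) : Prop :=
  ∃ k0 : ℕ, ∀ C : ℝ, 1 ≤ C → C0 ≤ C → ∀ k l : ℕ, k0 ≤ k → l ≤ k →
    (∀ L' ∈ Ls, lv L k l ≤ lv L' k l) →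
    (∀ a b : ℕ, a + b < k + l → BdAt Ls C a b) →
    ∀ (V : Type) [DecidableEq V] (G : SimpleGraph V) (S : Finset V),
      NoCl G k S → NoCl Gᶜ l S → (S.card : ℝ) ≤ C * Real.exp (lv L k l)

lemma StepC.of_stepOK {Ls : List (ℝ × ℝ)} {L : ℝ × ℝ} (C0 : ℝ) (h : StepOK Ls L) :
    StepC C0 Ls L := by
  obtain ⟨k0, hk0⟩ := h
  exact ⟨k0, fun C hC _ => hk0 C hC⟩

lemma StepC.of_bd {Old Ls : List (ℝ × ℝ)} {L : ℝ × ℝ} {C0 : ℝ}
    (h : ∀ a b : ℕ, BdAt Old C0 a b) (hL : L ∈ Old) : StepC C0 Ls L := by
  refine ⟨0, fun C _ hC0 k l _ _ _ _ V _ G S h1 h2 => ?_⟩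
  refine ((h k l V G S h1 h2 L hL).1).trans ?_
  exact mul_le_mul_of_nonneg_right hC0 (Real.exp_pos _).le

theorem main_induction_C (C0 : ℝ) (Ls : List (ℝ × ℝ)) (hne : Ls ≠ [])
    (hpos : ∀ L ∈ Ls, 0 ≤ L.1 ∧ L.1 ≤ L.2) (hstep : ∀ L ∈ Ls, StepC C0 Ls L) :
    ∃ C : ℝ, 1 ≤ C ∧ ∀ a b : ℕ, BdAt Ls C a b := by
  -- common threshold
  have hk0 : ∃ K : ℕ, ∀ L ∈ Ls, ∀ C : ℝ, 1 ≤ C → C0 ≤ C → ∀ k l : ℕ, K ≤ k → l ≤ k →
    (∀ L' ∈ Ls, lv L k l ≤ lv L' k l) →
    (∀ a b : ℕ, a + b < k + l → BdAt Ls C a b) →
    ∀ (V : Type) [DecidableEq V] (G : SimpleGraph V) (S : Finset V),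
      NoCl G k S → NoCl Gᶜ l S → (S.card : ℝ) ≤ C * Real.exp (lv L k l) := by
    have gen : ∀ (M : List (ℝ × ℝ)), (∀ L ∈ M, StepC C0 Ls L) →
      ∃ K : ℕ, ∀ L ∈ M, ∀ C : ℝ, 1 ≤ C → C0 ≤ C → ∀ k l : ℕ, K ≤ k → l ≤ k →
      (∀ L' ∈ Ls, lv L k l ≤ lv L' k l) →
      (∀ a b : ℕ, a + b < k + l → BdAt Ls C a b) →
      ∀ (V : Type) [DecidableEq V] (G : SimpleGraph V) (S : Finset V),
        NoCl G k S → NoCl Gᶜ l S → (S.card : ℝ) ≤ C * Real.exp (lv L k l) := by
      intro M
      induction M with
      | nil => intro _; exact ⟨0, fun L hL => absurd hL (List.not_mem_nil)⟩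
      | cons L0 M ih =>
        intro hM
        obtain ⟨K1, hK1⟩ := ih (fun L hL => hM L (List.mem_cons_of_mem _ hL))
        obtain ⟨K2, hK2⟩ := hM L0 List.mem_cons_self
        refine ⟨max K1 K2, fun L hL => ?_⟩
        rcases List.mem_cons.mp hL with rfl | hL'
        · intro C hC hC0 k l hk
          exact hK2 C hC hC0 k l (le_trans (le_max_right _ _) hk)
        · intro C hC hC0 k l hk
          exact hK1 L hL' C hC hC0 k l (le_trans (le_max_left _ _) hk)
    exact gen Ls hstep
  obtain ⟨K, hK⟩ := hk0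
  set C : ℝ := max C0 (4 ^ K) with hC
  have h4K : (1 : ℝ) ≤ 4 ^ K := one_le_pow₀ (by norm_num)
  have hC1 : (1 : ℝ) ≤ C := h4K.trans (le_max_right _ _)
  have hCC0 : C0 ≤ C := le_max_left _ _
  refine ⟨C, hC1, ?_⟩
  have main : ∀ n : ℕ, ∀ a b : ℕ, a + b = n → BdAt Ls C a b := by
    intro n
    induction n using Nat.strong_induction_on with
    | _ n IH =>
      have half : ∀ k l : ℕ, k + l = n → l ≤ k → BdAt Ls C k l := by
        intro k l hkl hlk V _ G Z hZk hZl
        obtain ⟨L0, hL0, hmin⟩ : ∃ L0 ∈ Ls, ∀ L' ∈ Ls, lv L0 k l ≤ lv L' k l := by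
          have : ∀ M : List (ℝ × ℝ), M ≠ [] → ∃ L0 ∈ M, ∀ L' ∈ M, lv L0 k l ≤ lv L' k l := by
            intro M
            induction M with
            | nil => intro h; exact absurd rfl h
            | cons L1 M ih =>
              intro _
              by_cases hM : M = []
              · subst hM
                exact ⟨L1, List.mem_cons_self, fun L' hL' => by
                  rw [List.mem_singleton] at hL'; rw [hL']⟩
              · obtain ⟨L2, hL2, hmin2⟩ := ih hM
                by_cases hc : lv L1 k l ≤ lv L2 k l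
                · refine ⟨L1, List.mem_cons_self, fun L' hL' => ?_⟩
                  rcases List.mem_cons.mp hL' with rfl | hL''
                  · exact le_rfl
                  · exact hc.trans (hmin2 L' hL'')
                · refine ⟨L2, List.mem_cons_of_mem _ hL2, fun L' hL' => ?_⟩
                  rcases List.mem_cons.mp hL' with rfl | hL''
                  · exact (not_le.mp hc).le
                  · exact hmin2 L' hL''
          exact this Ls hne
        have hmainb : (Z.card : ℝ) ≤ C * Real.exp (lv L0 k l) := by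
          by_cases hkK : K ≤ k
          · exact hK L0 hL0 C hC1 hCC0 k l hkK hlk hmin
              (fun a b hab => IH (a + b) (by omega) a b rfl) V G Z hZk hZl
          · have h1 := es_four G k l Z hZk hZl
            have h2 : (2 : ℝ) ^ (k + l) ≤ C := by
              refine le_trans ?_ (le_max_right C0 (4 ^ K))
              have : (4 : ℝ) ^ K = 2 ^ (2 * K) := by
                rw [pow_mul]; norm_num
              rw [this]
              exact pow_le_pow_right₀ (by norm_num) (by omega)
            have h3 : (1 : ℝ) ≤ Real.exp (lv L0 k l) := by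
              apply Real.one_le_exp
              have := hpos L0 hL0
              unfold lv
              have : 0 ≤ L0.2 := this.1.trans this.2
              have h0 := (hpos L0 hL0).1
              positivity
            nlinarith
        intro L hL
        have e1 : C * Real.exp (lv L0 k l) ≤ C * Real.exp (lv L k l) :=
          mul_le_mul_of_nonneg_left (Real.exp_le_exp.mpr (hmin L hL)) (by linarith)
        have e2 : C * Real.exp (lv L k l) ≤ C * Real.exp (lv L l k) := by
          apply mul_le_mul_of_nonneg_left _ (by linarith)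
          apply Real.exp_le_exp.mpr
          unfold lv
          have := (hpos L hL).2
          have hlk' : (l : ℝ) ≤ k := by exact_mod_cast hlk
          nlinarith
        exact ⟨hmainb.trans e1, (hmainb.trans e1).trans e2⟩
      intro a b hab
      by_cases hba : b ≤ a
      · exact half a b hab hba
      · intro V _ G Z hZa hZb L hL
        have h := half b a (by omega) (by omega) V Gᶜ Z hZb (by rw [compl_compl']; exact hZa) L hL
        exact ⟨h.2, h.1⟩
  intro a b
  exact main (a + b) a b rfl

end W478R
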