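import Pool.Agent.W478R.Defs

/-!
# Two-reservoir book theorem: the maximiser and the induction
-/

open Finset

namespace W478R

open H110R2

/-! ### The function `ph` -/

lemma ph_nonneg (u s : ℝ) : 0 ≤ ph u s := le_max_right _ _

lemma ph_zero_left (s : ℝ) : ph 0 s = 0 := by simp [ph]

lemma ph_zero_right (u : ℝ) : ph u 0 = 0 := by
  unfold ph
  rw [max_eq_right]
  nlinarith [sq_nonneg u]

lemma ph_le_one {u s : ℝ} (hu : 0 ≤ u) (hs : s ≤ 1) : ph u s ≤ 1 := by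
  unfold ph
  apply max_le _ zero_le_one
  nlinarith [sq_nonneg (u - 1), mul_nonneg hu (by linarith : 0 ≤ 1 - s)]

lemma ph_mono {u s : ℝ} (hu : 1 ≤ u) (hs : s ≤ 1) : ph u s ≤ ph 1 s := by
  unfold ph
  apply max_le_max _ le_rfl
  nlinarith [mul_nonneg (by linarith : 0 ≤ u - 1) (by linarith : 0 ≤ 1 - s), sq_nonneg (u - 1)]

lemma ph_scale {c : ℝ} (u s : ℝ) (_hc : 0 ≤ c) : ph (c * u) (c * s) = c ^ 2 * ph u s := by
  unfold ph
  rw [mul_max_of_nonneg _ _ (sq_nonneg c), mul_zero]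
  congr 1
  ring

lemma ph_eq {u s : ℝ} (h : 0 < ph u s) : ph u s = 2 * u * s - u ^ 2 ∧ 0 < 2 * u * s - u ^ 2 := by
  unfold ph at h ⊢
  have h1 : 0 < 2 * u * s - u ^ 2 := by
    by_contra hcon
    push Not at hcon
    rw [max_eq_right hcon] at h
    exact lt_irrefl _ h
  exact ⟨max_eq_left h1.le, h1⟩

/-! ### Degrees and Rényi sums -/

section basic

variable {V : Type} {r : V → V → ℝ} {p β : ℝ} {N : ℕ} {Y : Finset V} {m : V → ℝ}

lemma ex_le_one (hr : ∀ z y, r z y = 0 ∨ r z y = 1) (hp : 0 ≤ p) (hm0 : ∀ y ∈ Y, 0 ≤ m y)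
    (hm1 : ∑ y ∈ Y, m y = 1) (z : V) : ex r p Y m z ≤ 1 := by
  unfold ex
  rw [← hm1]
  refine sum_le_sum fun y hy => ?_
  have h1 : r z y - p ≤ 1 := by
    rcases hr z y with h | h <;> rw [h] <;> linarith
  calc m y * (r z y - p) ≤ m y * 1 := mul_le_mul_of_nonneg_left h1 (hm0 y hy)
    _ = m y := mul_one _

lemma ex_scale (c : ℝ) (z : V) : ex r p Y (fun y => c * m y) z = c * ex r p Y m z := by
  unfold ex
  rw [mul_sum]
  exact sum_congr rfl fun y _ => by ring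

lemma ex_congr {m' : V → ℝ} (h : ∀ y ∈ Y, m y = m' y) (z : V) : ex r p Y m z = ex r p Y m' z := by
  unfold ex
  exact sum_congr rfl fun y hy => by rw [h y hy]

lemma ren_congr {m' : V → ℝ} (h : ∀ y ∈ Y, m y = m' y) : ren β N Y m = ren β N Y m' := by
  unfold ren
  exact sum_congr rfl fun y hy => by rw [h y hy]

lemma ren_nonneg (hm0 : ∀ y ∈ Y, 0 ≤ m y) : 0 ≤ ren β N Y m :=
  sum_nonneg fun y hy => Real.rpow_nonneg (hm0 y hy) _

lemma exp_pos' (hβ : 0 < β) : 0 < 1 + β / N := by positivity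

lemma ren_pos (hm0 : ∀ y ∈ Y, 0 ≤ m y) (hm1 : ∑ y ∈ Y, m y = 1) : 0 < ren β N Y m := by
  obtain ⟨y, hy, hy0⟩ : ∃ y ∈ Y, 0 < m y := by
    by_contra hcon
    push Not at hcon
    have := sum_nonpos hcon
    linarith
  exact sum_pos' (fun y hy => Real.rpow_nonneg (hm0 y hy) _) ⟨y, hy, Real.rpow_pos_of_pos hy0 _⟩

lemma ren_scale {c : ℝ} (hc : 0 ≤ c) (hm0 : ∀ y ∈ Y, 0 ≤ m y) :
    ren β N Y (fun y => c * m y) = c ^ (1 + β / N) * ren β N Y m := by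
  unfold ren
  rw [mul_sum]
  exact sum_congr rfl fun y hy => by rw [Real.mul_rpow hc (hm0 y hy)]

lemma ren_pow_ge (hN : 1 ≤ N) (hβ : 0 < β) (hY : Y.Nonempty) (hm0 : ∀ y ∈ Y, 0 ≤ m y)
    (hm1 : ∑ y ∈ Y, m y = 1) : Real.exp (-(β * Real.log Y.card)) ≤ ren β N Y m ^ N := by
  have hc : (0 : ℝ) < Y.card := by exact_mod_cast hY.card_pos
  have hN0 : (0 : ℝ) < N := by exact_mod_cast hN
  have h := Real.rpow_arith_mean_le_arith_mean_rpow Y (fun _ => (Y.card : ℝ)⁻¹) m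
    (fun _ _ => by positivity) (by rw [sum_const, nsmul_eq_mul, mul_inv_cancel₀ hc.ne']) hm0
    (p := 1 + β / N) (by have : 0 ≤ β / N := by positivity
                         linarith)
  rw [← mul_sum, ← mul_sum, hm1, mul_one] at h
  have h1 : (Y.card : ℝ) ^ (-(β / N)) ≤ ren β N Y m := by
    have h2 : (Y.card : ℝ) * ((Y.card : ℝ)⁻¹ ^ (1 + β / N)) ≤ ren β N Y m := by
      have := mul_le_mul_of_nonneg_left h hc.le
      rwa [← mul_assoc, mul_inv_cancel₀ hc.ne', one_mul] at this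
    refine le_trans (le_of_eq ?_) h2
    rw [Real.inv_rpow hc.le, ← Real.rpow_neg hc.le]
    conv_rhs => lhs; rw [← Real.rpow_one (Y.card : ℝ)]
    rw [← Real.rpow_add hc]
    congr 1
    ring
  have h3 : Real.exp (-(β * Real.log Y.card)) = ((Y.card : ℝ) ^ (-(β / N))) ^ N := by
    rw [← Real.rpow_natCast, ← Real.rpow_mul hc.le, Real.rpow_def_of_pos hc]
    congr 1
    field_simp
  rw [h3]
  exact pow_le_pow_left₀ (Real.rpow_nonneg hc.le _) h1 N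

lemma ren_unif (hN : 1 ≤ N) (hY : Y.Nonempty) :
    ren β N Y (fun _ => (Y.card : ℝ)⁻¹) ^ N = Real.exp (-(β * Real.log Y.card)) := by
  have hc : (0 : ℝ) < Y.card := by exact_mod_cast hY.card_pos
  have hN0 : (0 : ℝ) < N := by exact_mod_cast hN
  have h1 : ren β N Y (fun _ => (Y.card : ℝ)⁻¹) = (Y.card : ℝ) ^ (-(β / N)) := by
    unfold ren
    rw [sum_const, nsmul_eq_mul, Real.inv_rpow hc.le, ← Real.rpow_neg hc.le]
    conv_lhs => lhs; rw [← Real.rpow_one (Y.card : ℝ)]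
    rw [← Real.rpow_add hc]
    congr 1
    ring
  rw [h1, ← Real.rpow_natCast, ← Real.rpow_mul hc.le, Real.rpow_def_of_pos hc]
  congr 1
  field_simp

/-- Homogeneity of the cost functional. -/
lemma CC_scale {c : ℝ} (hc : 0 < c) (hN : 1 ≤ N) (hm0 : ∀ y ∈ Y, 0 ≤ m y) (hm1 : ∑ y ∈ Y, m y = 1) :
    CC β N Y (fun y => c * m y) = c ^ (2 * N ^ 2) * ren β N Y m ^ N := by
  have hN0 : (0 : ℝ) < N := by exact_mod_cast hN
  unfold CC
  rw [ren_scale hc.le hm0, mul_pow, ← mul_sum, hm1, mul_one, ← Real.rpow_natCast (c ^ (1 + β / N)),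
    ← Real.rpow_mul hc.le, mul_right_comm, ← Real.rpow_add hc]
  have e : (1 + β / N) * (N : ℝ) + (2 * (N : ℝ) ^ 2 - N - β) = ((2 * N ^ 2 : ℕ) : ℝ) := by
    push_cast
    field_simp
    ring
  rw [e, Real.rpow_natCast]

end basic

/-! ### One side of the optimal configuration -/

section side

variable {V : Type} {r : V → V → ℝ} {p β : ℝ} {N : ℕ} {X Y : Finset V} {m g : V → ℝ} {u : ℝ}

/-- the one-sided functional -/
noncomputable def S1 (r : V → V → ℝ) (p : ℝ) (N : ℕ) (X Y : Finset V) (g m : V → ℝ) (u : ℝ) : ℝ :=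
  ∑ z ∈ X, ph u (ex r p Y m z) ^ (N ^ 2) * g z

lemma S1_scale {c : ℝ} (hc : 0 ≤ c) : S1 r p N X Y g (fun y => c * m y) (c * u) =
    c ^ (2 * N ^ 2) * S1 r p N X Y g m u := by
  unfold S1
  rw [mul_sum]
  refine sum_congr rfl fun z _ => ?_
  rw [ex_scale, ph_scale _ _ hc, mul_pow, ← pow_mul]
  ring

lemma S1_congr {m' : V → ℝ} (h : ∀ y ∈ Y, m y = m' y) :
    S1 r p N X Y g m u = S1 r p N X Y g m' u := by
  unfold S1
  exact sum_congr rfl fun z _ => by rw [ex_congr h]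

theorem side_of (hr : ∀ z y, r z y = 0 ∨ r z y = 1) (hN : 1 ≤ N)
    (hg : ∀ z ∈ X, 0 ≤ g z) (hm0 : ∀ y ∈ Y, 0 ≤ m y) (hm1 : ∑ y ∈ Y, m y = 1) (hu : 0 ≤ u)
    (hpos : 0 < S1 r p N X Y g m u)
    (hmax : ∀ (m' : V → ℝ) (u' : ℝ), (∀ y ∈ Y, 0 ≤ m' y) → ∑ y ∈ Y, m' y = 1 → 0 ≤ u' →
      S1 r p N X Y g m' u' * ren β N Y m ^ N ≤ S1 r p N X Y g m u * ren β N Y m' ^ N) :
    Side X Y r p β N (fun z => ph u (ex r p Y m z) ^ (N ^ 2) * g z / S1 r p N X Y g m u) m u := by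
  obtain ⟨S, hS⟩ : ∃ S, S = S1 r p N X Y g m u := ⟨_, rfl⟩
  rw [← hS] at hpos hmax ⊢
  have hN2 : N ^ 2 ≠ 0 := by positivity
  have hu0 : 0 < u := by
    rcases hu.lt_or_eq with h | h
    · exact h
    · exfalso
      rw [hS, ← h] at hpos
      unfold S1 at hpos
      simp only [ph_zero_left, zero_pow hN2, zero_mul, sum_const_zero] at hpos
      exact lt_irrefl _ hpos
  have hq : ∀ z ∈ X, 0 < ph u (ex r p Y m z) ^ (N ^ 2) * g z / S →
      ph u (ex r p Y m z) = 2 * u * ex r p Y m z - u ^ 2 ∧ 0 < 2 * u * ex r p Y m z - u ^ 2 := by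
    intro z _ hz
    apply ph_eq
    rcases (ph_nonneg u (ex r p Y m z)).lt_or_eq with h | h
    · exact h
    · exfalso
      rw [← h, zero_pow hN2, zero_mul, zero_div] at hz
      exact lt_irrefl _ hz
  refine ⟨hr, fun z hz => ?_, ?_, hm0, hm1, hu0, fun z hz h => (hq z hz h).2, ?_⟩
  · exact div_nonneg (mul_nonneg (pow_nonneg (ph_nonneg _ _) _) (hg z hz)) hpos.le
  · rw [← sum_div]
    have : ∑ z ∈ X, ph u (ex r p Y m z) ^ (N ^ 2) * g z = S := hS.symm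
    rw [this, div_self hpos.ne']
  · intro m' u' hm' hu'
    -- first step: compare with `S1 m' u' / S`
    have h1 : ∑ z ∈ X, ph u (ex r p Y m z) ^ (N ^ 2) * g z / S *
        (ph u' (ex r p Y m' z) / (2 * u * ex r p Y m z - u ^ 2)) ^ (N ^ 2) ≤
        S1 r p N X Y g m' u' / S := by
      unfold S1
      rw [sum_div]
      refine sum_le_sum fun z hz => ?_
      have hge : 0 ≤ ph u (ex r p Y m z) ^ (N ^ 2) * g z / S :=
        div_nonneg (mul_nonneg (pow_nonneg (ph_nonneg _ _) _) (hg z hz)) hpos.le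
      rcases hge.lt_or_eq with h | h
      · obtain ⟨e1, e2⟩ := hq z hz h
        rw [e1, div_pow]
        have e3 : (2 * u * ex r p Y m z - u ^ 2) ^ (N ^ 2) ≠ 0 := (pow_pos e2 _).ne'
        generalize (2 * u * ex r p Y m z - u ^ 2) ^ (N ^ 2) = q at e3
        apply le_of_eq
        field_simp
      · rw [← h, zero_mul]
        exact div_nonneg (mul_nonneg (pow_nonneg (ph_nonneg _ _) _) (hg z hz)) hpos.le
    have hren0 : 0 ≤ ren β N Y m ^ N := pow_nonneg (ren_nonneg hm0) _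
    refine (mul_le_mul_of_nonneg_right h1 hren0).trans ?_
    rw [div_mul_eq_mul_div, div_le_iff₀ hpos]
    -- second step: homogeneity
    have hc0 : 0 ≤ ∑ y ∈ Y, m' y := sum_nonneg hm'
    obtain ⟨c, hc⟩ : ∃ c, c = ∑ y ∈ Y, m' y := ⟨_, rfl⟩
    rw [← hc] at hc0
    rcases hc0.lt_or_eq with hcp | hcz
    · have e1 : (fun y => c * (c⁻¹ * m' y)) = m' := by
        funext y
        rw [← mul_assoc, mul_inv_cancel₀ hcp.ne', one_mul]
      have e2 : c * (c⁻¹ * u') = u' := by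
        rw [← mul_assoc, mul_inv_cancel₀ hcp.ne', one_mul]
      have hm'' : ∀ y ∈ Y, 0 ≤ c⁻¹ * m' y := fun y hy =>
        mul_nonneg (inv_nonneg.2 hcp.le) (hm' y hy)
      have hs'' : ∑ y ∈ Y, c⁻¹ * m' y = 1 := by
        rw [← mul_sum, ← hc, inv_mul_cancel₀ hcp.ne']
      have h2 := hmax (fun y => c⁻¹ * m' y) (c⁻¹ * u') hm'' hs''
        (mul_nonneg (inv_nonneg.2 hcp.le) hu')
      have h3 := S1_scale (r := r) (p := p) (N := N) (X := X) (Y := Y) (g := g)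
        (m := fun y => c⁻¹ * m' y) (u := c⁻¹ * u') hcp.le
      have h4 := CC_scale (β := β) (N := N) (Y := Y) (m := fun y => c⁻¹ * m' y) hcp hN hm'' hs''
      rw [e1, e2] at h3
      rw [e1] at h4
      rw [h3, h4]
      calc c ^ (2 * N ^ 2) * S1 r p N X Y g (fun y => c⁻¹ * m' y) (c⁻¹ * u') * ren β N Y m ^ N
          = c ^ (2 * N ^ 2) * (S1 r p N X Y g (fun y => c⁻¹ * m' y) (c⁻¹ * u') *
            ren β N Y m ^ N) := by ring
        _ ≤ c ^ (2 * N ^ 2) * (S * ren β N Y (fun y => c⁻¹ * m' y) ^ N) :=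
            mul_le_mul_of_nonneg_left h2 (pow_nonneg hcp.le _)
        _ = _ := by ring
    · have hz0 : ∀ y ∈ Y, m' y = 0 := fun y hy =>
        (sum_eq_zero_iff_of_nonneg hm').1 (by rw [← hc, ← hcz]) y hy
      have e1 : S1 r p N X Y g m' u' = 0 := by
        unfold S1
        refine sum_eq_zero fun z _ => ?_
        have : ex r p Y m' z = 0 := by
          unfold ex
          exact sum_eq_zero fun y hy => by rw [hz0 y hy, zero_mul]
        rw [this, ph_zero_right, zero_pow hN2, zero_mul]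
      rw [e1, zero_mul]
      apply mul_nonneg _ hpos.le
      unfold CC
      exact mul_nonneg (pow_nonneg (ren_nonneg hm') _) (Real.rpow_nonneg (sum_nonneg hm') _)

end side

/-! ### The maximiser -/

section max

variable {V : Type} {r1 r2 : V → V → ℝ} {p1 p2 β1 β2 : ℝ} {N : ℕ} {X Y1 Y2 : Finset V}

lemma cont_ph : Continuous fun q : ℝ × ℝ => ph q.1 q.2 := by
  unfold ph
  fun_prop

lemma cont_ex (r : V → V → ℝ) (p : ℝ) (Y : Finset V) (z : V) :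
    Continuous fun m : V → ℝ => ex r p Y m z := by
  unfold ex
  fun_prop

lemma cont_ren {β : ℝ} (hβ : 0 < β) (N : ℕ) (Y : Finset V) :
    Continuous fun m : V → ℝ => ren β N Y m := by
  unfold ren
  refine continuous_finsetSum _ fun y _ => ?_
  exact (Real.continuous_rpow_const (exp_pos' hβ).le).comp (continuous_apply y)

lemma simp_of [DecidableEq V] {Y : Finset V} {m : V → ℝ} (hm0 : ∀ y ∈ Y, 0 ≤ m y) (hm1 : ∑ y ∈ Y, m y = 1) :
    (fun y => if y ∈ Y then m y else 0) ∈ simp Y := by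
  have h := simp_normalise hm0 (by rw [hm1]; exact one_pos)
  simpa only [hm1, inv_one, one_mul] using h

lemma ph_min {u s : ℝ} (hs : s ≤ 1) : ph u s ≤ ph (min u 1) s := by
  rcases le_total u 1 with h | h
  · rw [min_eq_left h]
  · rw [min_eq_right h]
    exact ph_mono h hs

theorem exists_max2 [DecidableEq V] (hr1 : ∀ z y, r1 z y = 0 ∨ r1 z y = 1) (hr2 : ∀ z y, r2 z y = 0 ∨ r2 z y = 1)
    (hp1 : 0 ≤ p1) (hp2 : 0 ≤ p2) (hβ1 : 0 < β1) (hβ2 : 0 < β2)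
    (hY1 : Y1.Nonempty) (hY2 : Y2.Nonempty) :
    ∃ (m1 m2 : V → ℝ) (u w : ℝ), (∀ y ∈ Y1, 0 ≤ m1 y) ∧ (∀ y ∈ Y2, 0 ≤ m2 y) ∧
      ∑ y ∈ Y1, m1 y = 1 ∧ ∑ y ∈ Y2, m2 y = 1 ∧ 0 ≤ u ∧ 0 ≤ w ∧
      ∀ (m1' m2' : V → ℝ) (u' w' : ℝ), (∀ y ∈ Y1, 0 ≤ m1' y) → (∀ y ∈ Y2, 0 ≤ m2' y) →
        ∑ y ∈ Y1, m1' y = 1 → ∑ y ∈ Y2, m2' y = 1 → 0 ≤ u' → 0 ≤ w' →
        SS r1 r2 p1 p2 N X Y1 Y2 m1' m2' u' w' * (ren β1 N Y1 m1 ^ N * ren β2 N Y2 m2 ^ N) ≤
          SS r1 r2 p1 p2 N X Y1 Y2 m1 m2 u w * (ren β1 N Y1 m1' ^ N * ren β2 N Y2 m2' ^ N) := by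
  obtain ⟨K, hKd⟩ : ∃ K : Set ((V → ℝ) × (V → ℝ) × ℝ × ℝ),
    K = simp Y1 ×ˢ simp Y2 ×ˢ Set.Icc 0 1 ×ˢ Set.Icc 0 1 := ⟨_, rfl⟩
  have hK : IsCompact K := by
    rw [hKd]
    exact (simp_compact Y1).prod ((simp_compact Y2).prod (isCompact_Icc.prod isCompact_Icc))
  have hne : K.Nonempty := by
    rw [hKd]
    exact (simp_nonempty hY1).prod ((simp_nonempty hY2).prod
      ((Set.nonempty_Icc.2 zero_le_one).prod (Set.nonempty_Icc.2 zero_le_one)))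
  have hc1 : Continuous fun z : (V → ℝ) × (V → ℝ) × ℝ × ℝ =>
      SS r1 r2 p1 p2 N X Y1 Y2 z.1 z.2.1 z.2.2.1 z.2.2.2 := by
    unfold SS
    refine continuous_finsetSum _ fun x _ => ?_
    have h1 : Continuous fun z : (V → ℝ) × (V → ℝ) × ℝ × ℝ => ph z.2.2.1 (ex r1 p1 Y1 z.1 x) := by
      have h2 : Continuous fun z : (V → ℝ) × (V → ℝ) × ℝ × ℝ => (z.2.2.1, ex r1 p1 Y1 z.1 x) :=
        (continuous_fst.comp (continuous_snd.comp continuous_snd)).prodMk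
          ((cont_ex r1 p1 Y1 x).comp continuous_fst)
      exact cont_ph.comp h2
    have h3 : Continuous fun z : (V → ℝ) × (V → ℝ) × ℝ × ℝ => ph z.2.2.2 (ex r2 p2 Y2 z.2.1 x) := by
      have h2 : Continuous fun z : (V → ℝ) × (V → ℝ) × ℝ × ℝ => (z.2.2.2, ex r2 p2 Y2 z.2.1 x) :=
        (continuous_snd.comp (continuous_snd.comp continuous_snd)).prodMk
          ((cont_ex r2 p2 Y2 x).comp (continuous_fst.comp continuous_snd))
      exact cont_ph.comp h2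
    exact (h1.pow _).mul (h3.pow _)
  have hc2 : Continuous fun z : (V → ℝ) × (V → ℝ) × ℝ × ℝ =>
      ren β1 N Y1 z.1 ^ N * ren β2 N Y2 z.2.1 ^ N :=
    (((cont_ren hβ1 N Y1).comp continuous_fst).pow N).mul
      (((cont_ren hβ2 N Y2).comp (continuous_fst.comp continuous_snd)).pow N)
  have hpos : ∀ z ∈ K, 0 < ren β1 N Y1 z.1 ^ N * ren β2 N Y2 z.2.1 ^ N := by
    intro z hz
    rw [hKd] at hz
    exact mul_pos (pow_pos (ren_pos (fun y _ => simp_nonneg hz.1 y) (simp_sum hz.1)) _)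
      (pow_pos (ren_pos (fun y _ => simp_nonneg hz.2.1 y) (simp_sum hz.2.1)) _)
  obtain ⟨z, hz, hmax⟩ := hK.exists_isMaxOn hne
    (hc1.continuousOn.div hc2.continuousOn fun z hz => (hpos z hz).ne')
  have hz' := hz
  rw [hKd] at hz'
  refine ⟨z.1, z.2.1, z.2.2.1, z.2.2.2, fun y _ => simp_nonneg hz'.1 y,
    fun y _ => simp_nonneg hz'.2.1 y, simp_sum hz'.1, simp_sum hz'.2.1, hz'.2.2.1.1, hz'.2.2.2.1, ?_⟩
  intro m1' m2' u' w' h1 h2 h3 h4 hu' hw'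
  have hmem : ((fun y => if y ∈ Y1 then m1' y else 0), (fun y => if y ∈ Y2 then m2' y else 0),
      min u' 1, min w' 1) ∈ K := by
    rw [hKd]
    exact ⟨simp_of h1 h3, simp_of h2 h4, ⟨le_min hu' zero_le_one, min_le_right _ _⟩,
      ⟨le_min hw' zero_le_one, min_le_right _ _⟩⟩
  have hm := hmax hmem
  have hp' := hpos _ hmem
  simp only [Set.mem_ofPred_eq, Pi.div_apply] at hm
  rw [div_le_div_iff₀ hp' (hpos z hz)] at hm
  have e1 : ren β1 N Y1 (fun y => if y ∈ Y1 then m1' y else 0) = ren β1 N Y1 m1' :=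
    ren_congr fun y hy => if_pos hy
  have e2 : ren β2 N Y2 (fun y => if y ∈ Y2 then m2' y else 0) = ren β2 N Y2 m2' :=
    ren_congr fun y hy => if_pos hy
  rw [e1, e2] at hm
  refine le_trans ?_ hm
  apply mul_le_mul_of_nonneg_right _ (hpos z hz).le
  unfold SS
  refine sum_le_sum fun x _ => ?_
  have e3 : ex r1 p1 Y1 (fun y => if y ∈ Y1 then m1' y else 0) x = ex r1 p1 Y1 m1' x :=
    ex_congr (fun y hy => if_pos hy) x
  have e4 : ex r2 p2 Y2 (fun y => if y ∈ Y2 then m2' y else 0) x = ex r2 p2 Y2 m2' x :=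
    ex_congr (fun y hy => if_pos hy) x
  rw [e3, e4]
  exact mul_le_mul (pow_le_pow_left₀ (ph_nonneg _ _) (ph_min (ex_le_one hr1 hp1 h1 h3 x)) _)
    (pow_le_pow_left₀ (ph_nonneg _ _) (ph_min (ex_le_one hr2 hp2 h2 h4 x)) _)
    (pow_nonneg (ph_nonneg _ _) _) (pow_nonneg (ph_nonneg _ _) _)

end max

/-! ### One continuation -/

lemma step_calc {V : Type} {Q X'' : Finset V} {ρ hz sz ξ : V → ℝ} {ε S Θ R R' κ EA : ℝ}
    (hQ : Q ⊆ X'') (hh : ∀ z, 0 ≤ hz z) (hs : ∀ z, 0 ≤ sz z)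
    (hpt : ∀ z ∈ Q, (1 - ε) ^ 2 * Real.exp (ξ z) * κ * (ρ z * S) * R' ≤ hz z * sz z * R)
    (hIH : ∑ z ∈ X'', hz z * sz z ≤ Θ * EA * R')
    (hΘ : Θ * R ≤ S) (hR : 0 ≤ R) (hR' : 0 < R') (hS : 0 < S) (hκ : 0 < κ) (hEA : 0 ≤ EA) :
    (1 - ε) ^ 2 * ∑ z ∈ Q, ρ z * Real.exp (ξ z) ≤ EA / κ := by
  rw [le_div_iff₀ hκ]
  have h1 : ((1 - ε) ^ 2 * (∑ z ∈ Q, ρ z * Real.exp (ξ z)) * κ) * (S * R') ≤ EA * (S * R') := by
    calc ((1 - ε) ^ 2 * (∑ z ∈ Q, ρ z * Real.exp (ξ z)) * κ) * (S * R')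
        = ∑ z ∈ Q, (1 - ε) ^ 2 * Real.exp (ξ z) * κ * (ρ z * S) * R' := by
          rw [mul_sum, sum_mul, sum_mul]
          exact sum_congr rfl fun z _ => by ring
      _ ≤ ∑ z ∈ Q, hz z * sz z * R := sum_le_sum hpt
      _ = (∑ z ∈ Q, hz z * sz z) * R := by rw [sum_mul]
      _ ≤ (∑ z ∈ X'', hz z * sz z) * R := by
          apply mul_le_mul_of_nonneg_right _ hR
          exact sum_le_sum_of_subset_of_nonneg hQ fun z _ _ => mul_nonneg (hh z) (hs z)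
      _ ≤ (Θ * EA * R') * R := mul_le_mul_of_nonneg_right hIH hR
      _ = (Θ * R) * (EA * R') := by ring
      _ ≤ S * (EA * R') := mul_le_mul_of_nonneg_right hΘ (mul_nonneg hEA hR'.le)
      _ = EA * (S * R') := by ring
  exact le_of_mul_le_mul_right h1 (mul_pos hS hR')

lemma pt_calc {ε ξH ξS T P E qH qS R1 R2 R1' R2' h s : ℝ} {n : ℕ} (hε : ε < 1)
    (hP : 0 ≤ P) (hqH : 0 ≤ qH) (hR1' : 0 ≤ R1')
    (hard : (1 - ε) * Real.exp ξH * P * qH ^ n * R1' ≤ h * R1)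
    (soft : (1 - ε) * Real.exp (T * ξS) * Real.exp (-E) * qS ^ n * R2' ≤ s * R2)
    (hs : 0 ≤ s * R2) :
    (1 - ε) ^ 2 * Real.exp (ξH + T * ξS) * (P * Real.exp (-E)) * (qH ^ n * qS ^ n) * (R1' * R2') ≤
      h * s * (R1 * R2) := by
  have hε' : 0 ≤ 1 - ε := by linarith
  have h0 : 0 ≤ (1 - ε) * Real.exp ξH * P * qH ^ n * R1' := by
    have := Real.exp_pos ξH
    positivity
  calc (1 - ε) ^ 2 * Real.exp (ξH + T * ξS) * (P * Real.exp (-E)) * (qH ^ n * qS ^ n) * (R1' * R2')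
      = ((1 - ε) * Real.exp ξH * P * qH ^ n * R1') *
        ((1 - ε) * Real.exp (T * ξS) * Real.exp (-E) * qS ^ n * R2') := by
        rw [Real.exp_add]; ring
    _ ≤ ((1 - ε) * Real.exp ξH * P * qH ^ n * R1') * (s * R2) := mul_le_mul_of_nonneg_left soft h0
    _ ≤ (h * R1) * (s * R2) := mul_le_mul_of_nonneg_right hard hs
    _ = _ := by ring

lemma cont_step {V : Type} {X XH XS Q X'' YH YS : Finset V} {rH rS : V → V → ℝ}
    {pH pS bH bS T : ℝ} {N : ℕ} {ρ mh ms : V → ℝ} {uh us L ε C4 : ℝ}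
    {ξH KH ξS KS mHH mSH mHS mSS : V → V → ℝ} {uHH uSH uHS uSS : V → ℝ}
    (oH : SideOut X YH rH pH bH T N ρ mh uh L ε C4 XH ξH KH mHH mSH uHH uSH)
    (oS : SideOut X YS rS pS bS T N ρ ms us L ε C4 XS ξS KS mHS mSS uHS uSS)
    (hε : ε < 1) (hpH : 0 < pH) {v : V} (hvH : v ∈ XH) (hvS : v ∈ XS) (hQH : Q ⊆ XH)
    (hQS : Q ⊆ XS) (hQ : Q ⊆ X'') (hL : ∀ z ∈ Q, |ξH v z| ≤ L ∧ |ξS v z| ≤ L)
    (hρ0 : ∀ z ∈ X, 0 ≤ ρ z) {S Θ A : ℝ} (hS : 0 < S)
    (hρS : ∀ z, ρ z * S =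
      ph uh (ex rH pH YH mh z) ^ (N ^ 2) * ph us (ex rS pS YS ms z) ^ (N ^ 2))
    (hmh0 : ∀ y ∈ YH, 0 ≤ mh y) (hms0 : ∀ y ∈ YS, 0 ≤ ms y) (hN : 1 ≤ N)
    (hIH : ∑ z ∈ X'', ph (uHH v) (ex rH pH YH (mHH v) z) ^ (N ^ 2) *
        ph (uSS v) (ex rS pS YS (mSS v) z) ^ (N ^ 2) ≤
      Θ * Real.exp (-A) * (ren bH N YH (mHH v) ^ N * ren bS N YS (mSS v) ^ N))
    (hΘ : Θ * (ren bH N YH mh ^ N * ren bS N YS ms ^ N) ≤ S) :
    (1 - ε) ^ 2 * ∑ z ∈ Q, ρ z * Real.exp (ξH v z + T * ξS v z) ≤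
      Real.exp (-A + bH * Real.log (1 / pH) + bS * KK pS T) := by
  have hN2 : N ^ 2 ≠ 0 := by positivity
  have e : Real.exp (-A + bH * Real.log (1 / pH) + bS * KK pS T) =
      Real.exp (-A) / (pH ^ bH * Real.exp (-(bS * KK pS T))) := by
    rw [Real.rpow_def_of_pos hpH, ← Real.exp_add, ← Real.exp_sub]
    congr 1
    rw [one_div, Real.log_inv]
    ring
  rw [e]
  have hRH : 0 < ren bH N YH (mHH v) ^ N := pow_pos (ren_pos (oH.hH0 v hvH) (oH.hH1 v hvH)) _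
  have hRS : 0 < ren bS N YS (mSS v) ^ N := pow_pos (ren_pos (oS.hS0 v hvS) (oS.hS1 v hvS)) _
  have hRh : 0 ≤ ren bH N YH mh ^ N := pow_nonneg (ren_nonneg hmh0) _
  have hRs : 0 ≤ ren bS N YS ms ^ N := pow_nonneg (ren_nonneg hms0) _
  refine step_calc (hz := fun z => ph (uHH v) (ex rH pH YH (mHH v) z) ^ (N ^ 2))
    (sz := fun z => ph (uSS v) (ex rS pS YS (mSS v) z) ^ (N ^ 2))
    (ξ := fun z => ξH v z + T * ξS v z) (R := ren bH N YH mh ^ N * ren bS N YS ms ^ N)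
    (R' := ren bH N YH (mHH v) ^ N * ren bS N YS (mSS v) ^ N) (S := S) (Θ := Θ)
    hQ (fun z => pow_nonneg (ph_nonneg _ _) _) (fun z => pow_nonneg (ph_nonneg _ _) _)
    ?_ hIH hΘ (mul_nonneg hRh hRs) (mul_pos hRH hRS) hS (by positivity) (Real.exp_pos _).le
  intro z hz
  have hz0 := hρ0 z (oH.hXg (hQH hz))
  rcases hz0.lt_or_eq with hzp | hzz
  · have h1 := hρS z
    have h2 : 0 < ph uh (ex rH pH YH mh z) ^ (N ^ 2) * ph us (ex rS pS YS ms z) ^ (N ^ 2) := by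
      rw [← h1]; exact mul_pos hzp hS
    have h3 : 0 < ph uh (ex rH pH YH mh z) := by
      rcases (ph_nonneg uh (ex rH pH YH mh z)).lt_or_eq with h | h
      · exact h
      · rw [← h, zero_pow hN2, zero_mul] at h2
        exact absurd h2 (lt_irrefl _)
    have h4 : 0 < ph us (ex rS pS YS ms z) := by
      rcases (ph_nonneg us (ex rS pS YS ms z)).lt_or_eq with h | h
      · exact h
      · rw [← h, zero_pow hN2, mul_zero] at h2
        exact absurd h2 (lt_irrefl _)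
    obtain ⟨q1, q1'⟩ := ph_eq h3
    obtain ⟨q2, q2'⟩ := ph_eq h4
    rw [h1, q1, q2]
    exact pt_calc hε (Real.rpow_nonneg hpH.le _) q1'.le hRH.le
      (oH.hHard v hvH z (hQH hz) hzp (hL z hz).1)
      (oS.hSoft v hvS z (hQS hz) hzp (hL z hz).2)
      (mul_nonneg (pow_nonneg (ph_nonneg _ _) _) hRs)
  · rw [← hzz, zero_mul, mul_zero, zero_mul]
    have := ph_nonneg (uHH v) (ex rH pH YH (mHH v) z)
    have := ph_nonneg (uSS v) (ex rS pS YS (mSS v) z)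
    positivity

/-! ### Restriction to a neighbourhood -/

section restrict

variable {V : Type} [DecidableEq V] {G : SimpleGraph V} {p β : ℝ} {N : ℕ} {Y : Finset V}
  {m : V → ℝ} {v : V}

omit [DecidableEq V] in
lemma ri_zero_or_one (G : SimpleGraph V) (z y : V) : ri G z y = 0 ∨ ri G z y = 1 := by
  unfold ri
  split
  · exact Or.inr rfl
  · exact Or.inl rfl

lemma ri_of_not_mem {y : V} (hy : y ∈ Y) (h : y ∉ nb G v Y) : ri G v y = 0 := by
  unfold ri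
  rw [if_neg]
  intro hadj
  exact h (mem_nb.2 ⟨hy, hadj⟩)

lemma sum_restrict (hm : ∀ y ∈ Y, ri G v y = 0 → m y = 0) :
    ∑ y ∈ nb G v Y, m y = ∑ y ∈ Y, m y :=
  sum_subset (nb_subset G v Y) fun y hy h => hm y hy (ri_of_not_mem hy h)

lemma ex_restrict (r : V → V → ℝ) (hm : ∀ y ∈ Y, ri G v y = 0 → m y = 0) (z : V) :
    ex r p (nb G v Y) m z = ex r p Y m z := by
  unfold ex
  refine sum_subset (nb_subset G v Y) fun y hy h => ?_
  rw [hm y hy (ri_of_not_mem hy h), zero_mul]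

lemma ren_restrict (hβ : 0 < β) (hm : ∀ y ∈ Y, ri G v y = 0 → m y = 0) :
    ren β N (nb G v Y) m = ren β N Y m := by
  unfold ren
  refine sum_subset (nb_subset G v Y) fun y hy h => ?_
  rw [hm y hy (ri_of_not_mem hy h), Real.zero_rpow (exp_pos' hβ).ne']

end restrict

/-! ### The induction -/

theorem key {V : Type} [DecidableEq V] {G : SimpleGraph V} {k l N : ℕ}
    {LM1 LM2 A W p1 p2 b1 b2 T L ε C4 : ℝ} {Y1 Y2 : Finset V} (hN : 1 ≤ N) (hp1 : 0 < p1)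
    (hp2 : 0 < p2) (hb1 : 0 < b1) (hb2 : 0 < b2) (hε0 : 0 < ε) (hε1 : ε < 1)
    (hR1 : ∀ a ≤ k, ∀ Z ⊆ Y1, Z.Nonempty → NoCl G a Z → b1 * Real.log Z.card ≤ LM1 + A * a)
    (hR2 : ∀ t ≤ l, ∀ Z ⊆ Y2, Z.Nonempty → NoCl Gᶜ t Z → b2 * Real.log Z.card ≤ LM2 + W * t)
    (hS1 : ∀ (X Y : Finset V) (r : V → V → ℝ) (ρ m : V → ℝ) (u : ℝ), Side X Y r p1 b1 N ρ m u →
      ∃ (Xg : Finset V) (ξ K : V → V → ℝ) (mH mS : V → V → ℝ) (uH uS : V → ℝ),
      SideOut X Y r p1 b1 T N ρ m u L ε (C4 + ε) Xg ξ K mH mS uH uS)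
    (hS2 : ∀ (X Y : Finset V) (r : V → V → ℝ) (ρ m : V → ℝ) (u : ℝ), Side X Y r p2 b2 N ρ m u →
      ∃ (Xg : Finset V) (ξ K : V → V → ℝ) (mH mS : V → V → ℝ) (uH uS : V → ℝ),
      SideOut X Y r p2 b2 T N ρ m u L ε (C4 + ε) Xg ξ K mH mS uH uS)
    (hC : ∀ (X Xg Y1 Y2 : Finset V) (ρ : V → ℝ) (ξ1 ξ2 K1 K2 : V → V → ℝ)
      (Rd Bl : V → V → Prop),
      Xg ⊆ X → (∀ z ∈ X, 0 ≤ ρ z) → ∑ z ∈ X, ρ z = 1 → ∑ z ∈ X, ρ z - ∑ z ∈ Xg, ρ z ≤ 2 * ε →
      (∀ z ∈ X, ρ z ≤ ε) →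
      (∀ v ∈ Xg, ∑ z ∈ X, ρ z * ξ1 v z = 0) → (∀ v ∈ Xg, ∑ z ∈ X, ρ z * ξ2 v z = 0) →
      (∀ v ∈ Xg, ∑ z ∈ X, ρ z * ξ1 v z ^ 8 ≤ C4 + ε) →
      (∀ v ∈ Xg, ∑ z ∈ X, ρ z * ξ2 v z ^ 8 ≤ C4 + ε) →
      (∃ (wt : V → ℝ) (g : V → V → ℝ), (∀ y ∈ Y1, 0 ≤ wt y) ∧
        ∀ v ∈ Xg, ∀ z ∈ Xg, K1 v z = ∑ y ∈ Y1, wt y * g v y * g z y) →
      (∃ (wt : V → ℝ) (g : V → V → ℝ), (∀ y ∈ Y2, 0 ≤ wt y) ∧
        ∀ v ∈ Xg, ∀ z ∈ Xg, K2 v z = ∑ y ∈ Y2, wt y * g v y * g z y) →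
      (∀ v ∈ Xg, ∀ z ∈ Xg, |K1 v z - ξ1 v z| ≤ ε * (1 + |ξ1 v z|)) →
      (∀ v ∈ Xg, ∀ z ∈ Xg, |K2 v z - ξ2 v z| ≤ ε * (1 + |ξ2 v z|)) →
      (∀ v ∈ Xg, ∀ z ∈ Xg, v ≠ z → Rd v z ∨ Bl v z) →
      (∀ v ∈ Xg, ∀ Q ⊆ Xg, (∀ z ∈ Q, Rd v z ∧ |ξ1 v z| ≤ L ∧ |ξ2 v z| ≤ L) →
        (1 - ε) ^ 2 * ∑ z ∈ Q, ρ z * Real.exp (ξ1 v z + T * ξ2 v z) ≤
          Real.exp (-A + b1 * Real.log (1 / p1) + b2 * KK p2 T)) →
      (∀ v ∈ Xg, ∀ Q ⊆ Xg, (∀ z ∈ Q, Bl v z ∧ |ξ1 v z| ≤ L ∧ |ξ2 v z| ≤ L) →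
        (1 - ε) ^ 2 * ∑ z ∈ Q, ρ z * Real.exp (T * ξ1 v z + ξ2 v z) ≤
          Real.exp (-W + b2 * Real.log (1 / p2) + b1 * KK p1 T)) →
      False) :
    ∀ n a t : ℕ, a + t ≤ n → a ≤ k → t ≤ l → ∀ X' Y1' Y2' : Finset V, Y1' ⊆ Y1 → Y2' ⊆ Y2 →
      NoCl G a (X' ∪ Y1') → NoCl Gᶜ t (X' ∪ Y2') →
      ∀ (m1 m2 : V → ℝ) (u w : ℝ), (∀ y ∈ Y1', 0 ≤ m1 y) → (∀ y ∈ Y2', 0 ≤ m2 y) →
        ∑ y ∈ Y1', m1 y = 1 → ∑ y ∈ Y2', m2 y = 1 → 0 ≤ u → 0 ≤ w →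
        SS (ri G) (ri Gᶜ) p1 p2 N X' Y1' Y2' m1 m2 u w ≤
          Real.exp (LM1 + LM2) / ε * Real.exp (A * a + W * t) *
            (ren b1 N Y1' m1 ^ N * ren b2 N Y2' m2 ^ N) := by
  intro n
  induction n with
  | zero =>
    intro a t hat _ _ X' Y1' Y2' _ _ hXa _
    have : a = 0 := by omega
    subst this
    exact absurd hXa (not_noCl_zero _ _)
  | succ n ih =>
    intro a t hat hak htl X' Y1' Y2' hY1 hY2 hXa hXt
    rcases a with _ | a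
    · exact absurd hXa (not_noCl_zero _ _)
    rcases t with _ | t
    · exact absurd hXt (not_noCl_zero _ _)
    intro m1 m2 u w hm1 hm2 hs1 hs2 hu hw
    by_contra hcon
    push Not at hcon
    have hne1 : Y1'.Nonempty := by
      rw [nonempty_iff_ne_empty]
      rintro rfl
      rw [sum_empty] at hs1
      exact zero_ne_one hs1
    have hne2 : Y2'.Nonempty := by
      rw [nonempty_iff_ne_empty]
      rintro rfl
      rw [sum_empty] at hs2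
      exact zero_ne_one hs2
    obtain ⟨n1, n2, c, d, hn1, hn2, hns1, hns2, hc, hd, hmax⟩ :=
      exists_max2 (r1 := ri G) (r2 := ri Gᶜ) (p1 := p1) (p2 := p2) (β1 := b1) (β2 := b2) (N := N)
        (X := X') (Y1 := Y1') (Y2 := Y2') (ri_zero_or_one G) (ri_zero_or_one Gᶜ) hp1.le hp2.le
        hb1 hb2 hne1 hne2
    obtain ⟨S, hSd⟩ : ∃ S, S = SS (ri G) (ri Gᶜ) p1 p2 N X' Y1' Y2' n1 n2 c d := ⟨_, rfl⟩
    obtain ⟨Θ, hΘd⟩ : ∃ Θ, Θ = Real.exp (LM1 + LM2) / ε *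
      Real.exp (A * ((a + 1 : ℕ) : ℝ) + W * ((t + 1 : ℕ) : ℝ)) := ⟨_, rfl⟩
    have hΘ0 : 0 < Θ := by rw [hΘd]; positivity
    rw [← hΘd] at hcon
    rw [← hSd] at hmax
    have hP1 : 0 < ren b1 N Y1' n1 ^ N := pow_pos (ren_pos hn1 hns1) _
    have hP2 : 0 < ren b2 N Y2' n2 ^ N := pow_pos (ren_pos hn2 hns2) _
    have hq1 : 0 < ren b1 N Y1' m1 ^ N := pow_pos (ren_pos hm1 hs1) _
    have hq2 : 0 < ren b2 N Y2' m2 ^ N := pow_pos (ren_pos hm2 hs2) _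
    -- the maximal value is large
    have hSΘ : Θ * (ren b1 N Y1' n1 ^ N * ren b2 N Y2' n2 ^ N) < S := by
      have h1 := hmax m1 m2 u w hm1 hm2 hs1 hs2 hu hw
      have h2 := mul_lt_mul_of_pos_right hcon (mul_pos hP1 hP2)
      have h3 : Θ * (ren b1 N Y1' n1 ^ N * ren b2 N Y2' n2 ^ N) *
          (ren b1 N Y1' m1 ^ N * ren b2 N Y2' m2 ^ N) <
          S * (ren b1 N Y1' m1 ^ N * ren b2 N Y2' m2 ^ N) := by
        refine lt_of_lt_of_le (lt_of_eq_of_lt ?_ h2) h1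
        ring
      exact lt_of_mul_lt_mul_right h3 (mul_pos hq1 hq2).le
    have hS0 : 0 < S := lt_trans (mul_pos hΘ0 (mul_pos hP1 hP2)) hSΘ
    have hinv : 1 / S ≤ ε := by
      rw [div_le_iff₀ hS0]
      have h1 := ren_pow_ge (β := b1) hN hb1 hne1 hn1 hns1
      have h2 := ren_pow_ge (β := b2) hN hb2 hne2 hn2 hns2
      have h3 := hR1 (a + 1) hak Y1' hY1 hne1 (hXa.mono subset_union_right)
      have h4 := hR2 (t + 1) htl Y2' hY2 hne2 (hXt.mono subset_union_right)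
      have h5 : Real.exp (-(LM1 + A * ((a + 1 : ℕ) : ℝ))) ≤ ren b1 N Y1' n1 ^ N :=
        (Real.exp_le_exp.2 (neg_le_neg h3)).trans h1
      have h6 : Real.exp (-(LM2 + W * ((t + 1 : ℕ) : ℝ))) ≤ ren b2 N Y2' n2 ^ N :=
        (Real.exp_le_exp.2 (neg_le_neg h4)).trans h2
      have h7 : Θ * (Real.exp (-(LM1 + A * ((a + 1 : ℕ) : ℝ))) *
          Real.exp (-(LM2 + W * ((t + 1 : ℕ) : ℝ)))) = 1 / ε := by
        rw [hΘd, ← Real.exp_add, div_mul_eq_mul_div, ← Real.exp_add, div_mul_eq_mul_div,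
          ← Real.exp_add]
        congr 1
        rw [← Real.exp_zero]
        congr 1
        ring
      have h8 : 1 / ε ≤ S := by
        rw [← h7]
        refine le_trans ?_ hSΘ.le
        exact mul_le_mul_of_nonneg_left (mul_le_mul h5 h6 (Real.exp_pos _).le hP1.le) hΘ0.le
      rw [div_le_iff₀ hε0] at h8
      linarith
    -- the distribution
    obtain ⟨ρ, hρ⟩ : ∃ ρ : V → ℝ, ρ = fun z => ph c (ex (ri G) p1 Y1' n1 z) ^ (N ^ 2) *
      ph d (ex (ri Gᶜ) p2 Y2' n2 z) ^ (N ^ 2) / S := ⟨_, rfl⟩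
    have hρS : ∀ z, ρ z * S = ph c (ex (ri G) p1 Y1' n1 z) ^ (N ^ 2) *
      ph d (ex (ri Gᶜ) p2 Y2' n2 z) ^ (N ^ 2) := by
      intro z
      rw [hρ]
      exact div_mul_cancel₀ _ hS0.ne'
    have hρε : ∀ z ∈ X', ρ z ≤ ε := by
      intro z _
      refine le_trans ?_ hinv
      rw [le_div_iff₀ hS0, hρS]
      have g1 := pow_le_one₀ (n := N ^ 2) (ph_nonneg c (ex (ri G) p1 Y1' n1 z))
        (ph_le_one hc (ex_le_one (ri_zero_or_one G) hp1.le hn1 hns1 z))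
      have g2 := pow_le_one₀ (n := N ^ 2) (ph_nonneg d (ex (ri Gᶜ) p2 Y2' n2 z))
        (ph_le_one hd (ex_le_one (ri_zero_or_one Gᶜ) hp2.le hn2 hns2 z))
      exact mul_le_one₀ g1 (pow_nonneg (ph_nonneg _ _) _) g2
    -- both sides
    have side1 : Side X' Y1' (ri G) p1 b1 N ρ n1 c := by
      have hSe : S = S1 (ri G) p1 N X' Y1' (fun z => ph d (ex (ri Gᶜ) p2 Y2' n2 z) ^ (N ^ 2)) n1 c :=
        hSd
      have h := side_of (r := ri G) (p := p1) (β := b1) (N := N) (X := X') (Y := Y1') (m := n1)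
        (u := c) (g := fun z => ph d (ex (ri Gᶜ) p2 Y2' n2 z) ^ (N ^ 2)) (ri_zero_or_one G) hN
        (fun z _ => pow_nonneg (ph_nonneg _ _) _) hn1 hns1 hc (by rw [← hSe]; exact hS0) (by
          intro m' u' g1 g2 g3
          rw [← hSe]
          have h1 := hmax m' n2 u' d g1 hn2 g2 hns2 g3 hd
          rw [← mul_assoc, ← mul_assoc] at h1
          exact le_of_mul_le_mul_right h1 hP2)
      rw [← hSe, ← hρ] at h
      exact h
    have side2 : Side X' Y2' (ri Gᶜ) p2 b2 N ρ n2 d := by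
      have hcomm : ∀ (m1 m2 : V → ℝ) (u w : ℝ), SS (ri G) (ri Gᶜ) p1 p2 N X' Y1' Y2' m1 m2 u w =
          S1 (ri Gᶜ) p2 N X' Y2' (fun z => ph u (ex (ri G) p1 Y1' m1 z) ^ (N ^ 2)) m2 w := by
        intro m1 m2 u w
        unfold SS S1
        exact sum_congr rfl fun z _ => mul_comm _ _
      have hSe : S = S1 (ri Gᶜ) p2 N X' Y2' (fun z => ph c (ex (ri G) p1 Y1' n1 z) ^ (N ^ 2)) n2 d := by
        rw [hSd, hcomm]
      have hρ' : ρ = fun z => ph d (ex (ri Gᶜ) p2 Y2' n2 z) ^ (N ^ 2) *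
          ph c (ex (ri G) p1 Y1' n1 z) ^ (N ^ 2) / S := by
        rw [hρ]
        funext z
        rw [mul_comm (ph c (ex (ri G) p1 Y1' n1 z) ^ (N ^ 2))]
      have h := side_of (r := ri Gᶜ) (p := p2) (β := b2) (N := N) (X := X') (Y := Y2') (m := n2)
        (u := d) (g := fun z => ph c (ex (ri G) p1 Y1' n1 z) ^ (N ^ 2)) (ri_zero_or_one Gᶜ) hN
        (fun z _ => pow_nonneg (ph_nonneg _ _) _) hn2 hns2 hd (by rw [← hSe]; exact hS0) (by
          intro m' u' g1 g2 g3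
          rw [← hSe]
          have h1 := hmax n1 m' c u' hn1 g1 hns1 g2 hc g3
          rw [hcomm] at h1
          have h2 : S1 (ri Gᶜ) p2 N X' Y2' (fun z => ph c (ex (ri G) p1 Y1' n1 z) ^ (N ^ 2)) m' u' *
              ren b2 N Y2' n2 ^ N * ren b1 N Y1' n1 ^ N ≤
              S * ren b2 N Y2' m' ^ N * ren b1 N Y1' n1 ^ N := by linarith
          exact le_of_mul_le_mul_right h2 hP1)
      rw [← hSe, ← hρ'] at h
      exact h
    obtain ⟨X1, ξ1, K1, mH1, mS1, uH1, uS1, o1⟩ := hS1 X' Y1' (ri G) ρ n1 c side1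
    obtain ⟨X2, ξ2, K2, mH2, mS2, uH2, uS2, o2⟩ := hS2 X' Y2' (ri Gᶜ) ρ n2 d side2
    have hρ0 := side1.hρ0
    have hρ1 := side1.hρ1
    refine hC X' (X1 ∩ X2) Y1' Y2' ρ ξ1 ξ2 K1 K2 (fun v z => G.Adj v z) (fun v z => Gᶜ.Adj v z)
      (inter_subset_left.trans o1.hXg) hρ0 hρ1 ?_ hρε
      (fun v hv => o1.hmean v (mem_inter.1 hv).1) (fun v hv => o2.hmean v (mem_inter.1 hv).2)
      (fun v hv => o1.hmom v (mem_inter.1 hv).1) (fun v hv => o2.hmom v (mem_inter.1 hv).2)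
      ?_ ?_ (fun v hv z hz => o1.hclose v (mem_inter.1 hv).1 z (mem_inter.1 hz).1)
      (fun v hv z hz => o2.hclose v (mem_inter.1 hv).2 z (mem_inter.1 hz).2) ?_ ?_ ?_
    · have h1 := sum_union_inter (s₁ := X1) (s₂ := X2) (f := ρ)
      have h2 : ∑ z ∈ X1 ∪ X2, ρ z ≤ ∑ z ∈ X', ρ z :=
        sum_le_sum_of_subset_of_nonneg (union_subset o1.hXg o2.hXg) fun z hz _ => hρ0 z hz
      have h3 := o1.hbad
      have h4 := o2.hbad
      linarith
    · obtain ⟨wt, g, hw, hg⟩ := o1.hgram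
      exact ⟨wt, g, hw, fun v hv z hz => hg v (mem_inter.1 hv).1 z (mem_inter.1 hz).1⟩
    · obtain ⟨wt, g, hw, hg⟩ := o2.hgram
      exact ⟨wt, g, hw, fun v hv z hz => hg v (mem_inter.1 hv).2 z (mem_inter.1 hz).2⟩
    · intro v _ z _ hvz
      by_cases h : G.Adj v z
      · exact Or.inl h
      · exact Or.inr ((SimpleGraph.compl_adj _ _ _).2 ⟨hvz, h⟩)
    · -- red step
      intro v hv Q hQ hQp
      have hv1 := (mem_inter.1 hv).1
      have hv2 := (mem_inter.1 hv).2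
      have hQX : Q ⊆ nb G v X' := fun z hz =>
        mem_nb.2 ⟨o1.hXg (mem_inter.1 (hQ hz)).1, (hQp z hz).1⟩
      have hr := o1.hHr v hv1
      refine cont_step o1 o2 hε1 hp1 hv1 hv2 (hQ.trans inter_subset_left)
        (hQ.trans inter_subset_right) hQX (fun z hz => (hQp z hz).2) hρ0 hS0 hρS hn1 hn2 hN
        (Θ := Θ) ?_ hSΘ.le
      have h := ih a (t + 1) (by omega) (by omega) htl (nb G v X') (nb G v Y1') Y2'
        ((nb_subset _ _ _).trans hY1) hY2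
        (hXa.step (mem_union_left _ (o1.hXg hv1))
          (union_subset_union (nb_subset _ _ _) (nb_subset _ _ _))
          (fun z hz => by
            rcases mem_union.1 hz with h | h
            · exact (mem_nb.1 h).2
            · exact (mem_nb.1 h).2))
        (hXt.mono (union_subset_union (nb_subset _ _ _) Subset.rfl))
        (mH1 v) (mS2 v) (uH1 v) (uS2 v)
        (fun y hy => o1.hH0 v hv1 y (nb_subset _ _ _ hy)) (o2.hS0 v hv2)
        (by rw [sum_restrict hr]; exact o1.hH1 v hv1) (o2.hS1 v hv2) (o1.hHu v hv1) (o2.hSu v hv2)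
      rw [ren_restrict hb1 hr] at h
      unfold SS at h
      simp only [ex_restrict (ri G) hr] at h
      refine h.trans (le_of_eq ?_)
      congr 1
      rw [hΘd, mul_assoc, ← Real.exp_add]
      congr 2
      push_cast
      ring
    · -- blue step
      intro v hv Q hQ hQp
      have hv1 := (mem_inter.1 hv).1
      have hv2 := (mem_inter.1 hv).2
      have hQX : Q ⊆ nb Gᶜ v X' := fun z hz =>
        mem_nb.2 ⟨o1.hXg (mem_inter.1 (hQ hz)).1, (hQp z hz).1⟩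
      have hr := o2.hHr v hv2
      have e0 : ∀ z ∈ Q, ρ z * Real.exp (T * ξ1 v z + ξ2 v z) =
          ρ z * Real.exp (ξ2 v z + T * ξ1 v z) := fun z _ => by rw [add_comm]
      rw [sum_congr rfl e0]
      refine cont_step o2 o1 hε1 hp2 hv2 hv1 (hQ.trans inter_subset_right)
        (hQ.trans inter_subset_left) hQX (fun z hz => (hQp z hz).2.symm) hρ0 hS0
        (fun z => by rw [hρS, mul_comm]) hn2 hn1 hN
        (Θ := Θ) ?_ (by rw [mul_comm (ren b2 N Y2' n2 ^ N)]; exact hSΘ.le)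
      have h := ih (a + 1) t (by omega) hak (by omega) (nb Gᶜ v X') Y1' (nb Gᶜ v Y2')
        hY1 ((nb_subset _ _ _).trans hY2)
        (hXa.mono (union_subset_union (nb_subset _ _ _) Subset.rfl))
        (hXt.step (mem_union_left _ (o1.hXg hv1))
          (union_subset_union (nb_subset _ _ _) (nb_subset _ _ _))
          (fun z hz => by
            rcases mem_union.1 hz with h | h
            · exact (mem_nb.1 h).2
            · exact (mem_nb.1 h).2))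
        (mS1 v) (mH2 v) (uS1 v) (uH2 v)
        (o1.hS0 v hv1) (fun y hy => o2.hH0 v hv2 y (nb_subset _ _ _ hy)) (o1.hS1 v hv1)
        (by rw [sum_restrict hr]; exact o2.hH1 v hv2) (o1.hSu v hv1) (o2.hHu v hv2)
      rw [ren_restrict hb2 hr] at h
      unfold SS at h
      simp only [ex_restrict (ri Gᶜ) hr] at h
      have e1 : ∀ z ∈ nb Gᶜ v X', ph (uH2 v) (ex (ri Gᶜ) p2 Y2' (mH2 v) z) ^ (N ^ 2) *
          ph (uS1 v) (ex (ri G) p1 Y1' (mS1 v) z) ^ (N ^ 2) =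
          ph (uS1 v) (ex (ri G) p1 Y1' (mS1 v) z) ^ (N ^ 2) *
          ph (uH2 v) (ex (ri Gᶜ) p2 Y2' (mH2 v) z) ^ (N ^ 2) := fun z _ => mul_comm _ _
      rw [sum_congr rfl e1]
      refine h.trans (le_of_eq ?_)
      rw [mul_comm (ren b1 N Y1' (mS1 v) ^ N)]
      congr 1
      rw [hΘd, mul_assoc, ← Real.exp_add]
      congr 2
      push_cast
      ring

/-! ### The two-reservoir book theorem -/

lemma ex_unif {V : Type} [DecidableEq V] {G : SimpleGraph V} {Y : Finset V} {p : ℝ} (z : V)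
    (hY : Y.Nonempty) :
    ex (ri G) p Y (fun _ => (Y.card : ℝ)⁻¹) z = ((nb G z Y).card : ℝ) / Y.card - p := by
  classical
  have hc : (0 : ℝ) < Y.card := by exact_mod_cast hY.card_pos
  have h1 : ∑ y ∈ Y, ri G z y = ((nb G z Y).card : ℝ) := by
    unfold ri nb
    rw [← sum_filter, sum_const, nsmul_eq_mul, mul_one]
  unfold ex
  rw [← mul_sum, sum_sub_distrib, h1, sum_const, nsmul_eq_mul]
  field_simp

theorem tbook_of (hS : SideMain) (hC : Combine) : TBookThm := by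
  intro T g0 a b d e dl B0 p1 p2 b1 b2 A W hcert hpk δ0 hδ0
  have hp1 : 0 < p1 := by linarith [hpk.hp1]
  have hp2 : 0 < p2 := by linarith [hpk.hp2]
  have hB0 : 0 ≤ B0 := by
    have h1 : 0 ≤ b1 * (1 - p1) := mul_nonneg hpk.hb1.le (by linarith [hpk.hp1'])
    have h2 : 0 ≤ B0 * p1 := h1.trans hpk.hB1
    exact nonneg_of_mul_nonneg_left h2 hp1
  have hC4 : 0 ≤ C8c B0 := by
    unfold C8c
    have : 1 ≤ Real.exp (B0 / 25) := Real.one_le_exp (by positivity)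
    nlinarith
  obtain ⟨L, ε, hL, hε0, hε1, hcomb⟩ := hC T g0 a b d e dl (C8c B0)
    (Real.exp (-A + b1 * Real.log (1 / p1) + b2 * KK p2 T))
    (Real.exp (-W + b2 * Real.log (1 / p2) + b1 * KK p1 T)) hcert hC4 (Real.exp_pos _).le
    (Real.exp_pos _).le hpk.hwin
  obtain ⟨N1, hN1⟩ := hS p1 b1 T B0 hpk.hp1 hpk.hp1' hpk.hb1 hcert.hT0 hcert.hT1 hpk.hB1 L ε hL hε0
  obtain ⟨N2, hN2⟩ := hS p2 b2 T B0 hpk.hp2 hpk.hp2' hpk.hb2 hcert.hT0 hcert.hT1 hpk.hB2 L ε hL hε0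
  obtain ⟨N, hNd⟩ : ∃ N, N = max (max N1 N2) 1 := ⟨_, rfl⟩
  have hNN1 : N1 ≤ N := by rw [hNd]; exact (le_max_left _ _).trans (le_max_left _ _)
  have hNN2 : N2 ≤ N := by rw [hNd]; exact (le_max_right _ _).trans (le_max_left _ _)
  have hN : 1 ≤ N := by rw [hNd]; exact le_max_right _ _
  refine ⟨-Real.log ε - 4 * N ^ 2 * Real.log δ0, ?_⟩
  intro V _ G k l LM1 LM2 X Y1 Y2 hX hY1 hY2 hXk hXl hR1 hR2 hd1 hd2
  have hkey := key (V := V) (G := G) (k := k) (l := l) (N := N) (LM1 := LM1) (LM2 := LM2)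
    (A := A) (W := W) (p1 := p1) (p2 := p2) (b1 := b1) (b2 := b2) (T := T) (L := L) (ε := ε)
    (C4 := C8c B0) (Y1 := Y1) (Y2 := Y2) hN hp1 hp2 hpk.hb1 hpk.hb2 hε0 hε1 hR1 hR2
    (hN1 N hNN1 V) (hN2 N hNN2 V) (hcomb V) (k + l) k l le_rfl le_rfl le_rfl X Y1 Y2 Subset.rfl
    Subset.rfl hXk hXl (fun _ => (Y1.card : ℝ)⁻¹) (fun _ => (Y2.card : ℝ)⁻¹) δ0 δ0
    (fun _ _ => by positivity) (fun _ _ => by positivity)
    (by rw [sum_const, nsmul_eq_mul, mul_inv_cancel₀]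
        exact_mod_cast hY1.card_pos.ne')
    (by rw [sum_const, nsmul_eq_mul, mul_inv_cancel₀]
        exact_mod_cast hY2.card_pos.ne')
    hδ0.le hδ0.le
  rw [ren_unif hN hY1, ren_unif hN hY2] at hkey
  have hlow : (X.card : ℝ) * δ0 ^ (4 * N ^ 2) ≤ SS (ri G) (ri Gᶜ) p1 p2 N X Y1 Y2
      (fun _ => (Y1.card : ℝ)⁻¹) (fun _ => (Y2.card : ℝ)⁻¹) δ0 δ0 := by
    unfold SS
    rw [← nsmul_eq_mul, ← sum_const]
    refine sum_le_sum fun z hz => ?_
    have hc1 : (0 : ℝ) < Y1.card := by exact_mod_cast hY1.card_pos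
    have hc2 : (0 : ℝ) < Y2.card := by exact_mod_cast hY2.card_pos
    have hs1 : δ0 ≤ ex (ri G) p1 Y1 (fun _ => (Y1.card : ℝ)⁻¹) z := by
      rw [ex_unif z hY1, le_sub_iff_add_le, le_div_iff₀ hc1, add_comm]
      exact hd1 z hz
    have hs2 : δ0 ≤ ex (ri Gᶜ) p2 Y2 (fun _ => (Y2.card : ℝ)⁻¹) z := by
      rw [ex_unif z hY2, le_sub_iff_add_le, le_div_iff₀ hc2, add_comm]
      exact hd2 z hz
    have hph : ∀ s : ℝ, δ0 ≤ s → δ0 ^ 2 ≤ ph δ0 s := by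
      intro s hs
      unfold ph
      refine le_trans ?_ (le_max_left _ _)
      nlinarith [mul_nonneg hδ0.le (by linarith : 0 ≤ s - δ0)]
    have e1 : δ0 ^ (4 * N ^ 2) = (δ0 ^ 2) ^ (N ^ 2) * (δ0 ^ 2) ^ (N ^ 2) := by
      rw [← pow_mul, ← pow_add]
      congr 1
      ring
    rw [e1]
    exact mul_le_mul (pow_le_pow_left₀ (by positivity) (hph _ hs1) _)
      (pow_le_pow_left₀ (by positivity) (hph _ hs2) _) (by positivity)
      (pow_nonneg (ph_nonneg _ _) _)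
  have hcX : (0 : ℝ) < X.card := by exact_mod_cast hX.card_pos
  have hfin := hlow.trans hkey
  have hlog := Real.log_le_log (by positivity) hfin
  rw [Real.log_mul hcX.ne' (by positivity), Real.log_pow, ← Real.exp_add, Real.log_mul (by positivity)
    (Real.exp_pos _).ne', Real.log_exp, Real.log_mul (by positivity) (Real.exp_pos _).ne',
    Real.log_exp, Real.log_div (Real.exp_pos _).ne' hε0.ne', Real.log_exp] at hlog
  push_cast at hlog
  linarith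

end W478R
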