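import Pool.Agent.W478R.Side5
import Pool.Agent.W478R.Ind
import Pool.Agent.W389.R2.Combine
import Pool.Agent.W22.RS.Hard
import Pool.Agent.W22.RS.Soft
import Pool.Agent.W22.RS.Mom
import Pool.Agent.W460.RS.Cert

/-! The two-reservoir book theorem, assembled. -/

namespace W478R

open H110R2

theorem sideMain : SideMain :=
  sideMain_of Pool.Agent.W22.RS.hardScalar Pool.Agent.W22.RS.softScalar
    Pool.Agent.W22.RS.momScalar Pool.Agent.W22.RS.hSmall

/-- **Two-reservoir book theorem.** -/
theorem tbookThm : TBookThm := tbook_of sideMain Pool.Agent.W389.R2.combine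

/-- numeric form with the explicit certificate -/
theorem tbook_num (B0 p1 p2 b1 b2 A W : ℝ)
    (h : PK (2 / 5) (4459 / 10000) (5 / 10 ^ 15) B0 p1 p2 b1 b2 A W) : TBook p1 p2 b1 b2 A W :=
  tbookThm _ _ _ _ _ _ _ B0 p1 p2 b1 b2 A W Pool.Agent.W460.RS.cert h

end W478R
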