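import Pool.Agent.W478R.Global2
import Pool.Agent.H110R2.Check
import Pool.Agent.H111R2.DataXF

/-!
# The family of lines proved in `H111R2` as a black box
-/

open Finset

namespace W478R

open H110R2

lemma noCl_kfree {V : Type} [DecidableEq V] (G : SimpleGraph V) (a : ℕ) (S : Finset V)
    (h : NoCl G a S) : Pool.Agent.H111R2.KFree G S a := fun t ht => h t ht

/-- the lines of the certificate of `H111R2` -/
theorem old_bd : ∃ C : ℝ, 1 ≤ C ∧
    ∀ a b : ℕ, BdAt (Pool.Agent.H111R2.clX.map (rl 1000000000)) C a b := by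
  obtain ⟨C, hC, h⟩ := Pool.Agent.H111R2.main_of_check3 _ _ _ Pool.Agent.H111R2.checkX
  rw [Pool.Agent.H111R2.clX_eq] at h
  refine ⟨max C 1, le_max_right _ _, ?_⟩
  intro a b V _ G Z h1 h2 L hL
  obtain ⟨f, hf, rfl⟩ := List.mem_map.mp hL
  have h3 := h a b G Z (noCl_kfree G a Z h1) (noCl_kfree Gᶜ b Z h2) f hf
  have hE1 : (0 : ℝ) < Real.exp (lv (rl 1000000000 f) a b) := Real.exp_pos _
  have hE2 : (0 : ℝ) < Real.exp (lv (rl 1000000000 f) b a) := Real.exp_pos _
  have e1 : Pool.Agent.H111R2.Bd C f a b = C * Real.exp (lv (rl 1000000000 f) a b) := rfl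
  have e2 : Pool.Agent.H111R2.Bd C (f.2, f.1) a b = C * Real.exp (lv (rl 1000000000 f) b a) := by
    unfold Pool.Agent.H111R2.Bd lv rl
    simp only
    congr 2
    ring
  rw [e1, e2] at h3
  have m1 : C * Real.exp (lv (rl 1000000000 f) a b)
      ≤ max C 1 * Real.exp (lv (rl 1000000000 f) a b) :=
    mul_le_mul_of_nonneg_right (le_max_left _ _) hE1.le
  have m2 : C * Real.exp (lv (rl 1000000000 f) b a)
      ≤ max C 1 * Real.exp (lv (rl 1000000000 f) b a) :=
    mul_le_mul_of_nonneg_right (le_max_left _ _) hE2.le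
  constructor
  · linarith [h3.1]
  · linarith [h3.2]

end W478R
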