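import Pool.Agent.W478R.Defs

/-! Scalar limit lemmas needed in the one-sided analysis (statements). -/

namespace W478R

open H110R2

/-- `η = (1+γ)/(2N) h`, `γ = β/N` -/
noncomputable def eta (β : ℝ) (N : ℕ) (h : ℝ) : ℝ := (1 + β / N) / (2 * N) * h

/-- hard cost -/
def HardScalar : Prop :=
  ∀ (p β L ε : ℝ), 0 < p → p < 1 → 0 < β → 0 < L → 0 < ε → ε < 1 → ∃ δ : ℝ, 0 < δ ∧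
  ∀ (N : ℕ) (h Z ξ Γ : ℝ), 1 ≤ δ * N → |h| ≤ δ → |Z - 1| ≤ δ → |ξ| ≤ L → 0 ≤ Γ →
    Γ ≤ (1 / (p * Z)) ^ (β / N) * (1 + h) →
    (1 - ε) * Real.exp ξ * p ^ β * Γ ^ N
      ≤ (1 + eta β N h) ^ (2 * N ^ 2) * (max (1 + ξ / ((N : ℝ) ^ 2 * (1 + eta β N h))) 0) ^ (N ^ 2)

/-- soft cost -/
def SoftScalar : Prop :=
  ∀ (p β T L ε : ℝ), 0 < p → p < 1 → 0 < β → 0 < T → T < 1 → 0 < L → 0 < ε → ε < 1 →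
  ∃ δ : ℝ, 0 < δ ∧
  ∀ (N : ℕ) (h Z ξ Γ : ℝ), 1 ≤ δ * N → |h| ≤ δ → |Z - 1| ≤ δ → |ξ| ≤ L → 0 ≤ Γ →
    Γ ≤ (1 - (1 + h) * (p * Z)) * (1 - T) ^ (1 + β / N)
      + (1 + h) * (p * Z) * (1 - T + T / (p * Z)) ^ (1 + β / N) →
    (1 - ε) * Real.exp (T * ξ) * Real.exp (-(β * KK p T)) * Γ ^ N
      ≤ (1 + T * eta β N h) ^ (2 * N ^ 2)
        * (max (1 + T * ξ / ((N : ℝ) ^ 2 * (1 + T * eta β N h))) 0) ^ (N ^ 2)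

/-- moment bound -/
def MomScalar : Prop :=
  ∀ (p β B0 ε : ℝ), 1 / 5 < p → p < 1 → 0 < β → β * (1 - p) ≤ B0 * p → 0 < ε →
  ∃ δ : ℝ, 0 < δ ∧
  ∀ (N : ℕ) (h Z s Γ M : ℝ), 1 ≤ δ * N → |h| ≤ δ → |Z - 1| ≤ δ → (s = 1 / 5 ∨ s = -(1 / 5)) →
    0 ≤ Γ → 0 ≤ M →
    Γ ≤ 1 + (1 + β / N) * (s * h) + β / N * (s ^ 2 * ((1 + h) / (p * Z) - 1 - 2 * h)) →
    (1 + s * eta β N h) ^ (2 * N ^ 2)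
      * (1 + ((N ^ 2).choose 8 : ℝ) / ((N : ℝ) ^ 2) ^ 8 * (M / (1 + s * eta β N h) ^ 8)) ≤ Γ ^ N →
    M / s ^ 8 ≤ 15750000000 * (Real.exp (B0 / 25) - 1) + ε

/-- smallness of `h` -/
def HSmall : Prop :=
  ∀ (p β δ : ℝ), 0 < p → p < 1 → 0 < β → 0 < δ → ∃ N0 : ℕ, 0 < N0 ∧ ∀ N : ℕ, N0 ≤ N →
  ∀ (h Z Γ : ℝ), -1 ≤ h → 1 / 2 ≤ Z → Z ≤ 2 → 1 + h ≤ 1 / (p * Z) → 0 ≤ Γ →
    Γ ≤ (1 / (p * Z)) ^ (β / N) * (1 + h) →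
    (1 + eta β N h) ^ (2 * N ^ 2) ≤ Γ ^ N → |h| ≤ δ

end W478R
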