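import Pool.Agent.W478R.Defs

open Finset

namespace W478R

variable {V : Type}

/-- first order condition for `(1 + ((1+t)^(1+γ) - 1) s)^N (1 + t μ)^κ ≥ 1 + t α` -/
lemma kkt_scalar {N : ℕ} {γ s μ κ α : ℝ}
    (h : ∀ t : ℝ, -1 < t → t < 1 →
      1 + t * α ≤ (1 + ((1 + t) ^ (1 + γ) - 1) * s) ^ N * (1 + t * μ) ^ κ) :
    α = N * ((1 + γ) * s) + κ * μ := by
  have h1 : HasDerivAt (fun t : ℝ => 1 + ((1 + t) ^ (1 + γ) - 1) * s) ((1 + γ) * s) 0 := by
    have h2 : HasDerivAt (fun t : ℝ => 1 + t) 1 0 := by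
      simpa using (hasDerivAt_id (0 : ℝ)).const_add 1
    have h3 := ((h2.rpow_const (p := 1 + γ) (Or.inl (by norm_num))).sub_const 1).mul_const s
    have h4 := h3.const_add 1
    have e : 1 * (1 + γ) * (1 + 0 : ℝ) ^ (1 + γ - 1) * s = (1 + γ) * s := by
      simp
    rw [e] at h4
    exact h4
  have h5 : HasDerivAt (fun t : ℝ => (1 + ((1 + t) ^ (1 + γ) - 1) * s) ^ N)
      (N * ((1 + γ) * s)) 0 := by
    have := h1.pow N
    have e : (N : ℝ) * (1 + ((1 + 0 : ℝ) ^ (1 + γ) - 1) * s) ^ (N - 1) * ((1 + γ) * s)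
        = N * ((1 + γ) * s) := by simp
    rw [e] at this
    exact this
  have h6 : HasDerivAt (fun t : ℝ => (1 + t * μ) ^ κ) (κ * μ) 0 := by
    have h2 : HasDerivAt (fun t : ℝ => 1 + t * μ) μ 0 := by
      simpa using ((hasDerivAt_id (0 : ℝ)).mul_const μ).const_add 1
    have h3 := h2.rpow_const (p := κ) (Or.inl (by norm_num))
    have e : μ * κ * (1 + 0 * μ) ^ (κ - 1) = κ * μ := by simp [mul_comm]
    rw [e] at h3
    exact h3
  have h7 : HasDerivAt (fun t : ℝ => (1 + ((1 + t) ^ (1 + γ) - 1) * s) ^ N * (1 + t * μ) ^ κ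
      - (1 + t * α)) (N * ((1 + γ) * s) + κ * μ - α) 0 := by
    have h8 := h5.mul h6
    have h9 : HasDerivAt (fun t : ℝ => 1 + t * α) α 0 := by
      simpa using ((hasDerivAt_id (0 : ℝ)).mul_const α).const_add 1
    have h10 := h8.sub h9
    have e : (N : ℝ) * ((1 + γ) * s) * (1 + 0 * μ) ^ κ
        + (1 + ((1 + 0 : ℝ) ^ (1 + γ) - 1) * s) ^ N * (κ * μ) - α
        = N * ((1 + γ) * s) + κ * μ - α := by simp
    rw [e] at h10
    exact h10
  have hmin : IsLocalMin (fun t : ℝ => (1 + ((1 + t) ^ (1 + γ) - 1) * s) ^ N * (1 + t * μ) ^ κ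
      - (1 + t * α)) 0 := by
    have hU : Set.Ioo (-1 : ℝ) 1 ∈ nhds (0 : ℝ) := Ioo_mem_nhds (by norm_num) (by norm_num)
    filter_upwards [hU] with t ht
    have := h t ht.1 ht.2
    simp only [add_zero, Real.one_rpow, sub_self, zero_mul, one_pow, mul_one]
    linarith
  have h0 := hmin.hasDerivAt_eq_zero h7
  linarith

/-- tangent line inequality -/
lemma tangent {n : ℕ} {q q' : ℝ} (hq : 0 < q) : 1 + n * (q' / q - 1) ≤ (max q' 0 / q) ^ n := by
  have h1 : 0 ≤ max q' 0 / q := div_nonneg (le_max_right _ _) hq.le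
  have h2 : q' / q ≤ max q' 0 / q := div_le_div_of_nonneg_right (le_max_left _ _) hq.le
  have h3 := one_add_mul_le_pow (a := max q' 0 / q - 1) (by linarith) n
  have h4 : (1 + (max q' 0 / q - 1)) = max q' 0 / q := by ring
  rw [h4] at h3
  have h5 : (n : ℝ) * (q' / q - 1) ≤ n * (max q' 0 / q - 1) :=
    mul_le_mul_of_nonneg_left (by linarith) (Nat.cast_nonneg _)
  linarith

namespace Side

variable {X Y : Finset V} {r : V → V → ℝ} {p β : ℝ} {N : ℕ} {ρ m : V → ℝ} {u : ℝ}

/-- `q z = 2 u e(z) - u^2` -/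
noncomputable def qq (Y : Finset V) (r : V → V → ℝ) (p : ℝ) (m : V → ℝ) (u : ℝ) (z : V) : ℝ :=
  2 * u * ex r p Y m z - u ^ 2

/-- `χ z = u^2 / q z` -/
noncomputable def chi (Y : Finset V) (r : V → V → ℝ) (p : ℝ) (m : V → ℝ) (u : ℝ) (z : V) : ℝ :=
  u ^ 2 / qq Y r p m u z

/-- `σ y = m y ^ (1+γ) / ren` -/
noncomputable def sig (Y : Finset V) (β : ℝ) (N : ℕ) (m : V → ℝ) (y : V) : ℝ :=
  m y ^ (1 + β / N) / ren β N Y m

lemma ren_pos (h : Side X Y r p β N ρ m u) : 0 < ren β N Y m := by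
  have h1 : ∃ y ∈ Y, 0 < m y := by
    by_contra hno
    push Not at hno
    have : ∑ y ∈ Y, m y ≤ 0 := sum_nonpos hno
    rw [h.hm1] at this
    linarith
  obtain ⟨y, hy, hpos⟩ := h1
  unfold ren
  refine sum_pos' (fun y hy => Real.rpow_nonneg (h.hm0 y hy) _) ⟨y, hy, Real.rpow_pos_of_pos hpos _⟩

lemma sig_nonneg (h : Side X Y r p β N ρ m u) {y : V} (hy : y ∈ Y) : 0 ≤ sig Y β N m y :=
  div_nonneg (Real.rpow_nonneg (h.hm0 y hy) _) h.ren_pos.le

lemma sig_sum (h : Side X Y r p β N ρ m u) : ∑ y ∈ Y, sig Y β N m y = 1 := by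
  unfold sig
  rw [← sum_div]
  exact div_self h.ren_pos.ne'

lemma sig_zero (_h : Side X Y r p β N ρ m u) (hβ : 0 < β) {y : V} (hy : m y = 0) :
    sig Y β N m y = 0 := by
  unfold sig
  rw [hy, Real.zero_rpow, zero_div]
  have : 0 ≤ β / N := by positivity
  linarith

/-- the option inequality for unit mass -/
lemma opt_one (h : Side X Y r p β N ρ m u) {m' : V → ℝ} {u' : ℝ} (h0 : ∀ y ∈ Y, 0 ≤ m' y)
    (h1 : ∑ y ∈ Y, m' y = 1) (hu : 0 ≤ u') :
    (∑ z ∈ X, ρ z * (ph u' (ex r p Y m' z) / qq Y r p m u z) ^ (N ^ 2)) * ren β N Y m ^ N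
      ≤ ren β N Y m' ^ N := by
  have := h.hopt m' u' h0 hu
  unfold CC at this
  rw [h1, Real.one_rpow, mul_one] at this
  exact this

lemma qq_pos (h : Side X Y r p β N ρ m u) {z : V} (hz : z ∈ X) (hρ : 0 < ρ z) :
    0 < qq Y r p m u z := h.hq z hz hρ

lemma chi_pos (h : Side X Y r p β N ρ m u) {z : V} (hz : z ∈ X) (hρ : 0 < ρ z) :
    0 < chi Y r p m u z := div_pos (pow_pos h.hu 2) (h.qq_pos hz hρ)

/-- `ρ z * χ z ≥ 0` -/
lemma rc_nonneg (h : Side X Y r p β N ρ m u) {z : V} (hz : z ∈ X) :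
    0 ≤ ρ z * chi Y r p m u z := by
  rcases (h.hρ0 z hz).lt_or_eq with h1 | h1
  · exact mul_nonneg h1.le (h.chi_pos hz h1).le
  · rw [← h1, zero_mul]

/-- `χ (2 e) = u (1 + χ)` -/
lemma chi_ex (h : Side X Y r p β N ρ m u) {z : V} (hz : z ∈ X) (hρ : 0 < ρ z) :
    chi Y r p m u z * (2 * ex r p Y m z) = u * (1 + chi Y r p m u z) := by
  have hq := h.qq_pos hz hρ
  have hu := h.hu
  unfold chi
  rw [div_mul_eq_mul_div, div_eq_iff hq.ne']
  have : u * (1 + u ^ 2 / qq Y r p m u z) * qq Y r p m u z = u * (qq Y r p m u z + u ^ 2) := by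
    field_simp
  rw [this]
  unfold qq
  ring

/-- perturbation of one coordinate -/
lemma ex_update [DecidableEq V] {y0 : V} (hy0 : y0 ∈ Y) (t : ℝ) (z : V) :
    ex r p Y (Function.update m y0 ((1 + t) * m y0)) z
      = ex r p Y m z + t * (m y0 * (r z y0 - p)) := by
  unfold ex
  rw [← Finset.add_sum_erase Y _ hy0, ← Finset.add_sum_erase Y (fun y => m y * (r z y - p)) hy0]
  have : ∑ y ∈ Y.erase y0, Function.update m y0 ((1 + t) * m y0) y * (r z y - p)
      = ∑ y ∈ Y.erase y0, m y * (r z y - p) :=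
    Finset.sum_congr rfl fun y hy => by rw [Function.update_of_ne (Finset.ne_of_mem_erase hy)]
  rw [this, Function.update_self]
  ring

lemma sum_update' [DecidableEq V] {y0 : V} (hy0 : y0 ∈ Y) (t : ℝ) :
    ∑ y ∈ Y, Function.update m y0 ((1 + t) * m y0) y = ∑ y ∈ Y, m y + t * m y0 := by
  rw [← Finset.add_sum_erase Y _ hy0, ← Finset.add_sum_erase Y m hy0]
  have : ∑ y ∈ Y.erase y0, Function.update m y0 ((1 + t) * m y0) y = ∑ y ∈ Y.erase y0, m y :=
    Finset.sum_congr rfl fun y hy => by rw [Function.update_of_ne (Finset.ne_of_mem_erase hy)]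
  rw [this, Function.update_self]
  ring

lemma ren_update [DecidableEq V] (h : Side X Y r p β N ρ m u) {y0 : V} (hy0 : y0 ∈ Y) {t : ℝ}
    (ht : -1 < t) : ren β N Y (Function.update m y0 ((1 + t) * m y0))
      = ren β N Y m * (1 + ((1 + t) ^ (1 + β / N) - 1) * sig Y β N m y0) := by
  have e1 : ren β N Y (Function.update m y0 ((1 + t) * m y0))
      = ren β N Y m + ((1 + t) ^ (1 + β / N) - 1) * m y0 ^ (1 + β / N) := by
    unfold ren
    rw [← Finset.add_sum_erase Y _ hy0, ← Finset.add_sum_erase Y (fun y => m y ^ (1 + β / N)) hy0]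
    have : ∑ y ∈ Y.erase y0, Function.update m y0 ((1 + t) * m y0) y ^ (1 + β / N)
        = ∑ y ∈ Y.erase y0, m y ^ (1 + β / N) :=
      Finset.sum_congr rfl fun y hy => by rw [Function.update_of_ne (Finset.ne_of_mem_erase hy)]
    rw [this, Function.update_self, Real.mul_rpow (by linarith) (h.hm0 y0 hy0)]
    ring
  rw [e1]
  unfold sig
  have := h.ren_pos.ne'
  field_simp

/-- **KKT condition** in each coordinate. -/
lemma kkt [DecidableEq V] (h : Side X Y r p β N ρ m u) (hN : 0 < N) {y0 : V} (hy0 : y0 ∈ Y) :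
    m y0 * ∑ z ∈ X, ρ z * chi Y r p m u z * (r z y0 - p)
      = u * (m y0 + (1 + β / N) / (2 * N) * (sig Y β N m y0 - m y0)) := by
  have hN' : (0 : ℝ) < N := by exact_mod_cast hN
  set S := ∑ z ∈ X, ρ z * chi Y r p m u z * (r z y0 - p) with hS
  have hu := h.hu
  have key := kkt_scalar (N := N) (γ := β / N) (s := sig Y β N m y0) (μ := m y0)
    (κ := 2 * (N : ℝ) ^ 2 - N - β) (α := 2 * (N : ℝ) ^ 2 / u * (m y0 * S)) (by
      intro t ht1 ht2
      have hopt := h.hopt (Function.update m y0 ((1 + t) * m y0)) u (by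
        intro y hy
        by_cases hyy : y = y0
        · subst hyy; rw [Function.update_self]; exact mul_nonneg (by linarith) (h.hm0 y hy)
        · rw [Function.update_of_ne hyy]; exact h.hm0 y hy) hu.le
      unfold CC at hopt
      rw [sum_update' hy0, h.hm1, h.ren_update hy0 ht1, mul_pow] at hopt
      have hlow : 1 + t * (2 * (N : ℝ) ^ 2 / u * (m y0 * S)) ≤
          ∑ z ∈ X, ρ z * (ph u (ex r p Y (Function.update m y0 ((1 + t) * m y0)) z)
            / (2 * u * ex r p Y m z - u ^ 2)) ^ (N ^ 2) := by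
        have e1 : 1 + t * (2 * (N : ℝ) ^ 2 / u * (m y0 * S))
            = ∑ z ∈ X, ρ z * (1 + ((N ^ 2 : ℕ) : ℝ)
              * (2 / u * (chi Y r p m u z * (t * (m y0 * (r z y0 - p)))))) := by
          have : ∀ z ∈ X, ρ z * (1 + ((N ^ 2 : ℕ) : ℝ)
              * (2 / u * (chi Y r p m u z * (t * (m y0 * (r z y0 - p))))))
              = ρ z + t * (2 * (N : ℝ) ^ 2 / u * m y0) * (ρ z * chi Y r p m u z * (r z y0 - p)) := by
            intro z _
            push_cast
            field_simp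
          rw [sum_congr rfl this, sum_add_distrib, ← mul_sum, h.hρ1, ← hS]
          ring
        rw [e1]
        refine sum_le_sum fun z hz => ?_
        rcases (h.hρ0 z hz).lt_or_eq with h1 | h1
        · apply mul_le_mul_of_nonneg_left _ h1.le
          have hq := h.qq_pos hz h1
          have ht := tangent (n := N ^ 2) (q := qq Y r p m u z)
            (q' := 2 * u * ex r p Y (Function.update m y0 ((1 + t) * m y0)) z - u ^ 2) hq
          unfold ph
          refine le_trans (le_of_eq ?_) ht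
          congr 1
          congr 1
          rw [ex_update hy0]
          unfold chi
          rw [eq_sub_iff_add_eq, eq_div_iff hq.ne']
          have : (2 / u * (u ^ 2 / qq Y r p m u z * (t * (m y0 * (r z y0 - p)))) + 1)
              * qq Y r p m u z = 2 * u * (t * (m y0 * (r z y0 - p))) + qq Y r p m u z := by
            field_simp
          rw [this]
          unfold qq
          ring
        · rw [← h1, zero_mul, zero_mul]
      have hD := pow_pos h.ren_pos N
      have h3 : (1 + t * (2 * (N : ℝ) ^ 2 / u * (m y0 * S))) * ren β N Y m ^ N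
          ≤ ((1 + ((1 + t) ^ (1 + β / N) - 1) * sig Y β N m y0) ^ N
            * (1 + t * m y0) ^ (2 * (N : ℝ) ^ 2 - N - β)) * ren β N Y m ^ N := by
        refine le_trans (mul_le_mul_of_nonneg_right hlow hD.le) (le_trans hopt (le_of_eq ?_))
        ring
      exact le_of_mul_le_mul_right h3 hD)
  have h2 : 2 * (N : ℝ) ^ 2 / u * (m y0 * S) = 2 * (N : ℝ) ^ 2 * (m y0
      + (1 + β / N) / (2 * N) * (sig Y β N m y0 - m y0)) := by
    rw [key]
    field_simp
    ring
  have h3 : m y0 * S = u / (2 * (N : ℝ) ^ 2) * (2 * (N : ℝ) ^ 2 / u * (m y0 * S)) := by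
    field_simp
  rw [h3, h2]
  field_simp

/-- sum of the KKT conditions with weights -/
lemma kkt_sum [DecidableEq V] (h : Side X Y r p β N ρ m u) (hN : 0 < N) (g : V → ℝ) :
    ∑ z ∈ X, ρ z * chi Y r p m u z * (∑ y ∈ Y, m y * g y * (r z y - p))
      = u * (∑ y ∈ Y, m y * g y + (1 + β / N) / (2 * N)
        * (∑ y ∈ Y, sig Y β N m y * g y - ∑ y ∈ Y, m y * g y)) := by
  have e1 : ∑ z ∈ X, ρ z * chi Y r p m u z * (∑ y ∈ Y, m y * g y * (r z y - p))
      = ∑ y ∈ Y, g y * (m y * ∑ z ∈ X, ρ z * chi Y r p m u z * (r z y - p)) := by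
    simp_rw [mul_sum]
    rw [sum_comm]
    refine sum_congr rfl fun y _ => sum_congr rfl fun z _ => ?_
    ring
  rw [e1, sum_congr rfl fun y hy => by rw [h.kkt hN hy]]
  have e2 : ∀ y ∈ Y, g y * (u * (m y + (1 + β / N) / (2 * N) * (sig Y β N m y - m y)))
      = u * (m y * g y) + u * ((1 + β / N) / (2 * N)) * (sig Y β N m y * g y)
        - u * ((1 + β / N) / (2 * N)) * (m y * g y) := by
    intro y _
    ring
  rw [sum_congr rfl e2, sum_sub_distrib, sum_add_distrib, ← mul_sum, ← mul_sum, ← mul_sum]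
  ring

lemma chi_ex_sum [DecidableEq V] (h : Side X Y r p β N ρ m u) (hN : 0 < N) :
    ∑ z ∈ X, ρ z * chi Y r p m u z * ex r p Y m z = u := by
  have h1 := h.kkt_sum hN (fun _ => 1)
  simp only [mul_one] at h1
  rw [h.sig_sum, h.hm1, sub_self, mul_zero, add_zero, mul_one] at h1
  exact h1

/-- `E χ = 1` -/
lemma chi_sum [DecidableEq V] (h : Side X Y r p β N ρ m u) (hN : 0 < N) :
    ∑ z ∈ X, ρ z * chi Y r p m u z = 1 := by
  have h1 := h.chi_ex_sum hN
  have e : ∀ z ∈ X, ρ z * chi Y r p m u z * ex r p Y m z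
      = u / 2 * ρ z + u / 2 * (ρ z * chi Y r p m u z) := by
    intro z hz
    rcases (h.hρ0 z hz).lt_or_eq with h2 | h2
    · have := h.chi_ex hz h2
      have e1 : ρ z * chi Y r p m u z * ex r p Y m z
          = ρ z * (chi Y r p m u z * (2 * ex r p Y m z)) / 2 := by ring
      rw [e1, this]; ring
    · rw [← h2]; ring
  rw [sum_congr rfl e, sum_add_distrib, ← mul_sum, ← mul_sum, h.hρ1] at h1
  have hu := h.hu
  have : u / 2 * ∑ z ∈ X, ρ z * chi Y r p m u z = u / 2 * 1 := by linarith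
  exact mul_left_cancel₀ (by positivity) this

/-- the centre options -/
lemma centre [DecidableEq V] (h : Side X Y r p β N ρ m u) {c : ℝ} (hc : 0 ≤ c) :
    ∑ z ∈ X, ρ z * (max (c * (1 + chi Y r p m u z * (1 - c))) 0) ^ (N ^ 2) ≤ 1 := by
  have h1 := h.opt_one (m' := m) (u' := c * u) h.hm0 h.hm1 (mul_nonneg hc h.hu.le)
  have hD := pow_pos h.ren_pos N
  have h2 : ∑ z ∈ X, ρ z * (ph (c * u) (ex r p Y m z) / qq Y r p m u z) ^ (N ^ 2) ≤ 1 := by
    rw [← one_mul (ren β N Y m ^ N)] at h1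
    have : (∑ z ∈ X, ρ z * (ph (c * u) (ex r p Y m z) / qq Y r p m u z) ^ (N ^ 2))
        * (ren β N Y m ^ N) ≤ 1 * (ren β N Y m ^ N) := by simpa using h1
    exact le_of_mul_le_mul_right this hD
  refine le_trans (le_of_eq ?_) h2
  refine sum_congr rfl fun z hz => ?_
  rcases (h.hρ0 z hz).lt_or_eq with h3 | h3
  · have hq := h.qq_pos hz h3
    congr 2
    unfold ph
    rw [← max_div_div_right hq.le, zero_div]
    congr 1
    unfold chi
    rw [eq_div_iff hq.ne']
    have : c * (1 + u ^ 2 / qq Y r p m u z * (1 - c)) * qq Y r p m u z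
        = c * (qq Y r p m u z + u ^ 2 * (1 - c)) := by field_simp
    rw [this]
    unfold qq
    ring
  · rw [← h3]; simp

open Classical in
/-- the good vertices -/
noncomputable def good (X Y : Finset V) (r : V → V → ℝ) (p : ℝ) (ρ m : V → ℝ) (u τ : ℝ) :
    Finset V := X.filter (fun z => 0 < ρ z ∧ |chi Y r p m u z - 1| ≤ τ)

lemma mem_good {z : V} {τ : ℝ} : z ∈ good X Y r p ρ m u τ ↔
    z ∈ X ∧ 0 < ρ z ∧ |chi Y r p m u z - 1| ≤ τ := by
  classical
  simp [good]

/-- **Pinning**: almost all vertices have `χ` within `τ` of `1`. -/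
lemma pinning [DecidableEq V] (h : Side X Y r p β N ρ m u) {τ : ℝ} (hτ0 : 0 < τ)
    (hτ1 : τ ≤ 1 / 2) :
    ∑ z ∈ X, ρ z - ∑ z ∈ good X Y r p ρ m u τ, ρ z ≤ 2 * (1 + τ ^ 2 / 8) ^ (-(N ^ 2 : ℤ)) := by
  classical
  set A := (1 + τ ^ 2 / 8) ^ (N ^ 2) with hA
  have hA0 : 0 < A := by positivity
  have hup := h.centre (c := 1 - τ / 2) (by linarith)
  have hlo := h.centre (c := 1 + τ / 2) (by linarith)
  have hA' : (1 + τ ^ 2 / 8) ^ (-(N ^ 2 : ℤ)) = A⁻¹ := by
    have e0 : (-(N ^ 2 : ℤ)) = -((N ^ 2 : ℕ) : ℤ) := by push_cast; rfl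
    rw [e0, zpow_neg, zpow_natCast]
  rw [hA']
  have hpt : ∀ z ∈ X, (ρ z - if z ∈ good X Y r p ρ m u τ then ρ z else 0) ≤
      A⁻¹ * (ρ z * (max ((1 - τ / 2) * (1 + chi Y r p m u z * (1 - (1 - τ / 2)))) 0) ^ (N ^ 2))
      + A⁻¹ * (ρ z * (max ((1 + τ / 2) * (1 + chi Y r p m u z * (1 - (1 + τ / 2)))) 0) ^ (N ^ 2)) := by
    intro z hz
    have hρ := h.hρ0 z hz
    have n1 : 0 ≤ A⁻¹ * (ρ z * (max ((1 - τ / 2) * (1 + chi Y r p m u z * (1 - (1 - τ / 2)))) 0)
        ^ (N ^ 2)) := by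
      have : 0 ≤ max ((1 - τ / 2) * (1 + chi Y r p m u z * (1 - (1 - τ / 2)))) 0 := le_max_right _ _
      positivity
    have n2 : 0 ≤ A⁻¹ * (ρ z * (max ((1 + τ / 2) * (1 + chi Y r p m u z * (1 - (1 + τ / 2)))) 0)
        ^ (N ^ 2)) := by
      have : 0 ≤ max ((1 + τ / 2) * (1 + chi Y r p m u z * (1 - (1 + τ / 2)))) 0 := le_max_right _ _
      positivity
    by_cases hg : z ∈ good X Y r p ρ m u τ
    · simp only [hg, if_true, sub_self]
      linarith
    · simp only [hg, if_false, sub_zero]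
      rcases hρ.lt_or_eq with h3 | h3
      · have hg' : ¬ |chi Y r p m u z - 1| ≤ τ := fun hc => hg (mem_good.mpr ⟨hz, h3, hc⟩)
        push Not at hg'
        have hχ := h.chi_pos hz h3
        rcases lt_abs.mp hg' with h4 | h4
        · -- χ > 1 + τ
          have b1 : 1 + τ ^ 2 / 8 ≤
              max ((1 - τ / 2) * (1 + chi Y r p m u z * (1 - (1 - τ / 2)))) 0 := by
            refine le_trans ?_ (le_max_left _ _)
            have h5 : 1 + τ < chi Y r p m u z := by linarith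
            have h6 : (1 - τ / 2) * (1 + (1 + τ) * (τ / 2))
                ≤ (1 - τ / 2) * (1 + chi Y r p m u z * (1 - (1 - τ / 2))) := by
              apply mul_le_mul_of_nonneg_left _ (by linarith)
              have : (1 + τ) * (τ / 2) ≤ chi Y r p m u z * (τ / 2) :=
                mul_le_mul_of_nonneg_right h5.le (by linarith)
              have e : (1 - (1 - τ / 2)) = τ / 2 := by ring
              rw [e]; linarith
            refine le_trans ?_ h6
            nlinarith [mul_nonneg (sq_nonneg τ) (by linarith : (0:ℝ) ≤ 1 / 2 - τ)]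
          have b2 := pow_le_pow_left₀ (by positivity) b1 (N ^ 2)
          have b3 : ρ z ≤ A⁻¹ * (ρ z * (max ((1 - τ / 2)
              * (1 + chi Y r p m u z * (1 - (1 - τ / 2)))) 0) ^ (N ^ 2)) := by
            have : ρ z = A⁻¹ * (ρ z * A) := by field_simp
            conv_lhs => rw [this]
            apply mul_le_mul_of_nonneg_left _ (by positivity)
            exact mul_le_mul_of_nonneg_left b2 h3.le
          linarith
        · have b1 : 1 + τ ^ 2 / 8 ≤
              max ((1 + τ / 2) * (1 + chi Y r p m u z * (1 - (1 + τ / 2)))) 0 := by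
            refine le_trans ?_ (le_max_left _ _)
            have h5 : chi Y r p m u z < 1 - τ := by linarith
            have h6 : (1 + τ / 2) * (1 - (1 - τ) * (τ / 2))
                ≤ (1 + τ / 2) * (1 + chi Y r p m u z * (1 - (1 + τ / 2))) := by
              apply mul_le_mul_of_nonneg_left _ (by linarith)
              have : chi Y r p m u z * (τ / 2) ≤ (1 - τ) * (τ / 2) :=
                mul_le_mul_of_nonneg_right h5.le (by linarith)
              have e : (1 - (1 + τ / 2)) = -(τ / 2) := by ring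
              rw [e]; linarith
            refine le_trans ?_ h6
            nlinarith [mul_nonneg (sq_nonneg τ) hτ0.le]
          have b2 := pow_le_pow_left₀ (by positivity) b1 (N ^ 2)
          have b3 : ρ z ≤ A⁻¹ * (ρ z * (max ((1 + τ / 2)
              * (1 + chi Y r p m u z * (1 - (1 + τ / 2)))) 0) ^ (N ^ 2)) := by
            have : ρ z = A⁻¹ * (ρ z * A) := by field_simp
            conv_lhs => rw [this]
            apply mul_le_mul_of_nonneg_left _ (by positivity)
            exact mul_le_mul_of_nonneg_left b2 h3.le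
          linarith
      · rw [← h3]; simp
  have hsum := sum_le_sum hpt
  rw [sum_sub_distrib, sum_add_distrib, ← mul_sum, ← mul_sum] at hsum
  have e1 : ∑ z ∈ X, (if z ∈ good X Y r p ρ m u τ then ρ z else 0)
      = ∑ z ∈ good X Y r p ρ m u τ, ρ z := by
    rw [← sum_filter]
    congr 1
    ext z
    simp only [mem_filter]
    exact ⟨fun h => h.2, fun h => ⟨(mem_good.mp h).1, h⟩⟩
  rw [e1] at hsum
  have i1 : A⁻¹ * ∑ z ∈ X, ρ z * (max ((1 - τ / 2) * (1 + chi Y r p m u z * (1 - (1 - τ / 2)))) 0)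
      ^ (N ^ 2) ≤ A⁻¹ * 1 := mul_le_mul_of_nonneg_left hup (by positivity)
  have i2 : A⁻¹ * ∑ z ∈ X, ρ z * (max ((1 + τ / 2) * (1 + chi Y r p m u z * (1 - (1 + τ / 2)))) 0)
      ^ (N ^ 2) ≤ A⁻¹ * 1 := mul_le_mul_of_nonneg_left hlo (by positivity)
  linarith

end Side

end W478R
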