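import Pool.Agent.W478R.Side1
import Pool.Agent.W478R.ScalarDefs

open Finset

namespace W478R

variable {V : Type}

namespace Side

variable {X Y : Finset V} {r : V → V → ℝ} {p β : ℝ} {N : ℕ} {ρ m : V → ℝ} {u : ℝ}

/-- `h = E_σ θ - 1` -/
noncomputable def hh (Y : Finset V) (β : ℝ) (N : ℕ) (m θ : V → ℝ) : ℝ :=
  ∑ y ∈ Y, sig Y β N m y * θ y - 1

/-- `Γ = E_σ θ^(1+γ)` -/
noncomputable def gam (Y : Finset V) (β : ℝ) (N : ℕ) (m θ : V → ℝ) : ℝ :=
  ∑ y ∈ Y, sig Y β N m y * θ y ^ (1 + β / N)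

/-- the linearised log-gain of `z` under the tilt `θ` -/
noncomputable def xi (Y : Finset V) (r : V → V → ℝ) (p β : ℝ) (N : ℕ) (m : V → ℝ) (u : ℝ)
    (θ : V → ℝ) (z : V) : ℝ :=
  2 * (N : ℝ) ^ 2 * chi Y r p m u z * (ex r p Y (fun y => m y * θ y) z
    - (1 + eta β N (hh Y β N m θ)) * ex r p Y m z) / u

lemma hh_ge (h : Side X Y r p β N ρ m u) {θ : V → ℝ} (h0 : ∀ y ∈ Y, 0 ≤ θ y) :
    -1 ≤ hh Y β N m θ := by
  unfold hh
  have : 0 ≤ ∑ y ∈ Y, sig Y β N m y * θ y :=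
    sum_nonneg fun y hy => mul_nonneg (h.sig_nonneg hy) (h0 y hy)
  linarith

lemma gam_nonneg (h : Side X Y r p β N ρ m u) {θ : V → ℝ} (h0 : ∀ y ∈ Y, 0 ≤ θ y) :
    0 ≤ gam Y β N m θ :=
  sum_nonneg fun y hy => mul_nonneg (h.sig_nonneg hy) (Real.rpow_nonneg (h0 y hy) _)

lemma ren_tilt (h : Side X Y r p β N ρ m u) {θ : V → ℝ} (h0 : ∀ y ∈ Y, 0 ≤ θ y) :
    ren β N Y (fun y => m y * θ y) = ren β N Y m * gam Y β N m θ := by
  have hD := h.ren_pos.ne'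
  unfold gam
  rw [mul_sum]
  conv_lhs => unfold ren
  refine sum_congr rfl fun y hy => ?_
  rw [Real.mul_rpow (h.hm0 y hy) (h0 y hy)]
  unfold sig
  field_simp

/-- value of the new configuration -/
lemma tilt_value (h : Side X Y r p β N ρ m u) {θ : V → ℝ}
    (hη : 0 < 1 + eta β N (hh Y β N m θ)) (hN : 0 < N) {z : V} (hz : z ∈ X) (hρ : 0 < ρ z) :
    ph (u * (1 + eta β N (hh Y β N m θ))) (ex r p Y (fun y => m y * θ y) z)
      = (1 + eta β N (hh Y β N m θ)) ^ 2 * qq Y r p m u z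
        * max (1 + xi Y r p β N m u θ z / ((N : ℝ) ^ 2 * (1 + eta β N (hh Y β N m θ)))) 0 := by
  have hq := h.qq_pos hz hρ
  have hu := h.hu
  have hN' : (0 : ℝ) < N := by exact_mod_cast hN
  set η := eta β N (hh Y β N m θ) with hηd
  set E := ex r p Y (fun y => m y * θ y) z with hE
  unfold ph
  rw [mul_max_of_nonneg _ _ (by positivity), mul_zero]
  congr 1
  unfold xi
  rw [← hηd, ← hE]
  unfold chi
  have e1 : (1 + η) ^ 2 * qq Y r p m u z * (1 + 2 * (N : ℝ) ^ 2 * (u ^ 2 / qq Y r p m u z)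
      * (E - (1 + η) * ex r p Y m z) / u / ((N : ℝ) ^ 2 * (1 + η)))
      = (1 + η) * ((1 + η) * qq Y r p m u z + 2 * u * (E - (1 + η) * ex r p Y m z)) := by
    field_simp
  rw [e1]
  unfold qq
  ring

/-- `E ξ = 0` -/
lemma xi_mean [DecidableEq V] (h : Side X Y r p β N ρ m u) (hN : 0 < N) {θ : V → ℝ}
    (h1 : ∑ y ∈ Y, m y * θ y = 1) : ∑ z ∈ X, ρ z * xi Y r p β N m u θ z = 0 := by
  have hk := h.kkt_sum hN θ
  have he := h.chi_ex_sum hN
  have hu := h.hu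
  rw [h1] at hk
  have e1 : ∀ z ∈ X, ρ z * xi Y r p β N m u θ z
      = 2 * (N : ℝ) ^ 2 / u * (ρ z * chi Y r p m u z * (∑ y ∈ Y, m y * θ y * (r z y - p)))
        - 2 * (N : ℝ) ^ 2 / u * (1 + eta β N (hh Y β N m θ))
          * (ρ z * chi Y r p m u z * ex r p Y m z) := by
    intro z _
    unfold xi
    have : ex r p Y (fun y => m y * θ y) z = ∑ y ∈ Y, m y * θ y * (r z y - p) := rfl
    rw [this]
    field_simp
  rw [sum_congr rfl e1, sum_sub_distrib, ← mul_sum, ← mul_sum, hk, he]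
  have e2 : (∑ y ∈ Y, sig Y β N m y * θ y - 1) = hh Y β N m θ := rfl
  rw [e2]
  unfold eta
  ring

/-- the reservoir option -/
lemma tilt_opt (h : Side X Y r p β N ρ m u) (hN : 0 < N) {θ : V → ℝ} (h0 : ∀ y ∈ Y, 0 ≤ θ y)
    (h1 : ∑ y ∈ Y, m y * θ y = 1) (hη : 0 < 1 + eta β N (hh Y β N m θ)) :
    (1 + eta β N (hh Y β N m θ)) ^ (2 * N ^ 2)
      * ∑ z ∈ X, ρ z * (max (1 + xi Y r p β N m u θ z
        / ((N : ℝ) ^ 2 * (1 + eta β N (hh Y β N m θ)))) 0) ^ (N ^ 2) ≤ gam Y β N m θ ^ N := by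
  have hu := h.hu
  have hopt := h.opt_one (m' := fun y => m y * θ y) (u' := u * (1 + eta β N (hh Y β N m θ)))
    (fun y hy => mul_nonneg (h.hm0 y hy) (h0 y hy)) h1 (by positivity)
  rw [h.ren_tilt h0, mul_pow, mul_comm (ren β N Y m ^ N)] at hopt
  have hD := pow_pos h.ren_pos N
  refine le_trans (le_of_eq ?_) (le_of_mul_le_mul_right hopt hD)
  rw [mul_sum]
  refine sum_congr rfl fun z hz => ?_
  rcases (h.hρ0 z hz).lt_or_eq with h3 | h3
  · have hq := h.qq_pos hz h3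
    rw [h.tilt_value hη hN hz h3]
    have e : (1 + eta β N (hh Y β N m θ)) ^ 2 * qq Y r p m u z
        * max (1 + xi Y r p β N m u θ z / ((N : ℝ) ^ 2 * (1 + eta β N (hh Y β N m θ)))) 0
        / qq Y r p m u z = (1 + eta β N (hh Y β N m θ)) ^ 2
        * max (1 + xi Y r p β N m u θ z / ((N : ℝ) ^ 2 * (1 + eta β N (hh Y β N m θ)))) 0 := by
      field_simp
    rw [e, mul_pow, ← pow_mul]
    ring
  · rw [← h3]; simp

/-- `(1+η)^(2n) ≤ Γ^N` -/
lemma eta_le_gam [DecidableEq V] (h : Side X Y r p β N ρ m u) (hN : 0 < N) {θ : V → ℝ}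
    (h0 : ∀ y ∈ Y, 0 ≤ θ y) (h1 : ∑ y ∈ Y, m y * θ y = 1)
    (hη : 0 < 1 + eta β N (hh Y β N m θ)) :
    (1 + eta β N (hh Y β N m θ)) ^ (2 * N ^ 2) ≤ gam Y β N m θ ^ N := by
  refine le_trans ?_ (h.tilt_opt hN h0 h1 hη)
  have hN' : (0 : ℝ) < N := by exact_mod_cast hN
  have hone : 1 ≤ ∑ z ∈ X, ρ z * (max (1 + xi Y r p β N m u θ z
      / ((N : ℝ) ^ 2 * (1 + eta β N (hh Y β N m θ)))) 0) ^ (N ^ 2) := by
    have e1 : ∑ z ∈ X, ρ z * (1 + ((N ^ 2 : ℕ) : ℝ) * (xi Y r p β N m u θ z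
        / ((N : ℝ) ^ 2 * (1 + eta β N (hh Y β N m θ))))) = 1 := by
      have e2 : ∀ z ∈ X, ρ z * (1 + ((N ^ 2 : ℕ) : ℝ) * (xi Y r p β N m u θ z
          / ((N : ℝ) ^ 2 * (1 + eta β N (hh Y β N m θ)))))
          = ρ z + (1 + eta β N (hh Y β N m θ))⁻¹ * (ρ z * xi Y r p β N m u θ z) := by
        intro z _
        push_cast
        field_simp
      rw [sum_congr rfl e2, sum_add_distrib, ← mul_sum, h.xi_mean hN h1, h.hρ1]
      ring
    refine le_trans (le_of_eq e1.symm) ?_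
    refine sum_le_sum fun z hz => mul_le_mul_of_nonneg_left ?_ (h.hρ0 z hz)
    set a := xi Y r p β N m u θ z / ((N : ℝ) ^ 2 * (1 + eta β N (hh Y β N m θ))) with ha
    have h2 : 0 ≤ max (1 + a) 0 := le_max_right _ _
    have h3 : 1 + a ≤ max (1 + a) 0 := le_max_left _ _
    have h4 := one_add_mul_le_pow (a := max (1 + a) 0 - 1) (by linarith) (N ^ 2)
    have h5 : (1 + (max (1 + a) 0 - 1)) = max (1 + a) 0 := by ring
    rw [h5] at h4
    refine le_trans ?_ h4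
    have : ((N ^ 2 : ℕ) : ℝ) * a ≤ ((N ^ 2 : ℕ) : ℝ) * (max (1 + a) 0 - 1) :=
      mul_le_mul_of_nonneg_left (by linarith) (Nat.cast_nonneg _)
    linarith
  have : 0 ≤ (1 + eta β N (hh Y β N m θ)) ^ (2 * N ^ 2) := by positivity
  nlinarith

/-- scaling of the tilt towards 1 -/
lemma hh_scale (h : Side X Y r p β N ρ m u) (s : ℝ) (θ : V → ℝ) :
    hh Y β N m (fun y => 1 + s * (θ y - 1)) = s * hh Y β N m θ := by
  unfold hh
  have e : ∀ y ∈ Y, sig Y β N m y * (1 + s * (θ y - 1))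
      = (1 - s) * sig Y β N m y + s * (sig Y β N m y * θ y) := by
    intro y _; ring
  rw [sum_congr rfl e, sum_add_distrib, ← mul_sum, ← mul_sum, h.sig_sum]
  ring

lemma sum_scale (h : Side X Y r p β N ρ m u) (s : ℝ) {θ : V → ℝ}
    (h1 : ∑ y ∈ Y, m y * θ y = 1) : ∑ y ∈ Y, m y * (1 + s * (θ y - 1)) = 1 := by
  have e : ∀ y ∈ Y, m y * (1 + s * (θ y - 1)) = (1 - s) * m y + s * (m y * θ y) := by
    intro y _; ring
  rw [sum_congr rfl e, sum_add_distrib, ← mul_sum, ← mul_sum, h.hm1, h1]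
  ring

lemma eta_scale (β : ℝ) (N : ℕ) (s a : ℝ) : eta β N (s * a) = s * eta β N a := by
  unfold eta; ring

lemma xi_scale (h : Side X Y r p β N ρ m u) (s : ℝ) (θ : V → ℝ) (z : V) :
    xi Y r p β N m u (fun y => 1 + s * (θ y - 1)) z = s * xi Y r p β N m u θ z := by
  unfold xi
  rw [h.hh_scale, eta_scale]
  have e : ex r p Y (fun y => m y * (1 + s * (θ y - 1))) z
      = (1 - s) * ex r p Y m z + s * ex r p Y (fun y => m y * θ y) z := by
    unfold ex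
    rw [mul_sum, mul_sum, ← sum_add_distrib]
    refine sum_congr rfl fun y _ => ?_
    ring
  rw [e]
  ring

end Side

end W478R
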