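import Pool.Agent.W478R.Side2

open Finset

namespace W478R

variable {V : Type}

namespace Side

variable {X Y : Finset V} {r : V → V → ℝ} {p β : ℝ} {N : ℕ} {ρ m : V → ℝ} {u : ℝ}

/-- average density of the column `y` -/
noncomputable def dd (X Y : Finset V) (r : V → V → ℝ) (p : ℝ) (ρ m : V → ℝ) (u : ℝ) (y : V) : ℝ :=
  ∑ z ∈ X, ρ z * chi Y r p m u z * r z y

/-- normaliser of the pivot tilt -/
noncomputable def ZZ (X Y : Finset V) (r : V → V → ℝ) (p : ℝ) (ρ m : V → ℝ) (u : ℝ) (v : V) : ℝ :=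
  ∑ y ∈ Y, m y * (r v y / dd X Y r p ρ m u y)

open Classical in
/-- the pivot tilt -/
noncomputable def th (X Y : Finset V) (r : V → V → ℝ) (p : ℝ) (ρ m : V → ℝ) (u : ℝ) (v y : V) : ℝ :=
  if m y = 0 then 0 else r v y / (dd X Y r p ρ m u y * ZZ X Y r p ρ m u v)

/-- the Gram kernel -/
noncomputable def KK0 (X Y : Finset V) (r : V → V → ℝ) (p : ℝ) (N : ℕ) (ρ m : V → ℝ) (u : ℝ)
    (v z : V) : ℝ :=
  ∑ y ∈ Y, (2 * (N : ℝ) ^ 2 / u * (m y * dd X Y r p ρ m u y))
    * (r v y / dd X Y r p ρ m u y - (p + ex r p Y m v) / (p + u))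
    * (r z y / dd X Y r p ρ m u y - (p + ex r p Y m z) / (p + u))

lemma r_nonneg (h : Side X Y r p β N ρ m u) (z y : V) : 0 ≤ r z y := by
  rcases h.hr z y with h1 | h1 <;> rw [h1]; norm_num

lemma r_le_one (h : Side X Y r p β N ρ m u) (z y : V) : r z y ≤ 1 := by
  rcases h.hr z y with h1 | h1 <;> rw [h1]; norm_num

lemma dd_nonneg (h : Side X Y r p β N ρ m u) (y : V) : 0 ≤ dd X Y r p ρ m u y :=
  sum_nonneg fun z hz => mul_nonneg (h.rc_nonneg hz) (h.r_nonneg z y)

lemma dd_le_one [DecidableEq V] (h : Side X Y r p β N ρ m u) (hN : 0 < N) (y : V) :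
    dd X Y r p ρ m u y ≤ 1 := by
  rw [← h.chi_sum hN]
  refine sum_le_sum fun z hz => ?_
  have := h.rc_nonneg hz
  have := h.r_le_one z y
  nlinarith

/-- `m d = (p+u) m + u κ (σ - m)` -/
lemma md [DecidableEq V] (h : Side X Y r p β N ρ m u) (hN : 0 < N) {y : V} (hy : y ∈ Y) :
    m y * dd X Y r p ρ m u y
      = (p + u) * m y + u * ((1 + β / N) / (2 * N)) * (sig Y β N m y - m y) := by
  have h1 := h.kkt hN hy
  have h2 : ∑ z ∈ X, ρ z * chi Y r p m u z * (r z y - p) = dd X Y r p ρ m u y - p := by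
    have : ∀ z ∈ X, ρ z * chi Y r p m u z * (r z y - p)
        = ρ z * chi Y r p m u z * r z y - p * (ρ z * chi Y r p m u z) := by
      intro z _; ring
    rw [sum_congr rfl this, sum_sub_distrib, ← mul_sum, h.chi_sum hN]
    unfold dd
    ring
  rw [h2] at h1
  linarith

lemma dd_ge [DecidableEq V] (h : Side X Y r p β N ρ m u) (hN : 0 < N) (hβ : 0 < β) {y : V}
    (hy : y ∈ Y) (hm : m y ≠ 0) :
    p + u * (1 - (1 + β / N) / (2 * N)) ≤ dd X Y r p ρ m u y := by
  have hm0 : 0 < m y := lt_of_le_of_ne (h.hm0 y hy) (Ne.symm hm)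
  have h1 := h.md hN hy
  have h2 := h.sig_nonneg hy
  have hu := h.hu
  have hN' : (0 : ℝ) < N := by exact_mod_cast hN
  have h3 : 0 ≤ u * ((1 + β / N) / (2 * N)) * sig Y β N m y := by positivity
  have h4 : m y * (p + u * (1 - (1 + β / N) / (2 * N))) ≤ m y * dd X Y r p ρ m u y := by
    rw [h1]
    nlinarith
  exact le_of_mul_le_mul_left h4 hm0

/-- integration of `m d` -/
lemma md_sum [DecidableEq V] (h : Side X Y r p β N ρ m u) (hN : 0 < N) (g : V → ℝ) :
    ∑ y ∈ Y, m y * dd X Y r p ρ m u y * g y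
      = (p + u) * ∑ y ∈ Y, m y * g y + u * ((1 + β / N) / (2 * N))
        * (∑ y ∈ Y, sig Y β N m y * g y - ∑ y ∈ Y, m y * g y) := by
  have e : ∀ y ∈ Y, m y * dd X Y r p ρ m u y * g y
      = (p + u) * (m y * g y) + u * ((1 + β / N) / (2 * N)) * (sig Y β N m y * g y)
        - u * ((1 + β / N) / (2 * N)) * (m y * g y) := by
    intro y hy
    rw [h.md hN hy]; ring
  rw [sum_congr rfl e, sum_sub_distrib, sum_add_distrib, ← mul_sum, ← mul_sum, ← mul_sum]
  ring

lemma sum_mr (h : Side X Y r p β N ρ m u) (v : V) :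
    ∑ y ∈ Y, m y * r v y = p + ex r p Y m v := by
  unfold ex
  have e : ∀ y ∈ Y, m y * (r v y - p) = m y * r v y - p * m y := by intro y _; ring
  rw [sum_congr rfl e, sum_sub_distrib, ← mul_sum, h.hm1]
  ring

section pos

variable (hp : 0 < p) (hκ : (1 + β / N) / (2 * N) ≤ 1)

include hp hκ in
lemma dd_pos [DecidableEq V] (h : Side X Y r p β N ρ m u) (hN : 0 < N) (hβ : 0 < β) {y : V}
    (hy : y ∈ Y) (hm : m y ≠ 0) : p ≤ dd X Y r p ρ m u y := by
  refine le_trans ?_ (h.dd_ge hN hβ hy hm)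
  have := h.hu
  nlinarith

include hp hκ in
lemma md_div [DecidableEq V] (h : Side X Y r p β N ρ m u) (hN : 0 < N) (hβ : 0 < β) {y : V}
    (hy : y ∈ Y) (v : V) :
    m y * dd X Y r p ρ m u y * (r v y / dd X Y r p ρ m u y) = m y * r v y := by
  by_cases hm : m y = 0
  · rw [hm]; ring
  · have := lt_of_lt_of_le hp (h.dd_pos hp hκ hN hβ hy hm)
    field_simp

include hp hκ in
lemma sum_md_div [DecidableEq V] (h : Side X Y r p β N ρ m u) (hN : 0 < N) (hβ : 0 < β) (v : V) :
    ∑ y ∈ Y, m y * dd X Y r p ρ m u y * (r v y / dd X Y r p ρ m u y) = p + ex r p Y m v := by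
  rw [sum_congr rfl fun y hy => h.md_div hp hκ hN hβ hy v, h.sum_mr]

include hp hκ in
lemma ZZ_pos [DecidableEq V] (h : Side X Y r p β N ρ m u) (hN : 0 < N) (hβ : 0 < β) {v : V}
    (hv : 0 < p + ex r p Y m v) : 0 < ZZ X Y r p ρ m u v := by
  refine lt_of_lt_of_le hv ?_
  rw [← h.sum_mr]
  unfold ZZ
  refine sum_le_sum fun y hy => ?_
  by_cases hm : m y = 0
  · rw [hm]; simp
  · have h1 := lt_of_lt_of_le hp (h.dd_pos hp hκ hN hβ hy hm)
    apply mul_le_mul_of_nonneg_left _ (h.hm0 y hy)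
    rw [le_div_iff₀ h1]
    have := h.r_nonneg v y
    have := h.dd_le_one hN y
    nlinarith

lemma th_nonneg [DecidableEq V] (h : Side X Y r p β N ρ m u) {v : V}
    (hZ : 0 < ZZ X Y r p ρ m u v) (y : V) : 0 ≤ th X Y r p ρ m u v y := by
  unfold th
  split
  · exact le_rfl
  · exact div_nonneg (h.r_nonneg v y) (mul_nonneg (h.dd_nonneg y) hZ.le)

include hp hκ in
lemma th_le [DecidableEq V] (h : Side X Y r p β N ρ m u) (hN : 0 < N) (hβ : 0 < β) {v : V}
    (hZ : 0 < ZZ X Y r p ρ m u v) {y : V} (hy : y ∈ Y) :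
    th X Y r p ρ m u v y ≤ 1 / (p * ZZ X Y r p ρ m u v) := by
  unfold th
  split
  · positivity
  · rename_i hm
    have h1 := h.dd_pos hp hκ hN hβ hy hm
    apply div_le_div₀ (by norm_num) (h.r_le_one v y) (by positivity)
    exact mul_le_mul_of_nonneg_right h1 hZ.le

lemma m_th (v y : V) : m y * th X Y r p ρ m u v y
    = (ZZ X Y r p ρ m u v)⁻¹ * (m y * (r v y / dd X Y r p ρ m u y)) := by
  unfold th
  split
  · rename_i hm; rw [hm]; ring
  · rw [div_mul_eq_div_div]
    ring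

lemma sum_m_th (v : V) (hZ : 0 < ZZ X Y r p ρ m u v) :
    ∑ y ∈ Y, m y * th X Y r p ρ m u v y = 1 := by
  rw [sum_congr rfl fun y _ => m_th v y, ← mul_sum]
  have : ∑ y ∈ Y, m y * (r v y / dd X Y r p ρ m u y) = ZZ X Y r p ρ m u v := rfl
  rw [this, inv_mul_cancel₀ hZ.ne']

lemma sig_th (h : Side X Y r p β N ρ m u) (hβ : 0 < β) (v y : V) :
    sig Y β N m y * th X Y r p ρ m u v y
      = (ZZ X Y r p ρ m u v)⁻¹ * (sig Y β N m y * (r v y / dd X Y r p ρ m u y)) := by
  unfold th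
  split
  · rename_i hm
    rw [h.sig_zero hβ hm]; ring
  · rw [div_mul_eq_div_div]
    ring

include hp hκ in
/-- `Z (p + u (1+η)) = p + e(v)` -/
lemma Z_eq [DecidableEq V] (h : Side X Y r p β N ρ m u) (hN : 0 < N) (hβ : 0 < β) {v : V}
    (hZ : 0 < ZZ X Y r p ρ m u v) :
    ZZ X Y r p ρ m u v * (p + u * (1 + eta β N (hh Y β N m (th X Y r p ρ m u v))))
      = p + ex r p Y m v := by
  have h1 := h.sum_md_div hp hκ hN hβ v
  rw [h.md_sum hN] at h1
  have e1 : ∑ y ∈ Y, m y * (r v y / dd X Y r p ρ m u y) = ZZ X Y r p ρ m u v := rfl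
  have e2 : ∑ y ∈ Y, sig Y β N m y * (r v y / dd X Y r p ρ m u y)
      = ZZ X Y r p ρ m u v * (1 + hh Y β N m (th X Y r p ρ m u v)) := by
    unfold hh
    rw [sum_congr rfl fun y _ => h.sig_th hβ v y, ← mul_sum]
    field_simp
    ring
  rw [e1, e2] at h1
  rw [← h1]
  unfold eta
  ring

include hp hκ in
/-- **Gram identity** for the linearised gain. -/
lemma gram [DecidableEq V] (h : Side X Y r p β N ρ m u) (hN : 0 < N) (hβ : 0 < β) {v z : V}
    (hZ : 0 < ZZ X Y r p ρ m u v) (hz : z ∈ X) (hρ : 0 < ρ z) :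
    xi Y r p β N m u (th X Y r p ρ m u v) z
      = chi Y r p m u z / ZZ X Y r p ρ m u v * KK0 X Y r p N ρ m u v z
        + (N : ℝ) ^ 2 * eta β N (hh Y β N m (th X Y r p ρ m u v)) * (chi Y r p m u z - 1)
          * (p / (p + u)) := by
  have hu := h.hu
  have hZe := h.Z_eq hp hκ hN hβ hZ
  have hchi := h.chi_ex hz hρ
  set η := eta β N (hh Y β N m (th X Y r p ρ m u v)) with hη
  set Z := ZZ X Y r p ρ m u v with hZd
  set E := ex r p Y (fun y => m y * th X Y r p ρ m u v y) z with hE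
  have hpu : 0 < p + u := by linarith
  -- the kernel
  have hK : KK0 X Y r p N ρ m u v z = 2 * (N : ℝ) ^ 2 / u
      * (Z * (E + p) - (p + ex r p Y m v) * (p + ex r p Y m z) / (p + u)) := by
    have s1 : ∑ y ∈ Y, m y * dd X Y r p ρ m u y * (r v y / dd X Y r p ρ m u y)
        = p + ex r p Y m v := h.sum_md_div hp hκ hN hβ v
    have s2 : ∑ y ∈ Y, m y * dd X Y r p ρ m u y * (r z y / dd X Y r p ρ m u y)
        = p + ex r p Y m z := h.sum_md_div hp hκ hN hβ z
    have s3 : ∑ y ∈ Y, m y * dd X Y r p ρ m u y = p + u := by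
      have := h.md_sum hN (fun _ => 1)
      simp only [mul_one] at this
      rw [this, h.hm1, h.sig_sum]
      ring
    have s4 : ∑ y ∈ Y, m y * dd X Y r p ρ m u y
        * ((r v y / dd X Y r p ρ m u y) * (r z y / dd X Y r p ρ m u y)) = Z * (E + p) := by
      have e1 : ∀ y ∈ Y, m y * dd X Y r p ρ m u y
          * ((r v y / dd X Y r p ρ m u y) * (r z y / dd X Y r p ρ m u y))
          = Z * (m y * th X Y r p ρ m u v y * (r z y - p)) + Z * p
            * (m y * th X Y r p ρ m u v y) := by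
        intro y hy
        have e2 : m y * dd X Y r p ρ m u y
            * ((r v y / dd X Y r p ρ m u y) * (r z y / dd X Y r p ρ m u y))
            = (m y * dd X Y r p ρ m u y * (r z y / dd X Y r p ρ m u y))
              * (r v y / dd X Y r p ρ m u y) := by ring
        rw [e2, h.md_div hp hκ hN hβ hy z]
        have e3 := m_th (X := X) (Y := Y) (r := r) (p := p) (ρ := ρ) (m := m) (u := u) v y
        rw [e3, ← hZd]
        field_simp
        ring
      rw [sum_congr rfl e1, sum_add_distrib, ← mul_sum, ← mul_sum, sum_m_th v hZ]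
      rw [hE]
      unfold ex
      ring
    unfold KK0
    have e1 : ∀ y ∈ Y, (2 * (N : ℝ) ^ 2 / u * (m y * dd X Y r p ρ m u y))
        * (r v y / dd X Y r p ρ m u y - (p + ex r p Y m v) / (p + u))
        * (r z y / dd X Y r p ρ m u y - (p + ex r p Y m z) / (p + u))
        = 2 * (N : ℝ) ^ 2 / u * (m y * dd X Y r p ρ m u y
            * ((r v y / dd X Y r p ρ m u y) * (r z y / dd X Y r p ρ m u y)))
          - 2 * (N : ℝ) ^ 2 / u * ((p + ex r p Y m z) / (p + u))
            * (m y * dd X Y r p ρ m u y * (r v y / dd X Y r p ρ m u y))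
          - 2 * (N : ℝ) ^ 2 / u * ((p + ex r p Y m v) / (p + u))
            * (m y * dd X Y r p ρ m u y * (r z y / dd X Y r p ρ m u y))
          + 2 * (N : ℝ) ^ 2 / u * ((p + ex r p Y m v) / (p + u)) * ((p + ex r p Y m z) / (p + u))
            * (m y * dd X Y r p ρ m u y) := by
      intro y _
      ring
    rw [sum_congr rfl e1, sum_add_distrib, sum_sub_distrib, sum_sub_distrib, ← mul_sum, ← mul_sum,
      ← mul_sum, ← mul_sum, s1, s2, s3, s4]
    field_simp
    ring
  rw [hK, ← hZe]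
  unfold xi
  rw [← hη, ← hE]
  have hchi' : chi Y r p m u z * ex r p Y m z = u * (1 + chi Y r p m u z) / 2 := by linarith
  have e1 : chi Y r p m u z / Z * (2 * (N : ℝ) ^ 2 / u
      * (Z * (E + p) - Z * (p + u * (1 + η)) * (p + ex r p Y m z) / (p + u)))
      = 2 * (N : ℝ) ^ 2 / u * (chi Y r p m u z * (E + p)
        - (p + u * (1 + η)) / (p + u) * (chi Y r p m u z * p + chi Y r p m u z * ex r p Y m z)) := by
    field_simp
  have e2 : 2 * (N : ℝ) ^ 2 * chi Y r p m u z * (E - (1 + η) * ex r p Y m z) / u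
      = 2 * (N : ℝ) ^ 2 / u * (chi Y r p m u z * E - (1 + η)
        * (chi Y r p m u z * ex r p Y m z)) := by
    field_simp
  rw [e1, e2, hchi']
  field_simp
  ring

end pos

end Side

end W478R
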