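import Pool.Agent.W478R.Side3

open Finset

namespace W478R

variable {V : Type}

/-- lower bound for `(1+y/n)_+^n` with the eighth binomial term -/
lemma pow_lower8 {n : ℕ} (hn : 9 ≤ n) (y : ℝ) :
    1 + y + (n.choose 8 : ℝ) / (n : ℝ) ^ 8 * (max y 0) ^ 8 ≤ (max (1 + y / n) 0) ^ n := by
  have hn0 : (0 : ℝ) < n := by
    have : (9 : ℝ) ≤ n := by exact_mod_cast hn
    linarith
  rcases le_total y 0 with hy | hy
  · rw [max_eq_right hy]
    simp only [ne_eq, OfNat.ofNat_ne_zero, not_false_eq_true, zero_pow, mul_zero, add_zero]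
    have h2 : 0 ≤ max (1 + y / n) 0 := le_max_right _ _
    have h3 : 1 + y / n ≤ max (1 + y / n) 0 := le_max_left _ _
    have h4 := one_add_mul_le_pow (a := max (1 + y / n) 0 - 1) (by linarith) n
    have h5 : (1 + (max (1 + y / n) 0 - 1)) = max (1 + y / n) 0 := by ring
    rw [h5] at h4
    refine le_trans ?_ h4
    have h6 : (n : ℝ) * (y / n) ≤ n * (max (1 + y / n) 0 - 1) :=
      mul_le_mul_of_nonneg_left (by linarith) hn0.le
    have h7 : (n : ℝ) * (y / n) = y := by field_simp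
    linarith
  · rw [max_eq_left hy, max_eq_left (by positivity)]
    rw [add_comm 1 (y / n), add_pow]
    have hsub : ({0, 1, 8} : Finset ℕ) ⊆ range (n + 1) := by
      intro k hk
      simp only [mem_insert, mem_singleton] at hk
      rw [mem_range]
      omega
    have h1 := sum_le_sum_of_subset_of_nonneg (f := fun k => (y / n) ^ k * 1 ^ (n - k)
      * (n.choose k : ℝ)) hsub (fun k _ _ => by positivity)
    refine le_trans (le_of_eq ?_) h1
    rw [sum_insert (by simp), sum_insert (by simp), sum_singleton]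
    simp only [pow_zero, one_pow, mul_one, Nat.choose_zero_right, Nat.cast_one, pow_one,
      Nat.choose_one_right]
    field_simp
    ring

/-- `(1+x)^(1+γ) ≤ 1 + (1+γ) x + γ x²` -/
lemma rpow_quad {γ x : ℝ} (hγ0 : 0 ≤ γ) (hγ1 : γ ≤ 1) (hx : -1 ≤ x) :
    (1 + x) ^ (1 + γ) ≤ 1 + (1 + γ) * x + γ * x ^ 2 := by
  have h1 := rpow_one_add_le_one_add_mul_self hx hγ0 hγ1
  rw [Real.rpow_add_of_nonneg (by linarith) (by norm_num) hγ0, Real.rpow_one]
  have : (1 + x) * (1 + x) ^ γ ≤ (1 + x) * (1 + γ * x) :=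
    mul_le_mul_of_nonneg_left h1 (by linarith)
  nlinarith

/-- chord bound -/
lemma rpow_chord {γ T θ B : ℝ} (hγ0 : 0 ≤ γ) (hT0 : 0 ≤ T) (hT1 : T ≤ 1) (hθ0 : 0 ≤ θ)
    (hθB : θ ≤ B) (hB : 0 < B) :
    (1 + T * (θ - 1)) ^ (1 + γ)
      ≤ (1 - θ / B) * (1 - T) ^ (1 + γ) + θ / B * (1 - T + T * B) ^ (1 + γ) := by
  have hconv := convexOn_rpow (p := 1 + γ) (by linarith)
  have hx : (1 - T) ∈ Set.Ici (0 : ℝ) := Set.mem_Ici.mpr (by linarith)
  have hy : (1 - T + T * B) ∈ Set.Ici (0 : ℝ) :=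
    Set.mem_Ici.mpr (by have := mul_nonneg hT0 hB.le; linarith)
  have h := hconv.2 hx hy (show (0 : ℝ) ≤ 1 - θ / B by rw [sub_nonneg, div_le_one hB]; exact hθB)
    (show (0 : ℝ) ≤ θ / B by positivity) (by ring)
  simp only [smul_eq_mul] at h
  refine le_trans (le_of_eq ?_) h
  congr 1
  field_simp
  ring

namespace Side

variable {X Y : Finset V} {r : V → V → ℝ} {p β : ℝ} {N : ℕ} {ρ m : V → ℝ} {u : ℝ}

lemma gam_hard_le (h : Side X Y r p β N ρ m u) (hβ : 0 ≤ β) {θ : V → ℝ} {B : ℝ}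
    (h0 : ∀ y ∈ Y, 0 ≤ θ y) (hB : ∀ y ∈ Y, θ y ≤ B) :
    gam Y β N m θ ≤ B ^ (β / N) * (1 + hh Y β N m θ) := by
  have e : B ^ (β / N) * (1 + hh Y β N m θ) = ∑ y ∈ Y, B ^ (β / N) * (sig Y β N m y * θ y) := by
    rw [← mul_sum]; unfold hh; ring
  rw [e]
  unfold gam
  have hγ : 0 ≤ β / N := by positivity
  refine sum_le_sum fun y hy => ?_
  rw [Real.rpow_add_of_nonneg (h0 y hy) (by norm_num) hγ, Real.rpow_one]
  have h1 : θ y ^ (β / N) ≤ B ^ (β / N) := Real.rpow_le_rpow (h0 y hy) (hB y hy) hγ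
  have h2 := h.sig_nonneg hy
  have h3 := h0 y hy
  calc sig Y β N m y * (θ y * θ y ^ (β / N)) = θ y ^ (β / N) * (sig Y β N m y * θ y) := by ring
    _ ≤ B ^ (β / N) * (sig Y β N m y * θ y) := mul_le_mul_of_nonneg_right h1 (by positivity)

lemma hh_le (h : Side X Y r p β N ρ m u) {θ : V → ℝ} {B : ℝ} (hB : ∀ y ∈ Y, θ y ≤ B) :
    1 + hh Y β N m θ ≤ B := by
  unfold hh
  have : ∑ y ∈ Y, sig Y β N m y * θ y ≤ ∑ y ∈ Y, sig Y β N m y * B :=
    sum_le_sum fun y hy => mul_le_mul_of_nonneg_left (hB y hy) (h.sig_nonneg hy)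
  rw [← sum_mul, h.sig_sum, one_mul] at this
  linarith

lemma gam_soft_le (h : Side X Y r p β N ρ m u) (hβ : 0 ≤ β) {θ : V → ℝ} {B T : ℝ}
    (h0 : ∀ y ∈ Y, 0 ≤ θ y) (hθ : ∀ y ∈ Y, θ y ≤ B) (hB : 0 < B) (hT0 : 0 ≤ T) (hT1 : T ≤ 1) :
    gam Y β N m (fun y => 1 + T * (θ y - 1))
      ≤ (1 - (1 + hh Y β N m θ) / B) * (1 - T) ^ (1 + β / N)
        + (1 + hh Y β N m θ) / B * (1 - T + T * B) ^ (1 + β / N) := by
  have hγ : 0 ≤ β / N := by positivity
  have h1 : gam Y β N m (fun y => 1 + T * (θ y - 1))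
      ≤ ∑ y ∈ Y, sig Y β N m y * ((1 - θ y / B) * (1 - T) ^ (1 + β / N)
        + θ y / B * (1 - T + T * B) ^ (1 + β / N)) := by
    unfold gam
    exact sum_le_sum fun y hy => mul_le_mul_of_nonneg_left
      (rpow_chord hγ hT0 hT1 (h0 y hy) (hθ y hy) hB) (h.sig_nonneg hy)
  refine h1.trans (le_of_eq ?_)
  have e : ∀ y ∈ Y, sig Y β N m y * ((1 - θ y / B) * (1 - T) ^ (1 + β / N)
        + θ y / B * (1 - T + T * B) ^ (1 + β / N))
      = (1 - T) ^ (1 + β / N) * sig Y β N m y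
        - (1 - T) ^ (1 + β / N) / B * (sig Y β N m y * θ y)
        + (1 - T + T * B) ^ (1 + β / N) / B * (sig Y β N m y * θ y) := by
    intro y _
    ring
  rw [sum_congr rfl e, sum_add_distrib, sum_sub_distrib, ← mul_sum, ← mul_sum, ← mul_sum,
    h.sig_sum]
  unfold hh
  ring

lemma gam_mom_le (h : Side X Y r p β N ρ m u) (hβ : 0 ≤ β) (hβN : β / N ≤ 1) {θ : V → ℝ}
    {B s : ℝ} (h0 : ∀ y ∈ Y, 0 ≤ θ y) (hθ : ∀ y ∈ Y, θ y ≤ B)
    (hs : ∀ y ∈ Y, 0 ≤ 1 + s * (θ y - 1)) :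
    gam Y β N m (fun y => 1 + s * (θ y - 1))
      ≤ 1 + (1 + β / N) * (s * hh Y β N m θ)
        + β / N * (s ^ 2 * (B * (1 + hh Y β N m θ) - 1 - 2 * hh Y β N m θ)) := by
  have hγ : 0 ≤ β / N := by positivity
  have h1 : gam Y β N m (fun y => 1 + s * (θ y - 1))
      ≤ ∑ y ∈ Y, sig Y β N m y * (1 + (1 + β / N) * (s * (θ y - 1))
        + β / N * (s ^ 2 * (B * θ y - 2 * θ y + 1))) := by
    unfold gam
    refine sum_le_sum fun y hy => mul_le_mul_of_nonneg_left ?_ (h.sig_nonneg hy)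
    refine (rpow_quad hγ hβN (by have := hs y hy; linarith)).trans ?_
    have h2 : (s * (θ y - 1)) ^ 2 ≤ s ^ 2 * (B * θ y - 2 * θ y + 1) := by
      have : θ y * θ y ≤ B * θ y := mul_le_mul_of_nonneg_right (hθ y hy) (h0 y hy)
      have h3 : (θ y - 1) ^ 2 ≤ B * θ y - 2 * θ y + 1 := by nlinarith
      rw [mul_pow]
      exact mul_le_mul_of_nonneg_left h3 (sq_nonneg s)
    have := mul_le_mul_of_nonneg_left h2 hγ
    linarith
  refine h1.trans (le_of_eq ?_)
  have e : ∀ y ∈ Y, sig Y β N m y * (1 + (1 + β / N) * (s * (θ y - 1))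
        + β / N * (s ^ 2 * (B * θ y - 2 * θ y + 1)))
      = (1 - (1 + β / N) * s + β / N * s ^ 2) * sig Y β N m y
        + ((1 + β / N) * s + β / N * s ^ 2 * (B - 2)) * (sig Y β N m y * θ y) := by
    intro y _
    ring
  rw [sum_congr rfl e, sum_add_distrib, ← mul_sum, ← mul_sum, h.sig_sum]
  unfold hh
  ring

/-- `Z` is close to one -/
lemma Z_close [DecidableEq V] (h : Side X Y r p β N ρ m u) (hp : 0 < p) (hp1 : p < 1)
    (hN : 0 < N) (hβ : 0 < β) {κ τ : ℝ} (hκ : (1 + β / N) / (2 * N) ≤ κ) (hκ1 : κ ≤ 1 / 2)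
    (hτ1 : τ ≤ 1 / 2) {v : V} (hv : v ∈ good X Y r p ρ m u τ) :
    0 < ZZ X Y r p ρ m u v ∧ |ZZ X Y r p ρ m u v - 1| ≤ 2 * τ + 2 * κ * (1 / p + 1) := by
  obtain ⟨hvX, hρ, hχ⟩ := mem_good.mp hv
  have hu := h.hu
  have hχ0 := h.chi_pos hvX hρ
  have hce := h.chi_ex hvX hρ
  set χ := chi Y r p m u v with hχd
  set e := ex r p Y m v with hed
  have hκ' : (1 + β / N) / (2 * N) ≤ 1 := hκ.trans (by linarith)
  have hab := abs_le.mp hχ
  have he0 : 0 < e := by
    have h0 : 0 < χ * (2 * e) := by rw [hce]; positivity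
    by_contra hcon
    push Not at hcon
    have : χ * (2 * e) ≤ 0 := mul_nonpos_of_nonneg_of_nonpos hχ0.le (by linarith)
    linarith
  have hZ := h.ZZ_pos hp hκ' hN hβ (v := v) (by rw [← hed]; linarith)
  refine ⟨hZ, ?_⟩
  have hZe := h.Z_eq hp hκ' hN hβ hZ
  set Z := ZZ X Y r p ρ m u v with hZd
  set k := (1 + β / N) / (2 * N) with hk
  have hk0 : 0 ≤ k := by rw [hk]; positivity
  set W := Z * (1 + hh Y β N m (th X Y r p ρ m u v)) with hW
  have hW0 : 0 ≤ W := by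
    have := h.hh_ge (θ := th X Y r p ρ m u v) (fun y _ => h.th_nonneg hZ y)
    exact mul_nonneg hZ.le (by linarith)
  have hW1 : W ≤ 1 / p := by
    have := h.hh_le (fun y hy => h.th_le hp hκ' hN hβ hZ hy)
    calc W ≤ Z * (1 / (p * Z)) := mul_le_mul_of_nonneg_left this hZ.le
      _ = 1 / p := by field_simp
  have h1 : Z * (p + u - u * k) = p + e - u * k * W := by
    have : Z * (p + u * (1 + eta β N (hh Y β N m (th X Y r p ρ m u v))))
        = Z * (p + u - u * k) + u * k * W := by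
      unfold eta
      rw [hW, hk]; ring
    rw [this] at hZe
    linarith
  have heu : |e - u| ≤ u * τ := by
    have h2 : χ * (2 * (e - u)) = u * (1 - χ) := by linarith
    have h3 : χ * (2 * |e - u|) = u * |1 - χ| := by
      have h2' := congrArg abs h2
      rw [abs_mul, abs_mul, abs_mul, abs_of_pos hχ0, abs_two, abs_of_pos hu] at h2'
      exact h2'
    have h4 : |1 - χ| ≤ τ := by rw [abs_sub_comm]; exact hχ
    have h5 : u * |1 - χ| ≤ u * τ := mul_le_mul_of_nonneg_left h4 hu.le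
    have h6 : |e - u| ≤ χ * (2 * |e - u|) := by
      have := abs_nonneg (e - u)
      nlinarith
    linarith
  have h7 : (Z - 1) * (p + u - u * k) = (e - u) - u * k * (W - 1) := by
    have : (Z - 1) * (p + u - u * k) = Z * (p + u - u * k) - (p + u - u * k) := by ring
    rw [this, h1]; ring
  have hden : u / 2 ≤ p + u - u * k := by nlinarith
  have h8 : |Z - 1| * (p + u - u * k) ≤ u * τ + u * k * (1 / p + 1) := by
    have hd0 : 0 < p + u - u * k := lt_of_lt_of_le (by positivity) hden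
    rw [← abs_of_pos hd0, ← abs_mul, h7]
    have h9 := abs_sub (e - u) (u * k * (W - 1))
    have h10 : |u * k * (W - 1)| ≤ u * k * (1 / p + 1) := by
      rw [abs_mul, abs_of_nonneg (by positivity : (0:ℝ) ≤ u * k)]
      apply mul_le_mul_of_nonneg_left _ (by positivity)
      rw [abs_le]
      constructor
      · have : 0 < 1 / p := by positivity
        linarith
      · linarith
    linarith
  have h11 : |Z - 1| * (u / 2) ≤ |Z - 1| * (p + u - u * k) :=
    mul_le_mul_of_nonneg_left hden (abs_nonneg _)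
  have h12 : u * k * (1 / p + 1) ≤ u * κ * (1 / p + 1) := by
    have : 0 < 1 / p := by positivity
    have := mul_le_mul_of_nonneg_left hκ hu.le
    nlinarith
  have h13 : |Z - 1| * (u / 2) ≤ (2 * τ + 2 * κ * (1 / p + 1)) * (u / 2) := by
    linarith
  exact le_of_mul_le_mul_right h13 (by positivity)

end Side

end W478R
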