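import Pool.Agent.W478R.Side4

open Finset

namespace W478R

variable {V : Type}

namespace Side

variable {X Y : Finset V} {r : V → V → ℝ} {p β : ℝ} {N : ℕ} {ρ m : V → ℝ} {u : ℝ}

/-- everything we need about a good pivot `v` -/
structure Piv (X Y : Finset V) (r : V → V → ℝ) (p β : ℝ) (N : ℕ) (ρ m : V → ℝ) (u δ : ℝ) (v : V) :
    Prop where
  hZ : 0 < ZZ X Y r p ρ m u v
  hZ1 : |ZZ X Y r p ρ m u v - 1| ≤ δ
  hh1 : |hh Y β N m (th X Y r p ρ m u v)| ≤ δ
  hη : |eta β N (hh Y β N m (th X Y r p ρ m u v))| ≤ 1 / 2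

lemma piv_of_good [DecidableEq V] (h : Side X Y r p β N ρ m u) (hp : 0 < p) (hp1 : p < 1)
    (hN : 0 < N) (hβ : 0 < β) {κ τ δ : ℝ} (hβN : β / N ≤ 1) (hN2 : (1 : ℝ) / N ≤ κ)
    (hκ1 : κ ≤ 1 / 2) (hτ1 : τ ≤ 1 / 2)
    (hδ : 2 * τ + 2 * κ * (1 / p + 1) ≤ δ) (hδ1 : δ ≤ 1 / 2)
    (hHS : ∀ (h Z Γ : ℝ), -1 ≤ h → 1 / 2 ≤ Z → Z ≤ 2 → 1 + h ≤ 1 / (p * Z) → 0 ≤ Γ →
      Γ ≤ (1 / (p * Z)) ^ (β / N) * (1 + h) →
      (1 + eta β N h) ^ (2 * N ^ 2) ≤ Γ ^ N → |h| ≤ δ)
    {v : V} (hv : v ∈ good X Y r p ρ m u τ) : Piv X Y r p β N ρ m u δ v := by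
  have hN' : (0 : ℝ) < N := by exact_mod_cast hN
  have hk : (1 + β / N) / (2 * N) ≤ κ := by
    refine le_trans ?_ hN2
    rw [div_le_div_iff₀ (by positivity) hN']
    nlinarith
  have hk0 : 0 < (1 + β / N) / (2 * N) := by positivity
  have hκ' : (1 + β / N) / (2 * N) ≤ 1 := hk.trans (by linarith)
  obtain ⟨hZ, hZ1⟩ := h.Z_close hp hp1 hN hβ hk hκ1 hτ1 hv
  have hZ2 : |ZZ X Y r p ρ m u v - 1| ≤ δ := hZ1.trans hδ
  have hab := abs_le.mp hZ2
  have hth0 : ∀ y ∈ Y, 0 ≤ th X Y r p ρ m u v y := fun y _ => h.th_nonneg hZ y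
  have hthB : ∀ y ∈ Y, th X Y r p ρ m u v y ≤ 1 / (p * ZZ X Y r p ρ m u v) :=
    fun y hy => h.th_le hp hκ' hN hβ hZ hy
  have hge := h.hh_ge hth0
  have hηlow : -(1 / 2) ≤ eta β N (hh Y β N m (th X Y r p ρ m u v)) := by
    unfold eta
    nlinarith
  have hηpos : 0 < 1 + eta β N (hh Y β N m (th X Y r p ρ m u v)) := by linarith
  have hsum := sum_m_th (X := X) (Y := Y) (r := r) (p := p) (ρ := ρ) (m := m) (u := u) v hZ
  have hhd := hHS (hh Y β N m (th X Y r p ρ m u v)) (ZZ X Y r p ρ m u v)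
    (gam Y β N m (th X Y r p ρ m u v)) hge (by linarith) (by linarith) (h.hh_le hthB)
    (h.gam_nonneg hth0) (h.gam_hard_le hβ.le hth0 hthB) (h.eta_le_gam hN hth0 hsum hηpos)
  refine ⟨hZ, hZ2, hhd, ?_⟩
  unfold eta
  rw [abs_mul, abs_of_pos hk0]
  have := abs_nonneg (hh Y β N m (th X Y r p ρ m u v))
  nlinarith

/-- moment bound, one sign -/
lemma moment [DecidableEq V] (h : Side X Y r p β N ρ m u) (hN : 3 ≤ N) (hβ : 0 ≤ β)
    (hβN : β / N ≤ 1) {θ : V → ℝ} {B s : ℝ} (h0 : ∀ y ∈ Y, 0 ≤ θ y) (hθ : ∀ y ∈ Y, θ y ≤ B)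
    (h1 : ∑ y ∈ Y, m y * θ y = 1)
    (hs : ∀ y ∈ Y, 0 ≤ 1 + s * (θ y - 1)) (hη : 0 < 1 + s * eta β N (hh Y β N m θ)) :
    (1 + s * eta β N (hh Y β N m θ)) ^ (2 * N ^ 2)
      * (1 + ((N ^ 2).choose 8 : ℝ) / ((N : ℝ) ^ 2) ^ 8
        * ((∑ z ∈ X, ρ z * (max (s * xi Y r p β N m u θ z) 0) ^ 8)
          / (1 + s * eta β N (hh Y β N m θ)) ^ 8))
      ≤ gam Y β N m (fun y => 1 + s * (θ y - 1)) ^ N := by
  have hN0 : 0 < N := by omega
  have hN' : (0 : ℝ) < N := by exact_mod_cast hN0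
  have hsum := h.sum_scale s h1
  have hopt := h.tilt_opt hN0 (θ := fun y => 1 + s * (θ y - 1)) hs hsum (by
    rw [h.hh_scale, eta_scale]; exact hη)
  rw [h.hh_scale, eta_scale] at hopt
  refine le_trans (mul_le_mul_of_nonneg_left ?_ (by positivity)) hopt
  set w := 1 + s * eta β N (hh Y β N m θ) with hw
  have hmean := h.xi_mean hN0 h1
  have e1 : 1 + ((N ^ 2).choose 8 : ℝ) / ((N : ℝ) ^ 2) ^ 8
        * ((∑ z ∈ X, ρ z * (max (s * xi Y r p β N m u θ z) 0) ^ 8) / w ^ 8)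
      = ∑ z ∈ X, ρ z * (1 + s * xi Y r p β N m u θ z / w
        + ((N ^ 2).choose 8 : ℝ) / ((N ^ 2 : ℕ) : ℝ) ^ 8
          * (max (s * xi Y r p β N m u θ z / w) 0) ^ 8) := by
    have e2 : ∀ z ∈ X, ρ z * (1 + s * xi Y r p β N m u θ z / w
        + ((N ^ 2).choose 8 : ℝ) / ((N ^ 2 : ℕ) : ℝ) ^ 8
          * (max (s * xi Y r p β N m u θ z / w) 0) ^ 8)
        = ρ z + s / w * (ρ z * xi Y r p β N m u θ z)
          + ((N ^ 2).choose 8 : ℝ) / ((N : ℝ) ^ 2) ^ 8 / w ^ 8
            * (ρ z * (max (s * xi Y r p β N m u θ z) 0) ^ 8) := by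
      intro z _
      have : max (s * xi Y r p β N m u θ z / w) 0 = max (s * xi Y r p β N m u θ z) 0 / w := by
        rw [← max_div_div_right hη.le, zero_div]
      rw [this, div_pow]
      push_cast
      ring
    rw [sum_congr rfl e2, sum_add_distrib, sum_add_distrib, ← mul_sum, ← mul_sum, hmean, h.hρ1]
    ring
  rw [e1]
  refine sum_le_sum fun z hz => mul_le_mul_of_nonneg_left ?_ (h.hρ0 z hz)
  have h9 : 9 ≤ N ^ 2 := by nlinarith
  have := pow_lower8 h9 (s * xi Y r p β N m u θ z / w)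
  refine this.trans (le_of_eq ?_)
  rw [h.xi_scale]
  congr 2
  push_cast
  field_simp

end Side

open Side in
theorem sideMain_of (hHard : HardScalar) (hSoft : SoftScalar) (hMom : MomScalar) (hSm : HSmall) :
    SideMain := by
  intro p β T B0 hp5 hp1 hβ hT0 hT1 hB L ε hL hε
  have hp0 : 0 < p := by linarith
  set ε1 := min ε (1 / 2) with hε1
  have hε10 : 0 < ε1 := lt_min hε (by norm_num)
  have hε1h : ε1 ≤ 1 / 2 := min_le_right _ _
  have hε1ε : ε1 ≤ ε := min_le_left _ _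
  obtain ⟨δH, hδH0, hH⟩ := hHard p β L ε1 hp0 hp1 hβ hL hε10 (by linarith)
  obtain ⟨δS, hδS0, hS⟩ := hSoft p β T L ε1 hp0 hp1 hβ hT0 hT1 hL hε10 (by linarith)
  obtain ⟨δM, hδM0, hM⟩ := hMom p β B0 (ε1 / 2) hp5 hp1 hβ hB (by positivity)
  set lam := 16 / ε1 with hlam
  have hlam0 : 0 < lam := by positivity
  have hlam1 : 1 ≤ lam := by rw [hlam, le_div_iff₀ hε10]; linarith
  -- the small parameter
  obtain ⟨δ, hδ0, hd1, hd2, hd3, hd4, hd5, hd6⟩ : ∃ δ : ℝ, 0 < δ ∧ δ ≤ δH ∧ δ ≤ δS ∧ δ ≤ δM ∧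
      δ ≤ 1 / 6 ∧ δ ≤ ε1 / 8 ∧ lam * δ ≤ ε1 / 4 := by
    refine ⟨min (min δH δS) (min δM (min (1 / 6) (min (ε1 / 8) (ε1 / 4 / lam)))), ?_, ?_, ?_, ?_,
      ?_, ?_, ?_⟩
    · positivity
    · exact (min_le_left _ _).trans (min_le_left _ _)
    · exact (min_le_left _ _).trans (min_le_right _ _)
    · exact (min_le_right _ _).trans (min_le_left _ _)
    · exact (min_le_right _ _).trans ((min_le_right _ _).trans (min_le_left _ _))
    · exact (min_le_right _ _).trans ((min_le_right _ _).trans ((min_le_right _ _).trans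
        (min_le_left _ _)))
    · have h1 : min (min δH δS) (min δM (min (1 / 6) (min (ε1 / 8) (ε1 / 4 / lam)))) ≤ ε1 / 4 / lam :=
        (min_le_right _ _).trans ((min_le_right _ _).trans ((min_le_right _ _).trans
          (min_le_right _ _)))
      rw [le_div_iff₀ hlam0] at h1
      linarith
  obtain ⟨N1, hN1, hsm⟩ := hSm p β δ hp0 hp1 hβ hδ0
  -- bound on κ = 1/N
  set κ := δ / (4 * (1 / p + 1)) with hκ
  have hpp : 0 < 1 / p := by positivity
  have hκ0 : 0 < κ := by positivity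
  have hκδ : κ ≤ δ / 4 := by
    rw [hκ]
    apply div_le_div_of_nonneg_left hδ0.le (by norm_num)
    linarith
  obtain ⟨N2, hN2⟩ := exists_nat_ge (1 / κ)
  obtain ⟨N3, hN3⟩ := exists_nat_ge (1 / δ)
  obtain ⟨N4, hN4⟩ := exists_nat_ge (4 * lam / δ)
  obtain ⟨N5, hN5⟩ := exists_nat_ge β
  refine ⟨max (max N1 N2) (max (max N3 N4) (max N5 3)), ?_⟩
  intro N hN V _ X Y r ρ m u h
  have g1 : N1 ≤ N := le_trans (le_trans (le_max_left _ _) (le_max_left _ _)) hN
  have g2 : N2 ≤ N := le_trans (le_trans (le_max_right _ _) (le_max_left _ _)) hN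
  have g3 : N3 ≤ N := le_trans (le_trans (le_trans (le_max_left _ _) (le_max_left _ _))
    (le_max_right _ _)) hN
  have g4 : N4 ≤ N := le_trans (le_trans (le_trans (le_max_right _ _) (le_max_left _ _))
    (le_max_right _ _)) hN
  have g5 : N5 ≤ N := le_trans (le_trans (le_trans (le_max_left _ _) (le_max_right _ _))
    (le_max_right _ _)) hN
  have g6 : 3 ≤ N := le_trans (le_trans (le_trans (le_max_right _ _) (le_max_right _ _))
    (le_max_right _ _)) hN
  have hN0 : 0 < N := by omega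
  have hN' : (0 : ℝ) < N := by exact_mod_cast hN0
  have r2 : 1 / κ ≤ (N : ℝ) := hN2.trans (by exact_mod_cast g2)
  have r3 : 1 / δ ≤ (N : ℝ) := hN3.trans (by exact_mod_cast g3)
  have r4 : 4 * lam / δ ≤ (N : ℝ) := hN4.trans (by exact_mod_cast g4)
  have r5 : β ≤ (N : ℝ) := hN5.trans (by exact_mod_cast g5)
  have hβN : β / N ≤ 1 := by rw [div_le_one hN']; exact r5
  have hNκ : (1 : ℝ) / N ≤ κ := by
    rw [div_le_iff₀ hκ0] at r2
    rw [div_le_iff₀ hN']; linarith
  have hδN : 1 ≤ δ * N := by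
    rw [div_le_iff₀ hδ0] at r3
    linarith
  set τ := lam / N with hτ
  have hτ0 : 0 < τ := by positivity
  have hτδ : τ ≤ δ / 4 := by
    rw [div_le_iff₀ hδ0] at r4
    rw [hτ, div_le_iff₀ hN']
    linarith
  set Xg := good X Y r p ρ m u τ with hXg
  have hgood : ∀ v ∈ Xg, v ∈ X ∧ 0 < ρ v ∧ |chi Y r p m u v - 1| ≤ τ := fun v hv => mem_good.mp hv
  have hκ' : (1 + β / N) / (2 * N) ≤ 1 := by
    rw [div_le_one (by positivity)]
    have : (3 : ℝ) ≤ N := by exact_mod_cast g6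
    linarith
  have hpiv : ∀ v ∈ Xg, Piv X Y r p β N ρ m u δ v := by
    intro v hv
    refine h.piv_of_good hp0 hp1 hN0 hβ hβN hNκ (by linarith) (by linarith) ?_ (by linarith)
      (fun a b c => hsm N g1 a b c) hv
    have : 2 * κ * (1 / p + 1) = δ / 2 := by
      rw [hκ]; field_simp; ring
    rw [this]; linarith
  have hth0 : ∀ v ∈ Xg, ∀ y ∈ Y, 0 ≤ th X Y r p ρ m u v y :=
    fun v hv y _ => h.th_nonneg (hpiv v hv).hZ y
  have hthB : ∀ v ∈ Xg, ∀ y ∈ Y, th X Y r p ρ m u v y ≤ 1 / (p * ZZ X Y r p ρ m u v) :=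
    fun v hv y hy => h.th_le hp0 hκ' hN0 hβ (hpiv v hv).hZ hy
  have hth1 : ∀ v ∈ Xg, ∑ y ∈ Y, m y * th X Y r p ρ m u v y = 1 :=
    fun v hv => sum_m_th v (hpiv v hv).hZ
  have hηp : ∀ v ∈ Xg, 0 < 1 + eta β N (hh Y β N m (th X Y r p ρ m u v)) := by
    intro v hv
    have := abs_le.mp (hpiv v hv).hη
    linarith
  have hηs : ∀ v ∈ Xg, ∀ s : ℝ, |s| ≤ 1 →
      0 < 1 + s * eta β N (hh Y β N m (th X Y r p ρ m u v)) := by
    intro v hv s hs
    have h1 : |s * eta β N (hh Y β N m (th X Y r p ρ m u v))| ≤ 1 / 2 := by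
      rw [abs_mul]
      have := (hpiv v hv).hη
      have := abs_nonneg (eta β N (hh Y β N m (th X Y r p ρ m u v)))
      nlinarith [abs_nonneg s]
    have := abs_le.mp h1
    linarith
  refine ⟨Xg, fun v z => xi Y r p β N m u (th X Y r p ρ m u v) z, KK0 X Y r p N ρ m u,
    fun v y => m y * th X Y r p ρ m u v y, fun v y => m y * (1 + T * (th X Y r p ρ m u v y - 1)),
    fun v => u * (1 + eta β N (hh Y β N m (th X Y r p ρ m u v))),
    fun v => u * (1 + T * eta β N (hh Y β N m (th X Y r p ρ m u v))), ?_⟩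
  constructor
  · -- hXg
    intro v hv; exact (hgood v hv).1
  · -- hbad
    refine (h.pinning hτ0 (by linarith)).trans (le_trans ?_ hε1ε)
    have e0 : (-(N ^ 2 : ℤ)) = -((N ^ 2 : ℕ) : ℤ) := by push_cast; rfl
    rw [e0, zpow_neg, zpow_natCast]
    have h1 := one_add_mul_le_pow (a := τ ^ 2 / 8) (by have := sq_nonneg τ; linarith) (N ^ 2)
    have h2 : ((N ^ 2 : ℕ) : ℝ) * (τ ^ 2 / 8) = lam ^ 2 / 8 := by
      rw [hτ]; push_cast; field_simp
    rw [h2] at h1
    have h3 : 2 / ε1 ≤ 1 + lam ^ 2 / 8 := by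
      have : lam ≤ lam ^ 2 := by nlinarith
      have h4 : 2 / ε1 = lam / 8 := by rw [hlam]; ring
      rw [h4]; linarith
    have h4 : 2 / ε1 ≤ (1 + τ ^ 2 / 8) ^ (N ^ 2) := h3.trans h1
    have h5 : 0 < (1 + τ ^ 2 / 8) ^ (N ^ 2) := by positivity
    rw [← div_eq_mul_inv, div_le_iff₀ h5]
    rw [div_le_iff₀ hε10] at h4
    linarith
  · -- hmean
    intro v hv
    exact h.xi_mean hN0 (hth1 v hv)
  · -- hmom
    intro v hv
    have hp := hpiv v hv
    have hab := abs_le.mp hp.hZ1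
    have hZlow : 5 / 6 ≤ ZZ X Y r p ρ m u v := by linarith
    have hpZ : 1 / 6 ≤ p * ZZ X Y r p ρ m u v := by nlinarith
    have hB6 : 1 / (p * ZZ X Y r p ρ m u v) ≤ 6 := by
      rw [div_le_iff₀ (by linarith)]; linarith
    have hmomS : ∀ s : ℝ, (s = 1 / 5 ∨ s = -(1 / 5)) →
        (∑ z ∈ X, ρ z * (max (s * xi Y r p β N m u (th X Y r p ρ m u v) z) 0) ^ 8) / s ^ 8
          ≤ 15750000000 * (Real.exp (B0 / 25) - 1) + ε1 / 2 := by
      intro s hs
      have hs1 : |s| ≤ 1 := by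
        rcases hs with rfl | rfl <;> rw [abs_le] <;> constructor <;> norm_num
      have hsn : ∀ y ∈ Y, 0 ≤ 1 + s * (th X Y r p ρ m u v y - 1) := by
        intro y hy
        have b1 := hth0 v hv y hy
        have b2 := (hthB v hv y hy).trans hB6
        rcases hs with rfl | rfl <;> linarith
      have hmm := h.moment g6 hβ.le hβN (hth0 v hv) (hthB v hv) (hth1 v hv) hsn (hηs v hv s hs1)
      refine hM N (hh Y β N m (th X Y r p ρ m u v)) (ZZ X Y r p ρ m u v) s _ _ ?_ ?_ ?_ hs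
        (h.gam_nonneg hsn) ?_ ?_ hmm
      · have := mul_le_mul_of_nonneg_right hd3 hN'.le
        linarith
      · exact hp.hh1.trans hd3
      · exact hp.hZ1.trans hd3
      · exact sum_nonneg fun z hz => mul_nonneg (h.hρ0 z hz) (by positivity)
      · have hg := h.gam_mom_le hβ.le hβN (hth0 v hv) (hthB v hv) hsn
        refine hg.trans (le_of_eq ?_)
        ring
    have e1 : ∀ z ∈ X, ρ z * xi Y r p β N m u (th X Y r p ρ m u v) z ^ 8
        = ρ z * (max ((1 / 5) * xi Y r p β N m u (th X Y r p ρ m u v) z) 0) ^ 8 / (1 / 5) ^ 8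
          + ρ z * (max (-(1 / 5) * xi Y r p β N m u (th X Y r p ρ m u v) z) 0) ^ 8
            / (-(1 / 5)) ^ 8 := by
      intro z _
      set a := xi Y r p β N m u (th X Y r p ρ m u v) z with ha
      rcases le_total a 0 with h1 | h1
      · rw [max_eq_right (by linarith), max_eq_left (by linarith)]
        ring
      · rw [max_eq_left (by linarith), max_eq_right (by linarith)]
        ring
    rw [sum_congr rfl e1, sum_add_distrib, ← sum_div, ← sum_div]
    have h1 := hmomS (1 / 5) (Or.inl rfl)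
    have h2 := hmomS (-(1 / 5)) (Or.inr rfl)
    unfold C8c
    linarith
  · -- hgram
    refine ⟨fun y => 2 * (N : ℝ) ^ 2 / u * (m y * dd X Y r p ρ m u y),
      fun v y => r v y / dd X Y r p ρ m u y - (p + ex r p Y m v) / (p + u), ?_, ?_⟩
    · intro y hy
      have := h.hu
      have := h.hm0 y hy
      have := h.dd_nonneg y
      positivity
    · intro v _ z _
      rfl
  · -- hclose
    intro v hv z hz
    have hp := hpiv v hv
    obtain ⟨hzX, hρz, hχz⟩ := hgood z hz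
    have hχ0 := h.chi_pos hzX hρz
    have hg := h.gram hp0 hκ' hN0 hβ hp.hZ hzX hρz
    have hu := h.hu
    set ξ := xi Y r p β N m u (th X Y r p ρ m u v) z with hξ
    set K := KK0 X Y r p N ρ m u v z with hK
    set Z := ZZ X Y r p ρ m u v with hZ
    set χ := chi Y r p m u z with hχ
    set hv' := hh Y β N m (th X Y r p ρ m u v) with hhv
    set s := (N : ℝ) ^ 2 * eta β N hv' * (χ - 1) * (p / (p + u)) with hs
    have hZ0 : 0 < Z := hp.hZ
    have a1 := abs_le.mp hχz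
    have a2 := abs_le.mp hp.hZ1
    have hKe : K - ξ = (Z / χ - 1) * ξ - Z / χ * s := by
      rw [hg]; field_simp; ring
    have hsb : |s| ≤ lam * δ := by
      have e1 : s = (1 + β / N) / 2 * hv' * (N * (χ - 1)) * (p / (p + u)) := by
        rw [hs]; unfold eta; field_simp
      rw [e1, abs_mul, abs_mul, abs_mul]
      have b1 : |(1 + β / N) / 2| ≤ 1 := by
        rw [abs_of_pos (by positivity)]; linarith
      have b2 : |hv'| ≤ δ := hp.hh1
      have b3 : |(N : ℝ) * (χ - 1)| ≤ lam := by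
        rw [abs_mul, abs_of_pos hN']
        calc (N : ℝ) * |χ - 1| ≤ N * τ := mul_le_mul_of_nonneg_left hχz hN'.le
          _ = lam := by rw [hτ]; field_simp
      have b4 : |p / (p + u)| ≤ 1 := by
        rw [abs_of_pos (by positivity), div_le_one (by positivity)]; linarith
      calc |(1 + β / N) / 2| * |hv'| * |(N : ℝ) * (χ - 1)| * |p / (p + u)|
          ≤ 1 * δ * lam * 1 := by
            apply mul_le_mul _ b4 (abs_nonneg _) (by positivity)
            apply mul_le_mul _ b3 (abs_nonneg _) (by positivity)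
            exact mul_le_mul b1 b2 (abs_nonneg _) (by norm_num)
        _ = lam * δ := by ring
    have hχh : 23 / 24 ≤ χ := by linarith
    have hZχ : |Z / χ - 1| ≤ 4 * δ := by
      have e1 : Z / χ - 1 = (Z - χ) / χ := by field_simp
      rw [e1, abs_div, abs_of_pos hχ0, div_le_iff₀ hχ0, abs_le]
      constructor <;> nlinarith
    have hZχ2 : |Z / χ| ≤ 2 := by
      rw [abs_of_pos (by positivity), div_le_iff₀ hχ0]; linarith
    rw [hKe]
    calc |(Z / χ - 1) * ξ - Z / χ * s| ≤ |(Z / χ - 1) * ξ| + |Z / χ * s| := abs_sub _ _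
      _ = |Z / χ - 1| * |ξ| + |Z / χ| * |s| := by rw [abs_mul, abs_mul]
      _ ≤ 4 * δ * |ξ| + 2 * (lam * δ) := by
          have c1 := mul_le_mul_of_nonneg_right hZχ (abs_nonneg ξ)
          have c2 := mul_le_mul hZχ2 hsb (abs_nonneg _) (by norm_num)
          linarith
      _ ≤ ε * (1 + |ξ|) := by
          have c1 : 4 * δ * |ξ| ≤ ε1 / 2 * |ξ| :=
            mul_le_mul_of_nonneg_right (by linarith) (abs_nonneg _)
          have c2 : ε1 * |ξ| ≤ ε * |ξ| := mul_le_mul_of_nonneg_right hε1ε (abs_nonneg _)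
          have c3 : 0 ≤ ε1 * |ξ| := mul_nonneg hε10.le (abs_nonneg _)
          linarith
  · -- hH0
    intro v hv y hy
    exact mul_nonneg (h.hm0 y hy) (hth0 v hv y hy)
  · -- hH1
    exact hth1
  · -- hHr
    intro v _ y _ hr
    unfold th
    split
    · simp
    · rw [hr]; simp
  · -- hHu
    intro v hv
    exact mul_nonneg h.hu.le (hηp v hv).le
  · -- hHard
    intro v hv z hz hρz hξL
    have hp := hpiv v hv
    obtain ⟨hzX, _, _⟩ := hgood z hz
    have hq := h.qq_pos hzX hρz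
    have hval := h.tilt_value (θ := th X Y r p ρ m u v) (hηp v hv) hN0 hzX hρz
    have hren := h.ren_tilt (hth0 v hv)
    have hsc := hH N (hh Y β N m (th X Y r p ρ m u v)) (ZZ X Y r p ρ m u v)
      (xi Y r p β N m u (th X Y r p ρ m u v) z) (gam Y β N m (th X Y r p ρ m u v))
      (by have := mul_le_mul_of_nonneg_right hd1 hN'.le; linarith)
      (hp.hh1.trans hd1) (hp.hZ1.trans hd1) hξL (h.gam_nonneg (hth0 v hv))
      (h.gam_hard_le hβ.le (hth0 v hv) (hthB v hv))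
    rw [hval, hren, mul_pow, mul_pow, mul_pow, ← pow_mul]
    have hqd : (2 * u * ex r p Y m z - u ^ 2) = qq Y r p m u z := rfl
    rw [hqd]
    set R := (max (1 + xi Y r p β N m u (th X Y r p ρ m u v) z
      / ((N : ℝ) ^ 2 * (1 + eta β N (hh Y β N m (th X Y r p ρ m u v))))) 0) ^ (N ^ 2) with hR
    have hmul := mul_le_mul_of_nonneg_right hsc
      (mul_nonneg (pow_nonneg hq.le (N ^ 2)) (pow_nonneg h.ren_pos.le N))
    have hE : (1 - ε) * Real.exp (xi Y r p β N m u (th X Y r p ρ m u v) z) * p ^ β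
        * qq Y r p m u z ^ N ^ 2 * (ren β N Y m ^ N * gam Y β N m (th X Y r p ρ m u v) ^ N)
        ≤ (1 - ε1) * Real.exp (xi Y r p β N m u (th X Y r p ρ m u v) z) * p ^ β
          * gam Y β N m (th X Y r p ρ m u v) ^ N * (qq Y r p m u z ^ N ^ 2 * ren β N Y m ^ N) := by
      have c0 : 0 ≤ Real.exp (xi Y r p β N m u (th X Y r p ρ m u v) z) * p ^ β
          * gam Y β N m (th X Y r p ρ m u v) ^ N * (qq Y r p m u z ^ N ^ 2 * ren β N Y m ^ N) := by
        have c1 := Real.exp_pos (xi Y r p β N m u (th X Y r p ρ m u v) z)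
        have c2 := Real.rpow_pos_of_pos hp0 β
        have c3 := h.gam_nonneg (hth0 v hv)
        have c4 := h.ren_pos
        positivity
      have := mul_le_mul_of_nonneg_right hε1ε c0
      linarith
    refine hE.trans (hmul.trans (le_of_eq ?_))
    ring
  · -- hS0
    intro v hv y hy
    have := hth0 v hv y hy
    refine mul_nonneg (h.hm0 y hy) ?_
    nlinarith
  · -- hS1
    intro v hv
    exact h.sum_scale T (hth1 v hv)
  · -- hSu
    intro v hv
    exact mul_nonneg h.hu.le (hηs v hv T (by rw [abs_of_pos hT0]; exact hT1.le)).le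
  · -- hSoft
    intro v hv z hz hρz hξL
    have hp := hpiv v hv
    obtain ⟨hzX, _, _⟩ := hgood z hz
    have hq := h.qq_pos hzX hρz
    have hts : ∀ y ∈ Y, 0 ≤ 1 + T * (th X Y r p ρ m u v y - 1) := by
      intro y hy
      have := hth0 v hv y hy
      nlinarith
    have hηT := hηs v hv T (by rw [abs_of_pos hT0]; exact hT1.le)
    have hval := h.tilt_value (θ := fun y => 1 + T * (th X Y r p ρ m u v y - 1))
      (by rw [h.hh_scale, eta_scale]; exact hηT) hN0 hzX hρz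
    rw [h.hh_scale, eta_scale, h.xi_scale] at hval
    have hren := h.ren_tilt hts
    have hpZ0 : 0 < p * ZZ X Y r p ρ m u v := mul_pos hp0 hp.hZ
    have hgs : gam Y β N m (fun y => 1 + T * (th X Y r p ρ m u v y - 1))
        ≤ (1 - (1 + hh Y β N m (th X Y r p ρ m u v)) * (p * ZZ X Y r p ρ m u v))
            * (1 - T) ^ (1 + β / N)
          + (1 + hh Y β N m (th X Y r p ρ m u v)) * (p * ZZ X Y r p ρ m u v)
            * (1 - T + T / (p * ZZ X Y r p ρ m u v)) ^ (1 + β / N) := by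
      have := h.gam_soft_le hβ.le (hth0 v hv) (hthB v hv) (by positivity) hT0.le hT1.le
      have e1 : (1 + hh Y β N m (th X Y r p ρ m u v)) / (1 / (p * ZZ X Y r p ρ m u v))
          = (1 + hh Y β N m (th X Y r p ρ m u v)) * (p * ZZ X Y r p ρ m u v) := by
        field_simp
      have e2 : T * (1 / (p * ZZ X Y r p ρ m u v)) = T / (p * ZZ X Y r p ρ m u v) := by ring
      rw [e1, e2] at this
      exact this
    have hsc := hS N (hh Y β N m (th X Y r p ρ m u v)) (ZZ X Y r p ρ m u v)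
      (xi Y r p β N m u (th X Y r p ρ m u v) z)
      (gam Y β N m (fun y => 1 + T * (th X Y r p ρ m u v y - 1)))
      (by have := mul_le_mul_of_nonneg_right hd2 hN'.le; linarith)
      (hp.hh1.trans hd2) (hp.hZ1.trans hd2) hξL (h.gam_nonneg hts) hgs
    rw [hval, hren, mul_pow, mul_pow, mul_pow, ← pow_mul]
    have hqd : (2 * u * ex r p Y m z - u ^ 2) = qq Y r p m u z := rfl
    rw [hqd]
    have hmul := mul_le_mul_of_nonneg_right hsc
      (mul_nonneg (pow_nonneg hq.le (N ^ 2)) (pow_nonneg h.ren_pos.le N))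
    have hE : (1 - ε) * Real.exp (T * xi Y r p β N m u (th X Y r p ρ m u v) z)
        * Real.exp (-(β * H110R2.KK p T))
        * qq Y r p m u z ^ N ^ 2 * (ren β N Y m ^ N
          * gam Y β N m (fun y => 1 + T * (th X Y r p ρ m u v y - 1)) ^ N)
        ≤ (1 - ε1) * Real.exp (T * xi Y r p β N m u (th X Y r p ρ m u v) z)
          * Real.exp (-(β * H110R2.KK p T))
          * gam Y β N m (fun y => 1 + T * (th X Y r p ρ m u v y - 1)) ^ N
          * (qq Y r p m u z ^ N ^ 2 * ren β N Y m ^ N) := by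
      have c0 : 0 ≤ Real.exp (T * xi Y r p β N m u (th X Y r p ρ m u v) z)
          * Real.exp (-(β * H110R2.KK p T))
          * gam Y β N m (fun y => 1 + T * (th X Y r p ρ m u v y - 1)) ^ N
          * (qq Y r p m u z ^ N ^ 2 * ren β N Y m ^ N) := by
        have c1 := Real.exp_pos (T * xi Y r p β N m u (th X Y r p ρ m u v) z)
        have c3 := h.gam_nonneg hts
        have c4 := h.ren_pos
        positivity
      have := mul_le_mul_of_nonneg_right hε1ε c0
      linarith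
    refine hE.trans (hmul.trans (le_of_eq ?_))
    ring

end W478R
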